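import Mathlib
import Pool.Agent.H358R5.Stubs4
import Pool.Agent.H358R5.INVMUL
import Pool.Agent.H358R5.INIT
import Pool.Agent.H358R5.MULS
import Pool.Agent.H358R5.REP
import Pool.Agent.H358R5.CONVA
import Pool.Agent.H358R5.SMV
import Pool.Agent.H358R5.SEG

/-! Powers of packed sequences with one mask and without shifts: the power number `n` is stored with the offset
`w (n - 1) + h`, `w = 2 h`, so that one multiplication and one `&&&` make the next one. -/

set_option autoImplicit false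

open Finset

namespace Pool.Agent.J6H58.D4

open Pool.Agent.H358R5

/-- the mask: the upper halves of `n` slots of `2 h` bits -/
def msk (h n : ℕ) : ℕ := (((1 <<< h) - 1) <<< h) * rep (2 * h) n

/-- product and mask -/
def mulA (P X Y : ℕ) : ℕ := (X * Y) &&& P

theorem msk_eq (h n : ℕ) (hh : 0 < h) : msk h n = 2 ^ h * ((2 ^ h - 1) * ∑ i ∈ range n, 2 ^ (2 * h * i)) := by
  unfold msk
  rw [REP_proof (2 * h) n (by omega), Nat.one_shiftLeft, Nat.shiftLeft_eq]
  ring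

theorem msk_add (h u n : ℕ) (hh : 0 < h) : msk h (u + n) = msk h u + 2 ^ (2 * h * u) * msk h n := by
  rw [msk_eq h _ hh, msk_eq h _ hh, msk_eq h _ hh, Finset.sum_range_add]
  have : ∑ x ∈ range n, 2 ^ (2 * h * (u + x)) = 2 ^ (2 * h * u) * ∑ x ∈ range n, 2 ^ (2 * h * x) := by
    rw [Finset.mul_sum]
    refine Finset.sum_congr rfl fun x _ => ?_
    rw [mul_add, pow_add]
  rw [this]
  ring

theorem msk_lt (h n : ℕ) (hh : 0 < h) : msk h n < 2 ^ (2 * h * n) := by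
  have h1 := MULSh.pk_lt (2 * h) n (fun _ => 2 ^ h * (2 ^ h - 1)) (fun k _ => by
    have h2 : 2 ^ (2 * h) = 2 ^ h * 2 ^ h := by rw [two_mul, pow_add]
    rw [h2]
    have hp : 0 < 2 ^ h := by positivity
    exact Nat.mul_lt_mul_of_pos_left (by omega) hp)
  refine lt_of_le_of_lt (le_of_eq ?_) h1
  rw [msk_eq h n hh]
  unfold pk
  rw [← Finset.mul_sum]
  ring

theorem and_mod (Z M k : ℕ) (hM : M < 2 ^ k) : Z &&& M = (Z % 2 ^ k) &&& M := by
  apply Nat.eq_of_testBit_eq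
  intro j
  rw [Nat.testBit_and, Nat.testBit_and, Nat.testBit_mod_two_pow]
  by_cases hj : j < k
  · simp [hj]
  · have : M.testBit j = false := Nat.testBit_lt_two_pow (lt_of_lt_of_le hM (Nat.pow_le_pow_right (by norm_num) (by omega)))
    simp [this]

theorem pk_mod (w : ℕ) (a : ℕ → ℕ) (n n' : ℕ) (h : n' ≤ n) : pk w a n ≡ pk w a n' [MOD 2 ^ (w * n')] := by
  obtain ⟨r, rfl⟩ := Nat.exists_eq_add_of_le h
  rw [SEGh.pk_append]
  have : (2 ^ (w * n') * pk w (fun i => a (n' + i)) r) ≡ 0 [MOD 2 ^ (w * n')] :=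
    (Nat.modEq_zero_iff_dvd.2 (dvd_mul_right _ _))
  have h2 := (Nat.ModEq.refl (pk w a n')).add this
  rwa [add_zero] at h2

/-- one step -/
theorem mulA_eq (h nm n n' : ℕ) (hh : 0 < h) (hn : 1 ≤ n) (hn' : 1 ≤ n') (hnm : n + n' ≤ nm + 1) (a b : ℕ → ℕ)
    (hc : ∀ k, k < nm + 1 - (n + n') → conv a b k < 2 ^ (2 * h)) :
    mulA (msk h nm) (2 ^ (2 * h * (n - 1) + h) * pk (2 * h) a (nm + 1 - n))
      (2 ^ (2 * h * (n' - 1) + h) * pk (2 * h) b (nm + 1 - n')) =
    2 ^ (2 * h * (n + n' - 1) + h) * pk (2 * h) (fun k => conv a b k / 2 ^ h) (nm + 1 - (n + n')) := by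
  obtain ⟨r, hr⟩ : ∃ r, r = nm + 1 - (n + n') := ⟨_, rfl⟩
  obtain ⟨u, hu⟩ : ∃ u, u = n + n' - 1 := ⟨_, rfl⟩
  have hnm2 : nm = u + r := by omega
  rw [← hr] at hc ⊢
  rw [← hu]
  unfold mulA
  have e1 : 2 ^ (2 * h * (n - 1) + h) * pk (2 * h) a (nm + 1 - n) *
      (2 ^ (2 * h * (n' - 1) + h) * pk (2 * h) b (nm + 1 - n')) =
      0 + 2 ^ (2 * h * u) * (pk (2 * h) a (nm + 1 - n) * pk (2 * h) b (nm + 1 - n')) := by
    have : 2 * h * u = (2 * h * (n - 1) + h) + (2 * h * (n' - 1) + h) := by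
      obtain ⟨n0, rfl⟩ : ∃ n0, n = n0 + 1 := ⟨n - 1, by omega⟩
      obtain ⟨n1, rfl⟩ : ∃ n1, n' = n1 + 1 := ⟨n' - 1, by omega⟩
      have : u = n0 + n1 + 1 := by omega
      rw [this, Nat.add_sub_cancel, Nat.add_sub_cancel]
      ring
    rw [this, pow_add]
    ring
  rw [e1]
  have hmm : msk h nm = msk h u + 2 ^ (2 * h * u) * msk h r := by rw [hnm2]; exact msk_add h u r hh
  rw [hmm, MULSh.and_split _ _ (by positivity) (msk_lt h u hh), Nat.zero_and, zero_add]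
  have e2 : (pk (2 * h) a (nm + 1 - n) * pk (2 * h) b (nm + 1 - n')) % 2 ^ (2 * h * r) =
      pk (2 * h) (conv a b) r := by
    rw [← MULSh.mul_mod (2 * h) r a b hc]
    exact (pk_mod (2 * h) a _ r (by omega)).mul (pk_mod (2 * h) b _ r (by omega))
  have e3 := MULSh.mask (2 * h) h (by omega) r (conv a b) hc
  rw [show 2 * h - h = h by omega] at e3
  have e4 : (pk (2 * h) a (nm + 1 - n) * pk (2 * h) b (nm + 1 - n')) &&& msk h r =
      2 ^ h * pk (2 * h) (fun k => conv a b k / 2 ^ h) r := by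
    rw [and_mod _ _ (2 * h * r) (msk_lt h r hh), e2, msk_eq h r hh, MULSh.and_shift, e3]
  rw [e4, pow_add]
  ring

end Pool.Agent.J6H58.D4
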