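import Mathlib
import Pool.Agent.J6H58.D3.Snd
import Pool.Agent.J6H58.D4.Msk

/-! The certificate check (after `J6H58.D3.Snd`) with the powers of `Msk`. -/

set_option autoImplicit false

open Finset

namespace Pool.Agent.J6H58.D4

open Pool.Agent.H358R5
open Pool.Agent.J6H58.D3

/-- the invariant of the chain -/
def InvA (G : ℕ → ℕ) (h nm n X S E e : ℕ) : Prop := ∃ a : ℕ → ℕ,
  X = 2 ^ (2 * h * (n - 1) + h) * pk (2 * h) a (nm + 1 - n) ∧ ∑ i ∈ range (nm + 1 - n), a i ≤ S ∧
  ∀ s, s < nm + 1 - n → a s * 2 ^ e ≤ AG G n s ∧ AG G n s ≤ (a s + E) * 2 ^ e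

theorem step_sum (a b : ℕ → ℕ) (n S S' t : ℕ) (hS : ∑ i ∈ range n, a i ≤ S) (hS' : ∑ i ∈ range n, b i ≤ S') :
    ∑ k ∈ range n, conv a b k / 2 ^ t ≤ S * S' / 2 ^ t := by
  have hsum : (∑ i ∈ range n, a i) * ∑ i ∈ range n, b i ≤ S * S' := Nat.mul_le_mul hS hS'
  have h3 : (∑ k ∈ range n, conv a b k / 2 ^ t) * 2 ^ t ≤ S * S' := by
    rw [Finset.sum_mul]
    calc ∑ k ∈ range n, conv a b k / 2 ^ t * 2 ^ t ≤ ∑ k ∈ range n, conv a b k :=
          Finset.sum_le_sum (fun k _ => Nat.div_mul_le_self _ _)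
      _ ≤ _ := (INVMUL_conv_sum a b n).trans hsum
  exact (Nat.le_div_iff_mul_le (by positivity)).2 h3

theorem step_bd (G : ℕ → ℕ) (a a' : ℕ → ℕ) (n n' n1 nn S S' E E' e e' t : ℕ) (hnn : n1 ≤ nn)
    (hS : ∑ i ∈ range n1, a i ≤ S) (hS' : ∑ i ∈ range n1, a' i ≤ S')
    (hb : ∀ s, s < n1 → a s * 2 ^ e ≤ AG G n s ∧ AG G n s ≤ (a s + E) * 2 ^ e)
    (hb' : ∀ s, s < n1 → a' s * 2 ^ e' ≤ AG G n' s ∧ AG G n' s ≤ (a' s + E') * 2 ^ e') :
    ∀ s, s < n1 → conv a a' s / 2 ^ t * 2 ^ (e + e' + t) ≤ AG G (n + n') s ∧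
      AG G (n + n') s ≤ (conv a a' s / 2 ^ t + ((E * S' + E' * S + E * E' * nn) / 2 ^ t + 2)) * 2 ^ (e + e' + t) := by
  intro s hs
  have hpw : 2 ^ (e + e' + t) = 2 ^ e * 2 ^ e' * 2 ^ t := by rw [pow_add, pow_add]
  have hdm := Nat.div_add_mod (conv a a' s) (2 ^ t)
  have hml := Nat.mod_lt (conv a a' s) (show 0 < 2 ^ t by positivity)
  rw [CONVA_proof G n n' s]
  constructor
  · calc conv a a' s / 2 ^ t * 2 ^ (e + e' + t)
        = (2 ^ t * (conv a a' s / 2 ^ t)) * (2 ^ e * 2 ^ e') := by rw [hpw]; ring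
      _ ≤ conv a a' s * (2 ^ e * 2 ^ e') := Nat.mul_le_mul_right _ (by omega)
      _ = ∑ i ∈ range (s + 1), (a i * 2 ^ e) * (a' (s - i) * 2 ^ e') := by
        unfold conv
        rw [Finset.sum_mul]
        exact Finset.sum_congr rfl (fun i _ => by ring)
      _ ≤ conv (AG G n) (AG G n') s := by
        unfold conv
        refine Finset.sum_le_sum (fun i hi => ?_)
        rw [Finset.mem_range] at hi
        exact Nat.mul_le_mul (hb i (by omega)).1 (hb' (s - i) (by omega)).1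
  · have hS1 : ∑ i ∈ range (s + 1), a i ≤ S :=
      (Finset.sum_le_sum_of_subset (Finset.range_subset_range.2 (by omega))).trans hS
    have hS2 : ∑ i ∈ range (s + 1), a' (s - i) ≤ S' := by
      have : ∑ i ∈ range (s + 1), a' (s - i) = ∑ i ∈ range (s + 1), a' i := by
        have := Finset.sum_range_reflect a' (s + 1)
        simpa using this
      rw [this]
      exact (Finset.sum_le_sum_of_subset (Finset.range_subset_range.2 (by omega))).trans hS'
    set X0 := E * S' + E' * S + E * E' * nn with hX0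
    have hdm0 := Nat.div_add_mod X0 (2 ^ t)
    have hml0 := Nat.mod_lt X0 (show 0 < 2 ^ t by positivity)
    calc conv (AG G n) (AG G n') s
        ≤ ∑ i ∈ range (s + 1), ((a i + E) * 2 ^ e) * ((a' (s - i) + E') * 2 ^ e') := by
          unfold conv
          refine Finset.sum_le_sum (fun i hi => ?_)
          rw [Finset.mem_range] at hi
          exact Nat.mul_le_mul (hb i (by omega)).2 (hb' (s - i) (by omega)).2
      _ = (conv a a' s + (E' * ∑ i ∈ range (s + 1), a i) + (E * ∑ i ∈ range (s + 1), a' (s - i)) +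
            (s + 1) * (E * E')) * (2 ^ e * 2 ^ e') := by
          unfold conv
          rw [Finset.mul_sum, Finset.mul_sum]
          have : (s + 1) * (E * E') = ∑ i ∈ range (s + 1), E * E' := by
            rw [Finset.sum_const, Finset.card_range, smul_eq_mul]
          rw [this, ← Finset.sum_add_distrib, ← Finset.sum_add_distrib, ← Finset.sum_add_distrib,
            Finset.sum_mul]
          exact Finset.sum_congr rfl (fun i _ => by ring)
      _ ≤ (conv a a' s + X0) * (2 ^ e * 2 ^ e') := by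
          refine Nat.mul_le_mul_right _ ?_
          have q1 : E' * ∑ i ∈ range (s + 1), a i ≤ E' * S := Nat.mul_le_mul_left _ hS1
          have q2 : E * ∑ i ∈ range (s + 1), a' (s - i) ≤ E * S' := Nat.mul_le_mul_left _ hS2
          have q3 : (s + 1) * (E * E') ≤ E * E' * nn := by
            rw [Nat.mul_comm (E * E')]
            exact Nat.mul_le_mul_right _ (by omega)
          rw [hX0]
          omega
      _ ≤ (2 ^ t * (conv a a' s / 2 ^ t + (X0 / 2 ^ t + 2))) * (2 ^ e * 2 ^ e') := by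
          refine Nat.mul_le_mul_right _ ?_
          have : 2 ^ t * (conv a a' s / 2 ^ t + (X0 / 2 ^ t + 2)) =
            2 ^ t * (conv a a' s / 2 ^ t) + 2 ^ t * (X0 / 2 ^ t) + 2 * 2 ^ t := by ring
          rw [this]
          omega
      _ = (conv a a' s / 2 ^ t + (X0 / 2 ^ t + 2)) * 2 ^ (e + e' + t) := by
          rw [hpw]; ring

theorem invA_mul (G : ℕ → ℕ) (h nm n X S E e n' X' S' E' e' : ℕ) (hh : 0 < h) (hn : 1 ≤ n) (hn' : 1 ≤ n')
    (hnm : n + n' ≤ nm + 1) (hI : InvA G h nm n X S E e) (hI' : InvA G h nm n' X' S' E' e')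
    (hSS : S * S' < 2 ^ (2 * h)) :
    InvA G h nm (n + n') (mulA (msk h nm) X X') (S * S' / 2 ^ h)
      ((E * S' + E' * S + E * E' * nm) / 2 ^ h + 2) (e + e' + h) := by
  obtain ⟨a, hX, hS, hb⟩ := hI
  obtain ⟨a', hX', hS', hb'⟩ := hI'
  have hr1 : nm + 1 - (n + n') ≤ nm + 1 - n := by omega
  have hr2 : nm + 1 - (n + n') ≤ nm + 1 - n' := by omega
  have hS1 : ∑ i ∈ range (nm + 1 - (n + n')), a i ≤ S :=
    (Finset.sum_le_sum_of_subset (Finset.range_subset_range.2 hr1)).trans hS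
  have hS2 : ∑ i ∈ range (nm + 1 - (n + n')), a' i ≤ S' :=
    (Finset.sum_le_sum_of_subset (Finset.range_subset_range.2 hr2)).trans hS'
  refine ⟨fun k => conv a a' k / 2 ^ h, ?_, step_sum a a' _ S S' h hS1 hS2, ?_⟩
  · rw [hX, hX']
    refine mulA_eq h nm n n' hh hn hn' hnm a a' fun k hk => ?_
    exact lt_of_le_of_lt ((INVMUL_conv_le a a' _ k hk).trans (Nat.mul_le_mul hS1 hS2)) hSS
  · exact step_bd G a a' n n' _ nm S S' E E' e e' h (by omega) hS1 hS2 (fun s hs => hb s (by omega))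
      (fun s hs => hb' s (by omega))

theorem invA_one (t : BT) (h nm : ℕ) (hh : 0 < h) (hnm : t.len + 1 ≤ nm) :
    InvA t.G h nm 1 ((t.pkt (2 * h)) <<< (3 * h)) (t.sm2 t.len) 0 0 := by
  have e0 : nm + 1 - 1 = nm := by omega
  refine ⟨fun i => if i = 0 then 0 else t.val (i - 1) ^ 2, ?_, ?_, ?_⟩
  · rw [INIT_pkt REP_proof (2 * h) (by omega), Nat.shiftLeft_eq, e0]
    obtain ⟨r, rfl⟩ := Nat.exists_eq_add_of_le hnm
    have e1 : pk (2 * h) (fun i => if i = 0 then 0 else t.val (i - 1) ^ 2) (t.len + 1 + r) =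
        pk (2 * h) (fun i => if i = 0 then 0 else t.val (i - 1) ^ 2) (t.len + 1) := by
      rw [SEGh.pk_append]
      have : pk (2 * h) (fun i => if t.len + 1 + i = 0 then 0 else t.val (t.len + 1 + i - 1) ^ 2) r = 0 := by
        unfold pk
        refine Finset.sum_eq_zero fun i _ => ?_
        show (if t.len + 1 + i = 0 then 0 else t.val (t.len + 1 + i - 1) ^ 2) * _ = 0
        rw [if_neg (by omega), val_out t _ (by omega)]
        simp
      rw [this]
      ring
    rw [e1]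
    have e2 : pk (2 * h) (fun i => if i = 0 then 0 else t.val (i - 1) ^ 2) (t.len + 1) =
        pk (2 * h) (fun i => t.val i ^ 2) t.len * 2 ^ (2 * h) := by
      unfold pk
      rw [Finset.sum_range_succ', Finset.sum_mul]
      simp only [Nat.add_sub_cancel, if_true, Nat.zero_mul, Nat.add_zero,
        if_neg (Nat.succ_ne_zero _)]
      refine Finset.sum_congr rfl (fun i _ => ?_)
      rw [Nat.mul_add, pow_add, Nat.mul_one]
      ring
    rw [e2]
    have e3 : 2 ^ (3 * h) = 2 ^ (2 * h) * 2 ^ h := by rw [← pow_add]; congr 1; ring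
    rw [e3]
    simp only [Nat.sub_self, Nat.mul_zero, Nat.zero_add]
    ring
  · rw [e0]
    obtain ⟨r, rfl⟩ := Nat.exists_eq_add_of_le hnm
    rw [Finset.sum_range_add]
    have : ∑ x ∈ range r, (if t.len + 1 + x = 0 then 0 else t.val (t.len + 1 + x - 1) ^ 2) = 0 := by
      refine Finset.sum_eq_zero fun i _ => ?_
      rw [if_neg (by omega), val_out t _ (by omega)]
      simp
    rw [this, Finset.sum_range_succ', (SMV_proof t t.len).2]
    simp
  · intro s _
    have key : AG t.G 1 s = if s = 0 then 0 else t.val (s - 1) ^ 2 := by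
      rcases Nat.eq_zero_or_pos s with h0 | h0
      · subst h0; simp [AG]
      · rw [if_neg (by omega)]
        obtain ⟨k, rfl⟩ : ∃ k, s = k + 1 := ⟨s - 1, by omega⟩
        have e : AG t.G 1 (k + 1) = ∑ c ∈ range (k + 1), t.G (c + 1) ^ 2 * AG t.G 0 (k + 1 - 1 - c) :=
          rfl
        rw [e, Finset.sum_eq_single k]
        · simp [AG, BT.G]
        · intro b hb hbk
          rw [Finset.mem_range] at hb
          have : k + 1 - 1 - b ≠ 0 := by omega
          simp only [AG]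
          rw [if_neg this, Nat.mul_zero]
        · intro hk
          exact absurd (Finset.mem_range.2 (Nat.lt_succ_self k)) hk
    rw [key]
    constructor <;> simp

/-- the chain: `false`: square, `true`: multiply by `X1` -/
def goA (h nm X1 S1 : ℕ) (fin : ℕ → ℕ → ℕ → ℕ → Bool) : List Bool → ℕ → ℕ → ℕ → ℕ → Bool
  | [], n, X, S, E => fin n X S E
  | false :: L, n, X, S, E => Nat.blt (S * S) (1 <<< (2 * h)) && (Nat.ble (2 * n) nm &&
      goA h nm X1 S1 fin L (2 * n) (mulA (msk h nm) X X) (S * S / 2 ^ h) ((2 * E * S + E * E * nm) / 2 ^ h + 2))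
  | true :: L, n, X, S, E => Nat.blt (S * S1) (1 <<< (2 * h)) && (Nat.ble (n + 1) nm &&
      goA h nm X1 S1 fin L (n + 1) (mulA (msk h nm) X X1) (S * S1 / 2 ^ h) ((E * S1) / 2 ^ h + 2))

/-- the exponent after the chain -/
def exA (h : ℕ) : List Bool → ℕ → ℕ
  | [], e => e
  | false :: L, e => exA h L (e + e + h)
  | true :: L, e => exA h L (e + h)

theorem goA_sound (G : ℕ → ℕ) (h nm X1 S1 : ℕ) (f : ℕ → ℕ → ℕ → ℕ → Bool)
    (hh : 0 < h) (h0 : InvA G h nm 1 X1 S1 0 0) : ∀ (L : List Bool) (n X S E e : ℕ), 1 ≤ n →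
    InvA G h nm n X S E e → goA h nm X1 S1 f L n X S E = true →
    ∃ n' X' S' E', 1 ≤ n' ∧ f n' X' S' E' = true ∧ InvA G h nm n' X' S' E' (exA h L e) := by
  intro L
  induction L with
  | nil =>
    intro n X S E e hn hI hg
    exact ⟨n, X, S, E, hn, hg, hI⟩
  | cons b L ih =>
    intro n X S E e hn hI hg
    cases b with
    | false =>
      simp only [goA, Bool.and_eq_true] at hg
      obtain ⟨hg1, hg2, hg3⟩ := hg
      have hS : S * S < 2 ^ (2 * h) := by
        have := Nat.blt_eq.mp hg1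
        rwa [Nat.one_shiftLeft] at this
      have ht : 2 * n ≤ nm := Nat.le_of_ble_eq_true hg2
      have hI' := invA_mul G h nm n X S E e n X S E e hh hn hn (by omega) hI hI hS
      have e1 : n + n = 2 * n := by ring
      have e2 : E * S + E * S + E * E * nm = 2 * E * S + E * E * nm := by ring
      rw [e1, e2] at hI'
      exact ih _ _ _ _ _ (by omega) hI' hg3
    | true =>
      simp only [goA, Bool.and_eq_true] at hg
      obtain ⟨hg1, hg2, hg3⟩ := hg
      have hS : S * S1 < 2 ^ (2 * h) := by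
        have := Nat.blt_eq.mp hg1
        rwa [Nat.one_shiftLeft] at this
      have ht : n + 1 ≤ nm := Nat.le_of_ble_eq_true hg2
      have hI' := invA_mul G h nm n X S E e 1 X1 S1 0 0 hh hn le_rfl (by omega) hI h0 hS
      have e2 : E * S1 + 0 * S + E * 0 * nm = E * S1 := by ring
      rw [e2, add_zero] at hI'
      exact ih _ _ _ _ _ (by omega) hI' hg3

/-- a tree with zeros on both sides -/
def padZ (a : ℕ) (t : BT) (b : ℕ) : BT := .node (.node (.leaf a 0) t) (.leaf b 0)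

theorem padZ_len (a : ℕ) (t : BT) (b : ℕ) : (padZ a t b).len = a + t.len + b := rfl

theorem padZ_val (a : ℕ) (t : BT) (b : ℕ) (i : ℕ) :
    (padZ a t b).val i = if a ≤ i ∧ i < a + t.len then t.val (i - a) else 0 := by
  show (if i < a + t.len then (if i < a then (if i < a then 0 else 0) else t.val (i - a)) else
    (if i - (a + t.len) < b then 0 else 0)) = _
  split_ifs <;> first | rfl | omega

/-- the value of a packed power against a padded tree -/
theorem ev_pad (h nm n E : ℕ) (hn : 1 ≤ n) (T : BT) (hT : T.len + n ≤ nm + 1)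
    (a : ℕ → ℕ) (hS : (∑ i ∈ range (nm + 1 - n), a i) * 2 ^ h < 2 ^ (2 * h) - 1) :
    ev (2 * h) (E * 2 ^ h) (padZ (n - 1) T (nm + 1 - n - T.len)) (2 ^ (2 * h * (n - 1) + h) * pk (2 * h) a (nm + 1 - n)) =
      2 ^ h * ∑ i ∈ range T.len, (a i + E) * T.val i ^ 2 := by
  set r := nm + 1 - n - T.len with hr
  have hlen : (padZ (n - 1) T r).len = (n - 1) + (T.len + r) := by rw [padZ_len]; ring
  set b : ℕ → ℕ := fun j => if j < n - 1 then 0 else a (j - (n - 1)) * 2 ^ h with hb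
  have hX : 2 ^ (2 * h * (n - 1) + h) * pk (2 * h) a (nm + 1 - n) = pk (2 * h) b (padZ (n - 1) T r).len := by
    rw [hlen, SEGh.pk_append]
    have e1 : pk (2 * h) b (n - 1) = 0 := by
      unfold pk
      refine Finset.sum_eq_zero fun i hi => ?_
      rw [Finset.mem_range] at hi
      simp only [hb]
      rw [if_pos hi, zero_mul]
    have e2 : nm + 1 - n = T.len + r := by omega
    rw [e1, zero_add, e2, pow_add, mul_assoc]
    congr 1
    unfold pk
    rw [Finset.mul_sum]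
    refine Finset.sum_congr rfl fun i _ => ?_
    simp only [hb]
    rw [if_neg (by omega), Nat.add_sub_cancel_left]
    ring
  have hsum : ∑ i ∈ range (padZ (n - 1) T r).len, b i = (∑ i ∈ range (nm + 1 - n), a i) * 2 ^ h := by
    rw [hlen, Finset.sum_range_add]
    have e1 : ∑ i ∈ range (n - 1), b i = 0 := by
      refine Finset.sum_eq_zero fun i hi => ?_
      rw [Finset.mem_range] at hi
      simp only [hb]
      rw [if_pos hi]
    have e2 : nm + 1 - n = T.len + r := by omega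
    rw [e1, zero_add, e2, Finset.sum_mul]
    refine Finset.sum_congr rfl fun i _ => ?_
    simp only [hb]
    rw [if_neg (by omega), Nat.add_sub_cancel_left]
  rw [hX, ev_eq (2 * h) (E * 2 ^ h) (padZ (n - 1) T r) b (by rw [hsum]; exact hS), hlen, Finset.sum_range_add]
  have e1 : ∑ i ∈ range (n - 1), (b i + E * 2 ^ h) * (padZ (n - 1) T r).val i ^ 2 = 0 := by
    refine Finset.sum_eq_zero fun i hi => ?_
    rw [Finset.mem_range] at hi
    rw [padZ_val, if_neg (by omega)]
    simp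
  rw [e1, zero_add, Finset.sum_range_add]
  have e2 : ∑ x ∈ range r, (b (n - 1 + (T.len + x)) + E * 2 ^ h) * (padZ (n - 1) T r).val (n - 1 + (T.len + x)) ^ 2 = 0 := by
    refine Finset.sum_eq_zero fun i hi => ?_
    rw [padZ_val, if_neg (by omega)]
    simp
  rw [e2, add_zero, Finset.mul_sum]
  refine Finset.sum_congr rfl fun i hi => ?_
  rw [Finset.mem_range] at hi
  rw [padZ_val, if_pos (by omega), Nat.add_sub_cancel_left]
  simp only [hb]
  rw [if_neg (by omega), Nat.add_sub_cancel_left]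
  ring

/-- the final check; `cm` and `ck` are the two factors, `NB` is a lower bound for the numerator -/
def fin4 (h nm : ℕ) (t ph ht : BT) (cm ck NB K X1 S1 n X S E : ℕ) : Bool :=
  Nat.beq (n + 1) K && (Nat.beq nm (t.len + 1 + n) && (Nat.blt (S * 2 ^ h + 1) (1 <<< (2 * h)) &&
    (Nat.blt (S * S1 / 2 ^ h * 2 ^ h + 1) (1 <<< (2 * h)) && (Nat.blt (S * S1) (1 <<< (2 * h)) &&
      (Nat.blt (cm * (ev (2 * h) (((E * S1) / 2 ^ h + 2) * 2 ^ h) (padZ n (rev ph) 0) (mulA (msk h nm) X X1) * 2 ^ h))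
        (ck * ev (2 * h) 0 (padZ (n - 1) ht 1) X) && Nat.ble (NB * 2 ^ h) (ev (2 * h) 0 (padZ (n - 1) ht 1) X))))))

/-- the certificate check -/
def chk4 (h nm : ℕ) (t ph ht : BT) (L : List Bool) (cm ck NB K : ℕ) : Bool :=
  Nat.ble (t.len + 1) nm && goA h nm ((t.pkt (2 * h)) <<< (3 * h)) (t.sm2 t.len)
    (fin4 h nm t ph ht cm ck NB K ((t.pkt (2 * h)) <<< (3 * h)) (t.sm2 t.len)) L 1
    ((t.pkt (2 * h)) <<< (3 * h)) (t.sm2 t.len) 0

theorem chk4_sound (h nm w2 : ℕ) (t ph ht : BT) (L : List Bool)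
    (cm ck NB K0 : ℕ) (hh : 0 < h) (hw2 : 0 < w2) (hH : chkH w2 t ph ht = true)
    (hchk : chk4 h nm t ph ht L cm ck NB (K0 + 1) = true) :
    cm * ∑ s ∈ range (t.len + 1), AG t.G (K0 + 1) s * ph.val (t.len - s) ^ 2 <
      ck * ∑ s ∈ range (t.len + 1), AG t.G K0 s * HV t ph (t.len - s) ^ 2 ∧
    2 ^ exA h L 0 * NB ≤ ∑ s ∈ range (t.len + 1), AG t.G K0 s * HV t ph (t.len - s) ^ 2 := by
  obtain ⟨hpl, htl, hlow0⟩ := chkH_sound w2 hw2 t ph ht (fun y => (SMV_proof t y).1) hH
  unfold chk4 at hchk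
  rw [Bool.and_eq_true] at hchk
  obtain ⟨hc1, hchk⟩ := hchk
  have hnm := Nat.le_of_ble_eq_true hc1
  have hI0 := invA_one t h nm hh hnm
  obtain ⟨n', X', S', E', hn1, hf, hI⟩ := goA_sound t.G h nm _ _ _ hh hI0 L 1 _ _ 0 0 le_rfl hI0 hchk
  set e' := exA h L 0 with he'
  simp only [fin4, Bool.and_eq_true] at hf
  obtain ⟨hf1, hf2, hf3, hf4, hf5, hf7, hf8⟩ := hf
  have hn : n' = K0 := by
    have := Nat.eq_of_beq_eq_true hf1
    omega
  have hnm2 : nm = t.len + 1 + n' := Nat.eq_of_beq_eq_true hf2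
  have hS : S' * 2 ^ h + 1 < 2 ^ (2 * h) := by
    have := Nat.blt_eq.mp hf3
    rwa [Nat.one_shiftLeft] at this
  have hSK : S' * t.sm2 t.len / 2 ^ h * 2 ^ h + 1 < 2 ^ (2 * h) := by
    have := Nat.blt_eq.mp hf4
    rwa [Nat.one_shiftLeft] at this
  have hSS : S' * t.sm2 t.len < 2 ^ (2 * h) := by
    have := Nat.blt_eq.mp hf5
    rwa [Nat.one_shiftLeft] at this
  have hlt := Nat.blt_eq.mp hf7
  have hNB := Nat.le_of_ble_eq_true hf8
  subst hn
  -- one more multiplication
  have hIK := invA_mul t.G h nm n' X' S' E' e' 1 _ _ 0 0 hh hn1 le_rfl (by omega) hI hI0 hSS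
  have e2 : E' * t.sm2 t.len + 0 * S' + E' * 0 * nm = E' * t.sm2 t.len := by ring
  rw [e2, add_zero] at hIK
  obtain ⟨a, hX, haS, hab⟩ := hI
  obtain ⟨b, hXK, hbS, hbb⟩ := hIK
  set XK := mulA (msk h nm) X' ((t.pkt (2 * h)) <<< (3 * h)) with hXKd
  set EK := E' * t.sm2 t.len / 2 ^ h + 2 with hEKd
  have hnum : ev (2 * h) 0 (padZ (n' - 1) ht 1) X' ≤ 2 ^ h * ∑ s ∈ range (t.len + 1), a s * HV t ph (t.len - s) ^ 2 := by
    have h1 := ev_pad h nm n' 0 hn1 ht (by omega) a (by
      have := Nat.mul_le_mul_right (2 ^ h) haS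
      omega)
    rw [show nm + 1 - n' - ht.len = 1 by omega, zero_mul, ← hX] at h1
    rw [h1, htl]
    refine Nat.mul_le_mul_left _ (Finset.sum_le_sum fun s hs => ?_)
    rw [Finset.mem_range] at hs
    rw [add_zero]
    exact Nat.mul_le_mul_left _ (Nat.pow_le_pow_left (hlow0 s (by omega)) 2)
  have hden : 2 ^ h * ∑ s ∈ range (t.len + 1), (b s + EK) * ph.val (t.len - s) ^ 2 ≤
      ev (2 * h) (EK * 2 ^ h) (padZ n' (rev ph) 0) XK := by
    have h1 := ev_pad h nm (n' + 1) EK (by omega) (rev ph) (by rw [rev_len]; omega) b (by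
      have := Nat.mul_le_mul_right (2 ^ h) hbS
      omega)
    rw [show nm + 1 - (n' + 1) - (rev ph).len = 0 by rw [rev_len]; omega, ← hXK, Nat.add_sub_cancel] at h1
    rw [h1, rev_len, hpl]
    refine Nat.mul_le_mul_left _ (Finset.sum_le_sum fun s hs => ?_)
    rw [Finset.mem_range] at hs
    rw [rev_val ph s (by omega), show ph.len - 1 - s = t.len - s by omega]
  have hup : ∑ s ∈ range (t.len + 1), AG t.G (n' + 1) s * ph.val (t.len - s) ^ 2 ≤
      2 ^ (e' + h) * ∑ s ∈ range (t.len + 1), (b s + EK) * ph.val (t.len - s) ^ 2 := by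
    rw [Finset.mul_sum]
    apply Finset.sum_le_sum
    intro s hs
    rw [Finset.mem_range] at hs
    have h5 := (hbb s (by omega)).2
    calc AG t.G (n' + 1) s * ph.val (t.len - s) ^ 2
        ≤ ((b s + EK) * 2 ^ (e' + h)) * ph.val (t.len - s) ^ 2 :=
          Nat.mul_le_mul_right _ h5
      _ = 2 ^ (e' + h) * ((b s + EK) * ph.val (t.len - s) ^ 2) := by ring
  have hlow : 2 ^ e' * ∑ s ∈ range (t.len + 1), a s * HV t ph (t.len - s) ^ 2 ≤
      ∑ s ∈ range (t.len + 1), AG t.G n' s * HV t ph (t.len - s) ^ 2 := by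
    rw [Finset.mul_sum]
    apply Finset.sum_le_sum
    intro s hs
    rw [Finset.mem_range] at hs
    have h5 := (hab s (by omega)).1
    calc 2 ^ e' * (a s * HV t ph (t.len - s) ^ 2)
        = (a s * 2 ^ e') * HV t ph (t.len - s) ^ 2 := by ring
      _ ≤ AG t.G n' s * HV t ph (t.len - s) ^ 2 := Nat.mul_le_mul_right _ h5
  have hpos : 0 < 2 ^ e' := by positivity
  have hpos2 : 0 < 2 ^ h := by positivity
  set U := ∑ s ∈ range (t.len + 1), (b s + EK) * ph.val (t.len - s) ^ 2 with hU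
  set V := ∑ s ∈ range (t.len + 1), a s * HV t ph (t.len - s) ^ 2 with hV
  have hUV : cm * (2 ^ h * U) < ck * V := by
    have h1 : 2 ^ h * (cm * (2 ^ h * U)) < 2 ^ h * (ck * V) := by
      calc 2 ^ h * (cm * (2 ^ h * U)) = cm * ((2 ^ h * U) * 2 ^ h) := by ring
        _ ≤ cm * (ev (2 * h) (EK * 2 ^ h) (padZ n' (rev ph) 0) XK * 2 ^ h) :=
          Nat.mul_le_mul_left _ (Nat.mul_le_mul_right _ hden)
        _ < ck * ev (2 * h) 0 (padZ (n' - 1) ht 1) X' := hlt
        _ ≤ ck * (2 ^ h * V) := Nat.mul_le_mul_left _ hnum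
        _ = _ := by ring
    exact Nat.lt_of_mul_lt_mul_left h1
  refine ⟨?_, ?_⟩
  · calc cm * ∑ s ∈ range (t.len + 1), AG t.G (n' + 1) s * ph.val (t.len - s) ^ 2
        ≤ cm * (2 ^ (e' + h) * U) := Nat.mul_le_mul_left _ hup
      _ = 2 ^ e' * (cm * (2 ^ h * U)) := by rw [pow_add]; ring
      _ < 2 ^ e' * (ck * V) := Nat.mul_lt_mul_of_pos_left hUV hpos
      _ = ck * (2 ^ e' * V) := by ring
      _ ≤ ck * ∑ s ∈ range (t.len + 1), AG t.G n' s * HV t ph (t.len - s) ^ 2 :=
          Nat.mul_le_mul_left _ hlow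
  · have h1 : NB ≤ V := by
      have h2 : NB * 2 ^ h ≤ V * 2 ^ h := hNB.trans (hnum.trans (le_of_eq (mul_comm _ _)))
      exact Nat.le_of_mul_le_mul_right h2 hpos2
    exact (Nat.mul_le_mul_left _ h1).trans hlow

end Pool.Agent.J6H58.D4
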