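import Pool.Agent.J6H58.D4.DatF
import Pool.Agent.J6H58.D4.Snd4

/-! The kernel check of the certificate for four primes, `K = 196609`. -/

set_option autoImplicit false

namespace Pool.Agent.J6H58.D4

open Pool.Agent.H358R5
open Pool.Agent.J6H58.D3

set_option maxRecDepth 100000 in
theorem cert_check : chk4 54 4956815 DatF.bt DatF.ph DatF.ht DatF.ops (4 * 3 * 4650000 * 2 ^ 16)
    ((196608 + 1) * (2 ^ 16 - 1)) DatF.NB (196608 + 1) = true := by
  decide +kernel

end Pool.Agent.J6H58.D4
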