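import Pool.Agent.J6H58.D4.DatF
import Pool.Agent.J6H58.D4.Snd4

/-! The other kernel checks for four primes, `K = 196609`: the marginal profile and the exceptional cells. -/

set_option autoImplicit false

namespace Pool.Agent.J6H58.D4

open Pool.Agent.H358R5
open Pool.Agent.J6H58.D3

theorem len_eq : DatF.bt.len = 4760206 := by decide +kernel

theorem cap_check : zf DatF.bt 1395000 = true := by decide +kernel

set_option maxRecDepth 100000 in
theorem prof_check : chkH 56 DatF.bt DatF.ph DatF.ht = true := by decide +kernel

set_option maxRecDepth 100000 in
theorem bad1_check : chkW DatF.bt DatF.ph 930 (279000 + 930) 512 30 196608 DatF.NB (exA 54 DatF.ops 0) 17 = true := by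
  decide +kernel

set_option maxRecDepth 100000 in
theorem bad2_check : chkW DatF.bt DatF.ph 23250 (1887900 + 23250) 1024 30 196608 DatF.NB (exA 54 DatF.ops 0) 17 = true := by
  decide +kernel

end Pool.Agent.J6H58.D4
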