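import Pool.Agent.H358R5.Stubs4

/-! Certificate data: the weights `bt`, the outer profile `ph` and the lower bounds `ht` of the marginal profile. -/

set_option autoImplicit false

namespace Pool.Agent.J6H58.D4.DatF

open Pool.Agent.H358R5

def bt0 : BT := (.node (.node (.node (.node (.node (.leaf 1 77418022) (.leaf 1 54908725)) (.node (.leaf 1 42540173) (.leaf 1 34719400))) (.node (.node (.leaf 1 29327672) (.leaf 1 25385453)) (.node (.leaf 1 22377478) (.leaf 1 20006827)))) (.node (.node (.node (.leaf 1 18090351) (.leaf 1 16508942)) (.node (.leaf 1 15181790) (.leaf 1 14052141))) (.node (.node (.leaf 1 13078959) (.leaf 1 12231842)) (.node (.leaf 1 11487785) (.leaf 1 10829058))))) (.node (.node (.node (.node (.leaf 1 10241780) (.leaf 1 9714922)) (.node (.leaf 1 9239618) (.leaf 1 8808654))) (.node (.node (.leaf 1 8416100) (.leaf 1 8057042)) (.node (.leaf 1 7727368) (.leaf 1 7423611)))) (.node (.node (.node (.leaf 1 7142833) (.leaf 1 6882520)) (.node (.leaf 1 6640513) (.leaf 1 6414947))) (.node (.node (.leaf 1 6204202) (.leaf 1 6006864)) (.node (.leaf 1 5821692) (.leaf 1 5647595))))))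
def bt1 : BT := (.node (.node (.node (.node (.node (.leaf 1 5483609) (.leaf 1 5328876)) (.node (.leaf 1 5182637) (.leaf 1 5044210))) (.node (.node (.leaf 1 4912985) (.leaf 1 4788414)) (.node (.leaf 1 4670004) (.leaf 1 4557309)))) (.node (.node (.node (.leaf 1 4449926) (.leaf 1 4347486)) (.node (.leaf 1 4249656) (.leaf 1 4156132))) (.node (.node (.leaf 1 4066637) (.leaf 1 3980914)) (.node (.leaf 1 3898730) (.leaf 1 3819872))))) (.node (.node (.node (.node (.leaf 1 3744140) (.leaf 1 3671352)) (.node (.leaf 1 3601341) (.leaf 1 3533950))) (.node (.node (.leaf 1 3469034) (.leaf 1 3406461)) (.node (.leaf 1 3346105) (.leaf 1 3287850)))) (.node (.node (.node (.leaf 1 3231589) (.leaf 1 3177222)) (.node (.leaf 1 3124653) (.leaf 1 3073795))) (.node (.node (.leaf 1 3024567) (.leaf 1 2976890)) (.node (.leaf 1 2930694) (.leaf 1 2885909))))))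
def bt2 : BT := (.node (.node (.node (.node (.node (.leaf 1 2842472) (.leaf 1 2800324)) (.node (.leaf 1 2759407) (.leaf 1 2719668))) (.node (.node (.leaf 1 2681058) (.leaf 1 2643529)) (.node (.leaf 1 2607036) (.leaf 1 2571537)))) (.node (.node (.node (.leaf 1 2536992) (.leaf 1 2503362)) (.node (.leaf 1 2470612) (.leaf 1 2438709))) (.node (.node (.leaf 1 2407618) (.leaf 1 2377311)) (.node (.leaf 1 2347757) (.leaf 1 2318928))))) (.node (.node (.node (.node (.leaf 1 2290799) (.leaf 1 2263345)) (.node (.leaf 1 2236540) (.leaf 1 2210363))) (.node (.node (.leaf 1 2184792) (.leaf 1 2159806)) (.node (.leaf 1 2135385) (.leaf 1 2111509)))) (.node (.node (.node (.leaf 1 2088162) (.leaf 1 2065326)) (.node (.leaf 1 2042983) (.leaf 1 2021119))) (.node (.node (.leaf 1 1999718) (.leaf 1 1978765)) (.node (.leaf 1 1958247) (.leaf 1 1938149))))))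
def bt3 : BT := (.node (.node (.node (.node (.node (.leaf 1 1918461) (.leaf 1 1899168)) (.node (.leaf 1 1880259) (.leaf 1 1861724))) (.node (.node (.leaf 1 1843550) (.leaf 1 1825727)) (.node (.leaf 1 1808246) (.leaf 1 1791096)))) (.node (.node (.node (.leaf 1 1774269) (.leaf 1 1757755)) (.node (.leaf 1 1741545) (.leaf 1 1725632))) (.node (.node (.leaf 1 1710007) (.leaf 1 1694662)) (.node (.leaf 1 1679590) (.leaf 1 1664784))))) (.node (.node (.node (.node (.leaf 1 1650237) (.leaf 1 1635942)) (.node (.leaf 1 1621892) (.leaf 1 1608081))) (.node (.node (.leaf 1 1594504) (.leaf 1 1581154)) (.node (.leaf 1 1568026) (.leaf 1 1555114)))) (.node (.node (.node (.leaf 1 1542413) (.leaf 1 1529918)) (.node (.leaf 1 1517623) (.leaf 1 1505525))) (.node (.node (.leaf 1 1493618) (.leaf 1 1481897)) (.node (.leaf 1 1470360) (.leaf 1 1459000))))))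
def bt4 : BT := (.node (.node (.node (.node (.node (.leaf 1 1447815) (.leaf 1 1436800)) (.node (.leaf 1 1425951) (.leaf 1 1415265))) (.node (.node (.leaf 1 1404738) (.leaf 1 1394366)) (.node (.leaf 1 1384146) (.leaf 1 1374076)))) (.node (.node (.node (.leaf 1 1364150) (.leaf 1 1354367)) (.node (.leaf 1 1344723) (.leaf 1 1335216))) (.node (.node (.leaf 1 1325842) (.leaf 1 1316599)) (.node (.leaf 1 1307483) (.leaf 1 1298493))))) (.node (.node (.node (.node (.leaf 1 1289626) (.leaf 1 1280880)) (.node (.leaf 1 1272251) (.leaf 1 1263737))) (.node (.node (.leaf 1 1255337) (.leaf 1 1247047)) (.node (.leaf 1 1238867) (.leaf 1 1230793)))) (.node (.node (.node (.leaf 1 1222823) (.leaf 1 1214957)) (.node (.leaf 1 1207190) (.leaf 1 1199523))) (.node (.node (.leaf 1 1191952) (.leaf 1 1184476)) (.node (.leaf 1 1177093) (.leaf 1 1169802))))))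
def bt5 : BT := (.node (.node (.node (.node (.node (.leaf 1 1162600) (.leaf 1 1155487)) (.node (.leaf 1 1148460) (.leaf 1 1141518))) (.node (.node (.leaf 1 1134660) (.leaf 1 1127883)) (.node (.leaf 1 1121187) (.leaf 1 1114570)))) (.node (.node (.node (.leaf 1 1108031) (.leaf 1 1101568)) (.node (.leaf 1 1095180) (.leaf 1 1088865))) (.node (.node (.leaf 1 1082623) (.leaf 1 1076452)) (.node (.leaf 1 1070351) (.leaf 1 1064319))))) (.node (.node (.node (.node (.leaf 1 1058354) (.leaf 1 1052456)) (.node (.leaf 1 1046623) (.leaf 1 1040855))) (.node (.node (.leaf 1 1035150) (.leaf 1 1029507)) (.node (.leaf 1 1023925) (.leaf 1 1018403)))) (.node (.node (.node (.leaf 1 1012941) (.leaf 1 1007537)) (.node (.leaf 1 1002190) (.leaf 1 996900))) (.node (.node (.leaf 1 991665) (.leaf 1 986485)) (.node (.leaf 1 981359) (.leaf 1 976286))))))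
def bt6 : BT := (.node (.node (.node (.node (.node (.leaf 1 971265) (.leaf 1 966295)) (.node (.leaf 1 961376) (.leaf 1 956507))) (.node (.node (.leaf 1 951687) (.leaf 1 946915)) (.node (.leaf 1 942191) (.leaf 1 937513)))) (.node (.node (.node (.leaf 1 932882) (.leaf 1 928297)) (.node (.leaf 1 923756) (.leaf 1 919259))) (.node (.node (.leaf 1 914807) (.leaf 1 910397)) (.node (.leaf 1 906029) (.leaf 1 901703))))) (.node (.node (.node (.node (.leaf 1 897418) (.leaf 1 893174)) (.node (.leaf 1 888969) (.leaf 1 884804))) (.node (.node (.leaf 1 880678) (.leaf 1 876590)) (.node (.leaf 1 872540) (.leaf 1 868528)))) (.node (.node (.node (.leaf 1 864551) (.leaf 1 860612)) (.node (.leaf 1 856708) (.leaf 1 852839))) (.node (.node (.leaf 1 849005) (.leaf 1 845205)) (.node (.leaf 1 841439) (.leaf 1 837707))))))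
def bt7 : BT := (.node (.node (.node (.node (.node (.leaf 1 834007) (.leaf 1 830340)) (.node (.leaf 1 826705) (.leaf 1 823102))) (.node (.node (.leaf 1 819530) (.leaf 1 815989)) (.node (.leaf 1 812479) (.leaf 1 808998)))) (.node (.node (.node (.leaf 1 805548) (.leaf 1 802126)) (.node (.leaf 1 798734) (.leaf 1 795370))) (.node (.node (.leaf 1 792034) (.leaf 1 788726)) (.node (.leaf 1 785446) (.leaf 1 782193))))) (.node (.node (.node (.node (.leaf 1 778966) (.leaf 1 775766)) (.node (.leaf 1 772593) (.leaf 1 769445))) (.node (.node (.leaf 1 766323) (.leaf 1 763226)) (.node (.leaf 1 760154) (.leaf 1 757106)))) (.node (.node (.node (.leaf 2 752581) (.leaf 2 746630)) (.node (.leaf 2 740773) (.leaf 2 735006))) (.node (.node (.leaf 2 729329) (.leaf 2 723739)) (.node (.leaf 2 718234) (.leaf 2 712812))))))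
def bt8 : BT := (.node (.node (.node (.node (.node (.leaf 2 707472) (.leaf 2 702211)) (.node (.leaf 2 697027) (.leaf 2 691920))) (.node (.node (.leaf 2 686886) (.leaf 2 681926)) (.node (.leaf 2 677036) (.leaf 2 672217)))) (.node (.node (.node (.leaf 2 667465) (.leaf 2 662780)) (.node (.leaf 2 658160) (.leaf 2 653605))) (.node (.node (.leaf 2 649111) (.leaf 2 644680)) (.node (.leaf 2 640308) (.leaf 2 635995))))) (.node (.node (.node (.node (.leaf 2 631740) (.leaf 2 627542)) (.node (.leaf 2 623399) (.leaf 2 619310))) (.node (.node (.leaf 2 615275) (.leaf 2 611292)) (.node (.leaf 2 607360) (.leaf 2 603478)))) (.node (.node (.node (.leaf 2 599646) (.leaf 2 595862)) (.node (.leaf 2 592125) (.leaf 2 588435))) (.node (.node (.leaf 2 584791) (.leaf 2 581192)) (.node (.leaf 2 577636) (.leaf 2 574124))))))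
def bt9 : BT := (.node (.node (.node (.node (.node (.leaf 2 570655) (.leaf 2 567227)) (.node (.leaf 2 563840) (.leaf 2 560493))) (.node (.node (.leaf 2 557185) (.leaf 2 553917)) (.node (.leaf 2 550687) (.leaf 2 547494)))) (.node (.node (.node (.leaf 2 544337) (.leaf 2 541217)) (.node (.leaf 2 538133) (.leaf 2 535084))) (.node (.node (.leaf 2 532069) (.leaf 2 529087)) (.node (.leaf 2 526139) (.leaf 2 523224))))) (.node (.node (.node (.node (.leaf 2 520341) (.leaf 2 517489)) (.node (.leaf 2 514668) (.leaf 2 511878))) (.node (.node (.leaf 2 509118) (.leaf 2 506388)) (.node (.leaf 2 503687) (.leaf 3 500351)))) (.node (.node (.node (.leaf 3 496405) (.leaf 3 492521)) (.node (.leaf 3 488698) (.leaf 3 484933))) (.node (.node (.leaf 3 481226) (.leaf 3 477575)) (.node (.leaf 3 473979) (.leaf 3 470437))))))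
def bt10 : BT := (.node (.node (.node (.node (.node (.leaf 3 466948) (.leaf 3 463510)) (.node (.leaf 3 460122) (.leaf 3 456783))) (.node (.node (.leaf 3 453492) (.leaf 3 450249)) (.node (.leaf 3 447051) (.leaf 3 443899)))) (.node (.node (.node (.leaf 3 440791) (.leaf 3 437726)) (.node (.leaf 3 434703) (.leaf 3 431722))) (.node (.node (.leaf 3 428781) (.leaf 3 425880)) (.node (.leaf 3 423018) (.leaf 3 420195))))) (.node (.node (.node (.node (.leaf 3 417409) (.leaf 3 414659)) (.node (.leaf 3 411946) (.leaf 3 409267))) (.node (.node (.leaf 3 406624) (.leaf 3 404014)) (.node (.leaf 3 401438) (.leaf 3 398894)))) (.node (.node (.node (.leaf 3 396382) (.leaf 3 393902)) (.node (.leaf 3 391452) (.leaf 3 389033))) (.node (.node (.leaf 3 386644) (.leaf 3 384284)) (.node (.leaf 3 381952) (.leaf 3 379648))))))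
def bt11 : BT := (.node (.node (.node (.node (.node (.leaf 3 377373) (.leaf 4 374752)) (.node (.leaf 4 371800) (.leaf 4 368895))) (.node (.node (.leaf 4 366035) (.leaf 4 363219)) (.node (.leaf 4 360446) (.leaf 4 357715)))) (.node (.node (.node (.leaf 4 355026) (.leaf 4 352376)) (.node (.leaf 4 349765) (.leaf 4 347193))) (.node (.node (.leaf 4 344659) (.leaf 4 342161)) (.node (.leaf 4 339699) (.leaf 4 337272))))) (.node (.node (.node (.node (.leaf 4 334880) (.leaf 4 332522)) (.node (.leaf 4 330196) (.leaf 4 327903))) (.node (.node (.leaf 4 325641) (.leaf 4 323410)) (.node (.leaf 4 321210) (.leaf 4 319040)))) (.node (.node (.node (.leaf 4 316898) (.leaf 4 314785)) (.node (.leaf 4 312700) (.leaf 4 310643))) (.node (.node (.leaf 4 308612) (.leaf 4 306608)) (.node (.leaf 4 304630) (.leaf 4 302677))))))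
def bt12 : BT := (.node (.node (.node (.node (.node (.leaf 5 300510) (.leaf 5 298138)) (.node (.leaf 5 295803) (.leaf 5 293504))) (.node (.node (.leaf 5 291241) (.leaf 5 289012)) (.node (.leaf 5 286818) (.leaf 5 284656)))) (.node (.node (.node (.leaf 5 282527) (.leaf 5 280429)) (.node (.leaf 5 278363) (.leaf 5 276326))) (.node (.node (.leaf 5 274319) (.leaf 5 272341)) (.node (.leaf 5 270392) (.leaf 5 268470))))) (.node (.node (.node (.node (.leaf 5 266575) (.leaf 5 264707)) (.node (.leaf 5 262864) (.leaf 5 261048))) (.node (.node (.leaf 5 259256) (.leaf 5 257488)) (.node (.leaf 5 255745) (.leaf 5 254025)))) (.node (.node (.node (.leaf 5 252328) (.leaf 6 250487)) (.node (.leaf 6 248509) (.leaf 6 246563))) (.node (.node (.leaf 6 244646) (.leaf 6 242759)) (.node (.leaf 6 240901) (.leaf 6 239072))))))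
def bt13 : BT := (.node (.node (.node (.node (.node (.leaf 6 237269) (.leaf 6 235494)) (.node (.leaf 6 233745) (.leaf 6 232022))) (.node (.node (.leaf 6 230324) (.leaf 6 228651)) (.node (.leaf 6 227002) (.leaf 6 225377)))) (.node (.node (.node (.leaf 6 223774) (.leaf 6 222195)) (.node (.leaf 6 220637) (.leaf 6 219101))) (.node (.node (.leaf 6 217587) (.leaf 6 216093)) (.node (.leaf 7 214498) (.leaf 7 212806))))) (.node (.node (.node (.node (.leaf 7 211140) (.leaf 7 209501)) (.node (.leaf 7 207886) (.leaf 7 206297))) (.node (.node (.leaf 7 204731) (.leaf 7 203189)) (.node (.leaf 7 201670) (.leaf 7 200174)))) (.node (.node (.node (.leaf 7 198700) (.leaf 7 197247)) (.node (.leaf 7 195815) (.leaf 7 194404))) (.node (.node (.leaf 7 193014) (.leaf 7 191643)) (.node (.leaf 7 190291) (.leaf 7 188958))))))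
def bt14 : BT := (.node (.node (.node (.node (.node (.leaf 8 187551) (.leaf 8 186072)) (.node (.leaf 8 184617) (.leaf 8 183184))) (.node (.node (.leaf 8 181774) (.leaf 8 180385)) (.node (.leaf 8 179017) (.leaf 8 177670)))) (.node (.node (.node (.leaf 8 176342) (.leaf 8 175035)) (.node (.leaf 8 173747) (.leaf 8 172477))) (.node (.node (.leaf 8 171226) (.leaf 8 169993)) (.node (.leaf 8 168778) (.leaf 8 167580))))) (.node (.node (.node (.node (.leaf 9 166325) (.leaf 9 165017)) (.node (.leaf 9 163730) (.leaf 9 162462))) (.node (.node (.leaf 9 161214) (.leaf 9 159985)) (.node (.leaf 9 158774) (.leaf 9 157582)))) (.node (.node (.node (.leaf 9 156407) (.leaf 9 155250)) (.node (.leaf 9 154110) (.leaf 9 152986))) (.node (.node (.leaf 9 151879) (.leaf 9 150787)) (.node (.leaf 10 149652) (.leaf 10 148476))))))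
def bt15 : BT := (.node (.node (.node (.node (.node (.leaf 10 147317) (.leaf 10 146177)) (.node (.leaf 10 145054) (.leaf 10 143949))) (.node (.node (.leaf 10 142860) (.leaf 10 141787)) (.node (.leaf 10 140731) (.leaf 10 139690)))) (.node (.node (.node (.leaf 10 138664) (.leaf 10 137653)) (.node (.leaf 11 136608) (.leaf 11 135529))) (.node (.node (.leaf 11 134468) (.leaf 11 133423)) (.node (.leaf 11 132394) (.leaf 11 131381))))) (.node (.node (.node (.node (.leaf 11 130383) (.leaf 11 129400)) (.node (.leaf 11 128432) (.leaf 11 127479))) (.node (.node (.leaf 11 126539) (.leaf 11 125613)) (.node (.leaf 12 124660) (.leaf 12 123680)))) (.node (.node (.node (.leaf 12 122716) (.leaf 12 121766)) (.node (.leaf 12 120831) (.leaf 12 119911))) (.node (.node (.leaf 12 119004) (.leaf 12 118111)) (.node (.leaf 12 117231) (.leaf 12 116364))))))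
def bt16 : BT := (.node (.node (.node (.node (.node (.leaf 13 115475) (.leaf 13 114564)) (.node (.leaf 13 113668) (.leaf 13 112785))) (.node (.node (.leaf 13 111916) (.leaf 13 111061)) (.node (.leaf 13 110218) (.leaf 13 109388)))) (.node (.node (.node (.leaf 13 108571) (.leaf 13 107765)) (.node (.leaf 14 106941) (.leaf 14 106100))) (.node (.node (.leaf 14 105272) (.leaf 14 104457)) (.node (.leaf 14 103654) (.leaf 14 102864))))) (.node (.node (.node (.node (.leaf 14 102086) (.leaf 14 101319)) (.node (.leaf 14 100563) (.leaf 15 99793))) (.node (.node (.leaf 15 99008) (.leaf 15 98236)) (.node (.leaf 15 97475) (.leaf 15 96726)))) (.node (.node (.node (.leaf 15 95989) (.leaf 15 95262)) (.node (.leaf 15 94547) (.leaf 16 93819))) (.node (.node (.leaf 16 93079) (.leaf 16 92351)) (.node (.leaf 16 91634) (.leaf 16 90928))))))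
def bt17 : BT := (.node (.node (.node (.node (.node (.leaf 16 90233) (.leaf 16 89548)) (.node (.leaf 16 88874) (.leaf 17 88189))) (.node (.node (.leaf 17 87495) (.leaf 17 86811)) (.node (.leaf 17 86138) (.leaf 17 85475)))) (.node (.node (.node (.leaf 17 84822) (.leaf 17 84180)) (.node (.leaf 18 83528) (.leaf 18 82868))) (.node (.node (.leaf 18 82219) (.leaf 18 81580)) (.node (.leaf 18 80950) (.leaf 18 80330))))) (.node (.node (.node (.node (.leaf 18 79720) (.leaf 19 79102)) (.node (.leaf 19 78478) (.leaf 19 77863))) (.node (.node (.leaf 19 77258) (.leaf 19 76662)) (.node (.leaf 19 76075) (.leaf 19 75497)))) (.node (.node (.node (.leaf 20 74913) (.leaf 20 74324)) (.node (.leaf 20 73743) (.leaf 20 73172))) (.node (.node (.leaf 20 72609) (.leaf 20 72055)) (.node (.leaf 21 71496) (.leaf 21 70932))))))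
def bt18 : BT := (.node (.node (.node (.node (.node (.leaf 21 70377) (.leaf 21 69830)) (.node (.leaf 21 69292) (.leaf 21 68763))) (.node (.node (.leaf 22 68228) (.leaf 22 67690)) (.node (.leaf 22 67161) (.leaf 22 66639)))) (.node (.node (.node (.leaf 22 66126) (.leaf 22 65621)) (.node (.leaf 23 65112) (.leaf 23 64599))) (.node (.node (.leaf 23 64095) (.leaf 23 63599)) (.node (.leaf 23 63110) (.leaf 24 62618))))) (.node (.node (.node (.node (.leaf 24 62124) (.leaf 24 61637)) (.node (.leaf 24 61158) (.leaf 24 60686))) (.node (.node (.leaf 24 60222) (.leaf 25 59755)) (.node (.leaf 25 59286) (.leaf 25 58824)))) (.node (.node (.node (.leaf 25 58370) (.leaf 25 57922)) (.node (.leaf 26 57473) (.leaf 26 57022))) (.node (.node (.leaf 26 56577) (.leaf 26 56140)) (.node (.leaf 27 55701) (.leaf 27 55261))))))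
def bt19 : BT := (.node (.node (.node (.node (.node (.leaf 27 54828) (.leaf 27 54402)) (.node (.leaf 27 53982) (.leaf 28 53561))) (.node (.node (.leaf 28 53139) (.leaf 28 52723)) (.node (.leaf 28 52314) (.leaf 28 51912)))) (.node (.node (.node (.leaf 29 51508) (.leaf 29 51104)) (.node (.leaf 29 50706) (.leaf 29 50314))) (.node (.node (.leaf 30 49922) (.leaf 30 49529)) (.node (.leaf 30 49143) (.leaf 30 48762))))) (.node (.node (.node (.node (.leaf 31 48381) (.leaf 31 48000)) (.node (.leaf 31 47625) (.leaf 31 47255))) (.node (.node (.leaf 32 46886) (.leaf 32 46516)) (.node (.leaf 32 46152) (.leaf 32 45794)))) (.node (.node (.node (.leaf 33 45436) (.leaf 33 45078)) (.node (.leaf 33 44726) (.leaf 33 44379))) (.node (.node (.leaf 34 44032) (.leaf 34 43686)) (.node (.leaf 34 43345) (.leaf 34 43009))))))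
def bt20 : BT := (.node (.node (.node (.node (.node (.leaf 35 42674) (.leaf 35 42339)) (.node (.leaf 35 42010) (.leaf 36 41681))) (.node (.node (.leaf 36 41352) (.leaf 36 41029)) (.node (.leaf 36 40710) (.leaf 37 40392)))) (.node (.node (.node (.leaf 37 40075) (.leaf 37 39763)) (.node (.leaf 38 39452) (.leaf 38 39141))) (.node (.node (.leaf 38 38835) (.leaf 39 38530)) (.node (.leaf 39 38226) (.leaf 39 37926))))) (.node (.node (.node (.node (.leaf 39 37632) (.leaf 40 37338)) (.node (.leaf 40 37045) (.leaf 40 36756))) (.node (.node (.leaf 41 36469) (.leaf 41 36182)) (.node (.leaf 41 35900) (.leaf 42 35619)))) (.node (.node (.node (.leaf 42 35339) (.leaf 42 35064)) (.node (.leaf 43 34789) (.leaf 43 34516))) (.node (.node (.leaf 43 34247) (.leaf 44 33979)) (.node (.leaf 44 33712) (.leaf 44 33449))))))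
def bt21 : BT := (.node (.node (.node (.node (.node (.leaf 45 33188) (.leaf 45 32927)) (.node (.leaf 46 32668) (.leaf 46 32410))) (.node (.node (.leaf 46 32156) (.leaf 47 31904)) (.node (.leaf 47 31652) (.leaf 47 31405)))) (.node (.node (.node (.leaf 48 31159) (.leaf 48 30914)) (.node (.leaf 49 30671) (.leaf 49 30428))) (.node (.node (.leaf 49 30190) (.leaf 50 29953)) (.node (.leaf 50 29717) (.leaf 51 29483))))) (.node (.node (.node (.node (.leaf 51 29250) (.leaf 51 29021)) (.node (.leaf 52 28793) (.leaf 52 28567))) (.node (.node (.leaf 53 28342) (.leaf 53 28118)) (.node (.leaf 53 27898) (.leaf 54 27679)))) (.node (.node (.node (.leaf 54 27462) (.leaf 55 27246)) (.node (.leaf 55 27031) (.leaf 56 26818))) (.node (.node (.leaf 56 26607) (.leaf 57 26396)) (.node (.leaf 57 26188) (.leaf 57 25982))))))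
def bt22 : BT := (.node (.node (.node (.node (.node (.leaf 58 25779) (.leaf 58 25576)) (.node (.leaf 59 25375) (.leaf 59 25175))) (.node (.node (.leaf 60 24977) (.leaf 60 24781)) (.node (.leaf 61 24586) (.leaf 61 24392)))) (.node (.node (.node (.leaf 62 24200) (.leaf 62 24009)) (.node (.leaf 63 23820) (.leaf 63 23632))) (.node (.node (.leaf 64 23446) (.leaf 64 23261)) (.node (.leaf 65 23077) (.leaf 65 22895))))) (.node (.node (.node (.node (.leaf 66 22715) (.leaf 66 22536)) (.node (.leaf 67 22359) (.leaf 67 22183))) (.node (.node (.leaf 68 22008) (.leaf 68 21835)) (.node (.leaf 69 21664) (.leaf 70 21492)))) (.node (.node (.node (.leaf 70 21322) (.leaf 71 21154)) (.node (.leaf 71 20987) (.leaf 72 20822))) (.node (.node (.leaf 72 20658) (.leaf 73 20495)) (.node (.leaf 74 20333) (.leaf 74 20172))))))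
def bt23 : BT := (.node (.node (.node (.node (.node (.leaf 75 20013) (.leaf 75 19855)) (.node (.leaf 76 19699) (.leaf 77 19543))) (.node (.node (.leaf 77 19388) (.leaf 78 19235)) (.node (.leaf 78 19084) (.leaf 79 18934)))) (.node (.node (.node (.leaf 80 18784) (.leaf 80 18636)) (.node (.leaf 81 18489) (.leaf 82 18342))) (.node (.node (.leaf 82 18197) (.leaf 83 18054)) (.node (.leaf 84 17911) (.leaf 84 17769))))) (.node (.node (.node (.node (.leaf 85 17629) (.leaf 86 17490)) (.node (.leaf 86 17351) (.leaf 87 17215))) (.node (.node (.leaf 88 17078) (.leaf 88 16944)) (.node (.leaf 89 16810) (.leaf 90 16677)))) (.node (.node (.node (.leaf 90 16546) (.leaf 91 16416)) (.node (.leaf 92 16286) (.leaf 93 16157))) (.node (.node (.leaf 93 16030) (.leaf 94 15903)) (.node (.leaf 95 15778) (.leaf 96 15653))))))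
def bt24 : BT := (.node (.node (.node (.node (.node (.leaf 96 15529) (.leaf 97 15407)) (.node (.leaf 98 15286) (.leaf 99 15165))) (.node (.node (.leaf 100 15044) (.leaf 100 14926)) (.node (.leaf 101 14808) (.leaf 102 14691)))) (.node (.node (.node (.leaf 103 14575) (.leaf 104 14459)) (.node (.leaf 104 14345) (.leaf 105 14232))) (.node (.node (.leaf 106 14120) (.leaf 107 14008)) (.node (.leaf 108 13897) (.leaf 109 13787))))) (.node (.node (.node (.node (.leaf 110 13678) (.leaf 110 13570)) (.node (.leaf 111 13463) (.leaf 112 13357))) (.node (.node (.leaf 113 13251) (.leaf 114 13147)) (.node (.leaf 115 13043) (.leaf 116 12940)))) (.node (.node (.node (.leaf 117 12837) (.leaf 118 12735)) (.node (.leaf 119 12634) (.leaf 120 12534))) (.node (.node (.leaf 121 12435) (.leaf 121 12336)) (.node (.leaf 122 12239) (.leaf 123 12143))))))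
def bt25 : BT := (.node (.node (.node (.node (.node (.leaf 124 12047) (.leaf 125 11952)) (.node (.leaf 126 11858) (.leaf 127 11765))) (.node (.node (.leaf 128 11672) (.leaf 129 11580)) (.node (.leaf 130 11489) (.leaf 132 11398)))) (.node (.node (.node (.leaf 133 11308) (.leaf 134 11218)) (.node (.leaf 135 11129) (.leaf 136 11041))) (.node (.node (.leaf 137 10953) (.leaf 138 10867)) (.node (.leaf 139 10781) (.leaf 140 10696))))) (.node (.node (.node (.node (.leaf 141 10611) (.leaf 142 10527)) (.node (.leaf 144 10444) (.leaf 145 10361))) (.node (.node (.leaf 146 10279) (.leaf 147 10198)) (.node (.leaf 148 10117) (.leaf 149 10038)))) (.node (.node (.node (.leaf 151 9958) (.leaf 152 9879)) (.node (.leaf 153 9801) (.leaf 154 9724))) (.node (.node (.leaf 155 9647) (.leaf 157 9571)) (.node (.leaf 158 9495) (.leaf 159 9420))))))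
def bt26 : BT := (.node (.node (.node (.node (.node (.leaf 161 9345) (.leaf 162 9271)) (.node (.leaf 163 9198) (.leaf 164 9125))) (.node (.node (.leaf 166 9053) (.leaf 167 8981)) (.node (.leaf 168 8910) (.leaf 170 8840)))) (.node (.node (.node (.leaf 171 8770) (.leaf 172 8700)) (.node (.leaf 174 8632) (.leaf 175 8563))) (.node (.node (.leaf 177 8496) (.leaf 178 8428)) (.node (.leaf 179 8362) (.leaf 181 8296))))) (.node (.node (.node (.node (.leaf 182 8230) (.leaf 184 8165)) (.node (.leaf 185 8100) (.leaf 187 8036))) (.node (.node (.leaf 188 7972) (.leaf 190 7909)) (.node (.leaf 191 7847) (.leaf 193 7785)))) (.node (.node (.node (.leaf 194 7723) (.leaf 196 7662)) (.node (.leaf 197 7601) (.leaf 199 7541))) (.node (.node (.leaf 201 7482) (.leaf 202 7422)) (.node (.leaf 204 7364) (.leaf 205 7305))))))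
def bt27 : BT := (.node (.node (.node (.node (.node (.leaf 207 7248) (.leaf 209 7190)) (.node (.leaf 210 7133) (.leaf 212 7077))) (.node (.node (.leaf 214 7021) (.leaf 216 6965)) (.node (.leaf 217 6910) (.leaf 219 6855)))) (.node (.node (.node (.leaf 221 6801) (.leaf 223 6747)) (.node (.leaf 224 6694) (.leaf 226 6641))) (.node (.node (.leaf 228 6588) (.leaf 230 6536)) (.node (.leaf 232 6484) (.leaf 233 6433))))) (.node (.node (.node (.node (.leaf 235 6382) (.leaf 237 6331)) (.node (.leaf 239 6281) (.leaf 241 6231))) (.node (.node (.leaf 243 6182) (.leaf 245 6133)) (.node (.leaf 247 6084) (.leaf 249 6036)))) (.node (.node (.node (.leaf 251 5988) (.leaf 253 5941)) (.node (.leaf 255 5894) (.leaf 257 5847))) (.node (.node (.leaf 259 5801) (.leaf 261 5755)) (.node (.leaf 263 5709) (.leaf 265 5664))))))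
def bt28 : BT := (.node (.node (.node (.node (.node (.leaf 267 5619) (.leaf 269 5575)) (.node (.leaf 272 5531) (.leaf 274 5487))) (.node (.node (.leaf 276 5443) (.leaf 278 5400)) (.node (.leaf 280 5357) (.leaf 283 5315)))) (.node (.node (.node (.leaf 285 5273) (.leaf 287 5231)) (.node (.leaf 289 5190) (.leaf 292 5149))) (.node (.node (.leaf 294 5108) (.leaf 296 5067)) (.node (.leaf 299 5027) (.leaf 301 4987))))) (.node (.node (.node (.node (.leaf 304 4948) (.leaf 306 4909)) (.node (.leaf 309 4870) (.leaf 311 4831))) (.node (.node (.leaf 313 4793) (.leaf 316 4755)) (.node (.leaf 319 4717) (.leaf 321 4680)))) (.node (.node (.node (.leaf 324 4643) (.leaf 326 4606)) (.node (.leaf 329 4569) (.leaf 331 4533))) (.node (.node (.leaf 334 4497) (.leaf 337 4462)) (.node (.leaf 339 4426) (.leaf 342 4391))))))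
def bt29 : BT := (.node (.node (.node (.node (.node (.leaf 345 4356) (.leaf 348 4322)) (.node (.leaf 350 4288) (.leaf 353 4254))) (.node (.node (.leaf 356 4220) (.leaf 359 4187)) (.node (.leaf 362 4153) (.leaf 365 4120)))) (.node (.node (.node (.leaf 368 4088) (.leaf 371 4055)) (.node (.leaf 374 4023) (.leaf 377 3991))) (.node (.node (.leaf 380 3960) (.leaf 383 3928)) (.node (.leaf 386 3897) (.leaf 389 3866))))) (.node (.node (.node (.node (.leaf 392 3835) (.leaf 395 3805)) (.node (.leaf 398 3775) (.leaf 401 3745))) (.node (.node (.leaf 405 3715) (.leaf 408 3686)) (.node (.leaf 411 3656) (.leaf 414 3628)))) (.node (.node (.node (.leaf 418 3599) (.leaf 421 3570)) (.node (.leaf 424 3542) (.leaf 428 3514))) (.node (.node (.leaf 431 3486) (.leaf 435 3458)) (.node (.leaf 438 3431) (.leaf 442 3404))))))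
def bt30 : BT := (.node (.node (.node (.node (.node (.leaf 445 3377) (.leaf 449 3350)) (.node (.leaf 452 3323) (.leaf 456 3297))) (.node (.node (.leaf 460 3271) (.leaf 463 3245)) (.node (.leaf 467 3219) (.leaf 471 3194)))) (.node (.node (.node (.leaf 474 3168) (.leaf 478 3143)) (.node (.leaf 482 3118) (.leaf 486 3094))) (.node (.node (.leaf 490 3069) (.leaf 494 3045)) (.node (.leaf 498 3021) (.leaf 502 2997))))) (.node (.node (.node (.node (.leaf 506 2973) (.leaf 510 2949)) (.node (.leaf 514 2926) (.leaf 518 2903))) (.node (.node (.leaf 522 2880) (.leaf 526 2857)) (.node (.leaf 530 2834) (.leaf 535 2812)))) (.node (.node (.node (.leaf 539 2789) (.leaf 543 2767)) (.node (.leaf 548 2745) (.leaf 552 2724))) (.node (.node (.leaf 556 2702) (.leaf 561 2681)) (.node (.leaf 565 2659) (.leaf 570 2638))))))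
def bt31 : BT := (.node (.node (.node (.node (.node (.leaf 574 2617) (.leaf 579 2597)) (.node (.leaf 584 2576) (.leaf 588 2556))) (.node (.node (.leaf 593 2535) (.leaf 598 2515)) (.node (.leaf 603 2495) (.leaf 607 2475)))) (.node (.node (.node (.leaf 612 2456) (.leaf 617 2436)) (.node (.leaf 622 2417) (.leaf 627 2398))) (.node (.node (.leaf 632 2379) (.leaf 637 2360)) (.node (.leaf 642 2341) (.leaf 647 2323))))) (.node (.node (.node (.node (.leaf 653 2304) (.leaf 658 2286)) (.node (.leaf 663 2268) (.leaf 668 2250))) (.node (.node (.leaf 674 2232) (.leaf 679 2214)) (.node (.leaf 684 2197) (.leaf 690 2179)))) (.node (.node (.node (.leaf 695 2162) (.leaf 701 2145)) (.node (.leaf 707 2128) (.leaf 712 2111))) (.node (.node (.leaf 718 2094) (.leaf 724 2078)) (.node (.leaf 730 2061) (.leaf 735 2045))))))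
def bt32 : BT := (.node (.node (.node (.node (.node (.leaf 741 2029) (.leaf 747 2013)) (.node (.leaf 753 1997) (.leaf 759 1981))) (.node (.node (.leaf 765 1965) (.leaf 771 1950)) (.node (.leaf 778 1934) (.leaf 784 1919)))) (.node (.node (.node (.leaf 790 1904) (.leaf 796 1888)) (.node (.leaf 803 1873) (.leaf 809 1859))) (.node (.node (.leaf 816 1844) (.leaf 822 1829)) (.node (.leaf 829 1815) (.leaf 835 1800))))) (.node (.node (.node (.node (.leaf 842 1786) (.leaf 849 1772)) (.node (.leaf 856 1758) (.leaf 862 1744))) (.node (.node (.leaf 869 1730) (.leaf 876 1716)) (.node (.leaf 883 1703) (.leaf 890 1689)))) (.node (.node (.node (.leaf 897 1676) (.leaf 905 1663)) (.node (.leaf 912 1649) (.leaf 919 1636))) (.node (.node (.leaf 927 1623) (.leaf 934 1610)) (.node (.leaf 941 1598) (.leaf 949 1585))))))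
def bt33 : BT := (.node (.node (.node (.node (.node (.leaf 957 1572) (.leaf 964 1560)) (.node (.leaf 972 1548) (.leaf 980 1535))) (.node (.node (.leaf 988 1523) (.leaf 995 1511)) (.node (.leaf 1003 1499) (.leaf 1011 1487)))) (.node (.node (.node (.leaf 1019 1475) (.leaf 1028 1464)) (.node (.leaf 1036 1452) (.leaf 1044 1440))) (.node (.node (.leaf 1053 1429) (.leaf 1061 1418)) (.node (.leaf 1069 1406) (.leaf 1078 1395))))) (.node (.node (.node (.node (.leaf 1087 1384) (.leaf 1095 1373)) (.node (.leaf 1104 1362) (.leaf 1113 1352))) (.node (.node (.leaf 1122 1341) (.leaf 1131 1330)) (.node (.leaf 1140 1320) (.leaf 1149 1309)))) (.node (.node (.node (.leaf 1158 1299) (.leaf 1167 1288)) (.node (.leaf 1177 1278) (.leaf 1186 1268))) (.node (.node (.leaf 1196 1258) (.leaf 1205 1248)) (.node (.leaf 1215 1238) (.leaf 1225 1228))))))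
def bt34 : BT := (.node (.node (.node (.node (.node (.leaf 1234 1219) (.leaf 1244 1209)) (.node (.leaf 1254 1199) (.leaf 1264 1190))) (.node (.node (.leaf 1274 1180) (.leaf 1285 1171)) (.node (.leaf 1295 1162) (.leaf 1305 1153)))) (.node (.node (.node (.leaf 1316 1143) (.leaf 1326 1134)) (.node (.leaf 1337 1125) (.leaf 1347 1116))) (.node (.node (.leaf 1358 1108) (.leaf 1369 1099)) (.node (.leaf 1380 1090) (.leaf 1391 1081))))) (.node (.node (.node (.node (.leaf 1402 1073) (.leaf 1413 1064)) (.node (.leaf 1425 1056) (.leaf 1436 1047))) (.node (.node (.leaf 1448 1039) (.leaf 1459 1031)) (.node (.leaf 1471 1023) (.leaf 1483 1015)))) (.node (.node (.node (.leaf 1494 1007) (.leaf 1506 999)) (.node (.leaf 1518 991) (.leaf 1531 983))) (.node (.node (.leaf 1543 975) (.leaf 1555 967)) (.node (.leaf 1568 960) (.leaf 1580 952))))))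
def bt35 : BT := (.node (.node (.node (.node (.node (.leaf 1593 944) (.leaf 1606 937)) (.node (.leaf 1618 930) (.leaf 1631 922))) (.node (.node (.leaf 1644 915) (.leaf 1658 908)) (.node (.leaf 1671 900) (.leaf 1684 893)))) (.node (.node (.node (.leaf 1698 886) (.leaf 1711 879)) (.node (.leaf 1725 872) (.leaf 1739 865))) (.node (.node (.leaf 1753 858) (.leaf 1767 852)) (.node (.leaf 1781 845) (.leaf 1795 838))))) (.node (.node (.node (.node (.leaf 1809 831) (.leaf 1824 825)) (.node (.leaf 1839 818) (.leaf 1853 812))) (.node (.node (.leaf 1868 805) (.leaf 1883 799)) (.node (.leaf 1898 793) (.leaf 1913 786)))) (.node (.node (.node (.leaf 1929 780) (.leaf 1944 774)) (.node (.leaf 1960 768) (.leaf 1975 762))) (.node (.node (.leaf 1991 756) (.leaf 2007 750)) (.node (.leaf 2023 744) (.leaf 2039 738))))))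
def bt36 : BT := (.node (.node (.node (.node (.node (.leaf 2055 732) (.leaf 2072 726)) (.node (.leaf 2088 720) (.leaf 2105 715))) (.node (.node (.leaf 2122 709) (.leaf 2139 703)) (.node (.leaf 2156 698) (.leaf 2173 692)))) (.node (.node (.node (.leaf 2191 687) (.leaf 2208 681)) (.node (.leaf 2226 676) (.leaf 2244 671))) (.node (.node (.leaf 2262 665) (.leaf 2280 660)) (.node (.leaf 2298 655) (.leaf 2316 649))))) (.node (.node (.node (.node (.leaf 2335 644) (.leaf 2354 639)) (.node (.leaf 2372 634) (.leaf 2391 629))) (.node (.node (.leaf 2411 624) (.leaf 2430 619)) (.node (.leaf 2449 614) (.leaf 2469 609)))) (.node (.node (.node (.leaf 2489 605) (.leaf 2509 600)) (.node (.leaf 2529 595) (.leaf 2549 590))) (.node (.node (.leaf 2569 586) (.leaf 2590 581)) (.node (.leaf 2611 576) (.leaf 2631 572))))))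
def bt37 : BT := (.node (.node (.node (.node (.node (.leaf 2652 567) (.leaf 2674 563)) (.node (.leaf 2695 558) (.leaf 2717 554))) (.node (.node (.leaf 2738 549) (.leaf 2760 545)) (.node (.leaf 2782 541) (.leaf 2805 536)))) (.node (.node (.node (.leaf 2827 532) (.leaf 2850 528)) (.node (.leaf 2872 524) (.leaf 2895 520))) (.node (.node (.leaf 2919 516) (.leaf 2942 511)) (.node (.leaf 2965 507) (.leaf 2989 503))))) (.node (.node (.node (.node (.leaf 3013 499) (.leaf 3037 495)) (.node (.leaf 3062 491) (.leaf 3086 488))) (.node (.node (.leaf 3111 484) (.leaf 3136 480)) (.node (.leaf 3161 476) (.leaf 3186 472)))) (.node (.node (.node (.leaf 3211 469) (.leaf 3237 465)) (.node (.leaf 3263 461) (.leaf 3289 457))) (.node (.node (.leaf 3315 454) (.leaf 3342 450)) (.node (.leaf 3369 447) (.leaf 3396 443))))))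
def bt38 : BT := (.node (.node (.node (.node (.node (.leaf 3423 440) (.leaf 3450 436)) (.node (.leaf 3478 433) (.leaf 3506 429))) (.node (.node (.leaf 3534 426) (.leaf 3562 422)) (.node (.leaf 3590 419) (.leaf 3619 416)))) (.node (.node (.node (.leaf 3648 412) (.leaf 3677 409)) (.node (.leaf 3707 406) (.leaf 3736 403))) (.node (.node (.leaf 3766 399) (.leaf 3796 396)) (.node (.leaf 3827 393) (.leaf 3857 390))))) (.node (.node (.node (.node (.leaf 3888 387) (.leaf 3919 384)) (.node (.leaf 3951 381) (.leaf 3982 378))) (.node (.node (.leaf 4014 375) (.leaf 4046 372)) (.node (.leaf 4079 369) (.leaf 4111 366)))) (.node (.node (.node (.leaf 4144 363) (.leaf 4177 360)) (.node (.leaf 4211 357) (.leaf 4244 354))) (.node (.node (.leaf 4278 352) (.leaf 4313 349)) (.node (.leaf 4347 346) (.leaf 4382 343))))))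
def bt39 : BT := (.node (.node (.node (.node (.node (.leaf 4417 341) (.leaf 4452 338)) (.node (.leaf 4488 335) (.leaf 4524 333))) (.node (.node (.leaf 4560 330) (.leaf 4596 327)) (.node (.leaf 4633 325) (.leaf 4670 322)))) (.node (.node (.node (.leaf 4708 320) (.leaf 4745 317)) (.node (.leaf 4783 315) (.leaf 4822 312))) (.node (.node (.leaf 4860 310) (.leaf 4899 307)) (.node (.leaf 4938 305) (.leaf 4978 302))))) (.node (.node (.node (.node (.leaf 5018 300) (.leaf 5058 297)) (.node (.leaf 5098 295) (.leaf 5139 293))) (.node (.node (.leaf 5180 290) (.leaf 5221 288)) (.node (.leaf 5263 286) (.leaf 5305 284)))) (.node (.node (.node (.leaf 5348 281) (.leaf 5391 279)) (.node (.leaf 5434 277) (.leaf 5477 275))) (.node (.node (.leaf 5521 273) (.leaf 5565 270)) (.node (.leaf 5610 268) (.leaf 5655 266))))))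
def bt40 : BT := (.node (.node (.node (.node (.node (.leaf 5700 264) (.leaf 5745 262)) (.node (.leaf 5791 260) (.leaf 5838 258))) (.node (.node (.leaf 5884 256) (.leaf 5931 254)) (.node (.leaf 5979 252) (.leaf 6027 250)))) (.node (.node (.node (.leaf 6075 248) (.leaf 6124 246)) (.node (.leaf 6173 244) (.leaf 6222 242))) (.node (.node (.leaf 6272 240) (.leaf 6322 238)) (.node (.leaf 6372 236) (.leaf 6423 234))))) (.node (.node (.node (.node (.leaf 6475 232) (.leaf 6527 231)) (.node (.leaf 6579 229) (.leaf 6631 227))) (.node (.node (.leaf 6684 225) (.leaf 6738 223)) (.node (.leaf 6792 222) (.leaf 6846 220)))) (.node (.node (.node (.leaf 6901 218) (.leaf 6956 216)) (.node (.leaf 7012 215) (.leaf 7068 213))) (.node (.node (.leaf 7124 211) (.leaf 7181 210)) (.node (.leaf 7239 208) (.leaf 7297 206))))))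
def bt41 : BT := (.node (.node (.node (.node (.node (.leaf 7355 205) (.leaf 7414 203)) (.node (.leaf 7473 201) (.leaf 7533 200))) (.node (.node (.leaf 7593 198) (.leaf 7654 197)) (.node (.leaf 7715 195) (.leaf 7777 193)))) (.node (.node (.node (.leaf 7839 192) (.leaf 7902 190)) (.node (.leaf 7965 189) (.leaf 8029 187))) (.node (.node (.leaf 8093 186) (.leaf 8158 184)) (.node (.leaf 8223 183) (.leaf 8289 182))))) (.node (.node (.node (.node (.leaf 8355 180) (.leaf 8422 179)) (.node (.leaf 8490 177) (.leaf 8557 176))) (.node (.node (.leaf 8626 174) (.leaf 8695 173)) (.node (.leaf 8764 172) (.leaf 8835 170)))) (.node (.node (.node (.leaf 8905 169) (.leaf 8976 168)) (.node (.leaf 9048 166) (.leaf 9121 165))) (.node (.node (.leaf 9194 164) (.leaf 9267 162)) (.node (.leaf 9341 161) (.leaf 9416 160))))))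
def bt42 : BT := (.node (.node (.node (.node (.node (.leaf 9491 159) (.leaf 9567 157)) (.leaf 9644 156)) (.node (.node (.leaf 9721 155) (.leaf 9799 154)) (.leaf 9877 152))) (.node (.node (.node (.leaf 9956 151) (.leaf 10036 150)) (.leaf 10116 149)) (.node (.leaf 10197 148) (.leaf 10279 146)))) (.node (.node (.node (.node (.leaf 10361 145) (.leaf 10444 144)) (.leaf 10527 143)) (.node (.node (.leaf 10612 142) (.leaf 10696 141)) (.leaf 10782 140))) (.node (.node (.node (.leaf 10868 138) (.leaf 10955 137)) (.leaf 11043 136)) (.node (.leaf 3545 136) (.leaf 3365206 0)))))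
def btg0 : BT := (.node (.node (.node (.node (.node bt0 bt1) (.node bt2 bt3)) (.node (.node bt4 bt5) (.node bt6 bt7))) (.node (.node (.node bt8 bt9) (.node bt10 bt11)) (.node (.node bt12 bt13) (.node bt14 bt15)))) (.node (.node (.node (.node bt16 bt17) (.node bt18 bt19)) (.node (.node bt20 bt21) (.node bt22 bt23))) (.node (.node (.node bt24 bt25) (.node bt26 bt27)) (.node (.node bt28 bt29) (.node bt30 bt31)))))
def btg1 : BT := (.node (.node (.node (.node bt32 bt33) bt34) (.node (.node bt35 bt36) bt37)) (.node (.node (.node bt38 bt39) bt40) (.node bt41 bt42)))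
def bt : BT := (.node btg0 btg1)

def ph0 : BT := (.node (.node (.node (.node (.node (.leaf 731 1656) (.leaf 796 1776)) (.node (.leaf 888 1849) (.leaf 1003 1909))) (.node (.node (.leaf 1133 1964) (.leaf 1281 2016)) (.node (.leaf 1443 2066) (.leaf 1616 2116)))) (.node (.node (.node (.leaf 1803 2166) (.leaf 2000 2215)) (.node (.leaf 2208 2265) (.leaf 2427 2315))) (.node (.node (.leaf 2655 2365) (.leaf 2892 2416)) (.node (.leaf 3139 2467) (.leaf 3393 2518))))) (.node (.node (.node (.node (.leaf 3658 2570) (.leaf 3928 2622)) (.node (.leaf 4208 2675) (.leaf 4496 2728))) (.node (.node (.leaf 4789 2781) (.leaf 5092 2835)) (.node (.leaf 5400 2888) (.leaf 5716 2942)))) (.node (.node (.node (.leaf 6039 2996) (.leaf 6368 3049)) (.node (.leaf 6704 3103) (.leaf 7047 3156))) (.node (.node (.leaf 7394 3208) (.leaf 7750 3261)) (.node (.leaf 8110 3312) (.leaf 8477 3363))))))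
def ph1 : BT := (.node (.node (.node (.node (.node (.leaf 8849 3413) (.leaf 9228 3462)) (.node (.leaf 9611 3510) (.leaf 10002 3557))) (.node (.node (.leaf 10396 3602) (.leaf 10797 3645)) (.node (.leaf 11203 3687) (.leaf 11615 3727)))) (.node (.node (.node (.leaf 12030 3765) (.leaf 12453 3801)) (.node (.leaf 12879 3834) (.leaf 13312 3865))) (.node (.node (.leaf 13748 3893) (.leaf 14190 3918)) (.node (.leaf 14637 3940) (.leaf 15088 3959))))) (.node (.node (.node (.node (.leaf 15544 3974) (.leaf 16006 3986)) (.node (.leaf 16471 3995) (.leaf 16941 3999))) (.node (.node (.leaf 17417 4000) (.leaf 17896 3997)) (.node (.leaf 18380 3989) (.leaf 18868 3978)))) (.node (.node (.node (.leaf 19361 3962) (.leaf 19859 3942)) (.node (.leaf 20360 3917) (.leaf 20866 3888))) (.node (.node (.leaf 21376 3855) (.leaf 21890 3817)) (.node (.leaf 22409 3775) (.leaf 22932 3729))))))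
def ph2 : BT := (.node (.node (.node (.node (.node (.leaf 23458 3679) (.leaf 23990 3625)) (.node (.leaf 24525 3566) (.leaf 25063 3504))) (.node (.node (.leaf 25607 3438) (.leaf 26154 3369)) (.node (.leaf 26705 3297) (.leaf 27260 3222)))) (.node (.node (.node (.leaf 27819 3143) (.leaf 28381 3063)) (.node (.leaf 28948 2980) (.leaf 29519 2895))) (.node (.node (.leaf 30092 2809) (.leaf 30671 2721)) (.node (.leaf 31252 2633) (.leaf 31838 2543))))) (.node (.node (.node (.node (.leaf 32426 2453) (.leaf 33020 2363)) (.node (.leaf 33615 2273) (.leaf 34216 2184))) (.node (.node (.leaf 34819 2095) (.leaf 35427 2007)) (.node (.leaf 36037 1921) (.leaf 36652 1835)))) (.node (.node (.node (.leaf 37270 1751) (.leaf 37890 1668)) (.node (.leaf 38516 1579) (.leaf 39144 1489))) (.node (.node (.leaf 39776 1399) (.leaf 40410 1310)) (.node (.leaf 41050 1223) (.leaf 41691 1139))))))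
def ph3 : BT := (.node (.node (.node (.node (.leaf 42336 1057) (.leaf 42985 978)) (.node (.leaf 43638 903) (.leaf 44292 831))) (.node (.node (.leaf 44951 762) (.leaf 45613 658)) (.node (.leaf 46278 87) (.leaf 46947 38)))) (.node (.node (.node (.leaf 47618 30) (.leaf 48293 22)) (.node (.leaf 48971 16) (.leaf 49653 11))) (.node (.node (.leaf 50336 4) (.leaf 51025 1)) (.leaf 2452832 0))))
def ph : BT := (.node (.node ph0 ph1) (.node ph2 ph3))

def ht0 : BT := (.node (.node (.node (.node (.node (.leaf 3267894 0) (.leaf 39539 4256605099966)) (.node (.leaf 29443 4490574864856) (.leaf 14902 4641858033900))) (.node (.node (.leaf 20327 4806470564583) (.leaf 11088 4843904775354)) (.node (.leaf 11998 4894262339653) (.leaf 13164 5008405414514)))) (.node (.node (.node (.leaf 8904 5031495199371) (.leaf 4133 5058767928724)) (.node (.leaf 9776 5119645463328) (.leaf 9553 5198177410866))) (.node (.node (.leaf 7565 5213665117503) (.leaf 5638 5230281137166)) (.node (.leaf 3431 5250033510477) (.leaf 3339 5280800136297))))) (.node (.node (.node (.node (.leaf 7909 5382740608907) (.leaf 6794 5393412399491)) (.node (.leaf 5806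 5404315741664) (.leaf 4854 5415751360238))) (.node (.node (.leaf 3863 5428238147851) (.leaf 2737 5442830647099)) (.node (.leaf 1403 5462473685311) (.leaf 3972 5502588607297)))) (.node (.node (.node (.leaf 5705 5577382819367) (.leaf 5120 5585152780099)) (.node (.leaf 4581 5593089381982) (.leaf 4067 5601303795965))) (.node (.node (.leaf 3556 5609947337588) (.leaf 3025 5619262289437)) (.node (.leaf 2447 5629673384868) (.leaf 1794 5642030737110))))))
def ht1 : BT := (.node (.node (.node (.node (.node (.leaf 1050 5658444041661) (.leaf 1621 5686805514203)) (.node (.leaf 4532 5769646407637) (.leaf 4184 5775414608120))) (.node (.node (.leaf 3858 5781275640398) (.leaf 3549 5787271221356)) (.node (.leaf 3253 5793444488461) (.leaf 2958 5799864651492)))) (.node (.node (.node (.leaf 2660 5806618010288) (.leaf 2351 5813832860159)) (.node (.leaf 2020 5821716098303) (.leaf 1659 5830616084111))) (.node (.node (.leaf 1259 5841191709324) (.leaf 818 5854892949607)) (.node (.leaf 343 5876026329886) (.leaf 3243 5938152210489))))) (.node (.node (.node (.node (.leaf 3437 5967577683417) (.leaf 3230 5972033867966)) (.node (.leaf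 3034 5976568731440) (.leaf 2845 5981198236609))) (.node (.node (.leaf 2662 5985948934320) (.leaf 2480 5990850500348)) (.node (.leaf 2299 5995932671731) (.leaf 2115 6001251484395)))) (.node (.node (.node (.leaf 1924 6006872213537) (.leaf 1725 6012889084495)) (.node (.leaf 1512 6019449063112) (.leaf 1282 6026780306000))) (.node (.node (.leaf 1033 6035276183297) (.leaf 762 6045691783834)) (.node (.leaf 472 6059705980849) (.leaf 345 6082584623543))))))
def ht2 : BT := (.node (.node (.node (.node (.node (.leaf 2900 6157986832058) (.leaf 2764 6161452250599)) (.node (.leaf 2631 6164963396759) (.leaf 2502 6168534407787))) (.node (.node (.leaf 2379 6172172206257) (.leaf 2259 6175889213110)) (.node (.leaf 2139 6179698520156) (.leaf 2022 6183614467931)))) (.node (.node (.node (.leaf 1904 6187659258786) (.leaf 1786 6191855416044)) (.node (.leaf 1663 6196235787652) (.leaf 1539 6200837860050))) (.node (.node (.leaf 1408 6205725331773) (.leaf 1271 6210972621582)) (.node (.leaf 1126 6216696056497) (.leaf 971 6223071779306))))) (.node (.node (.node (.node (.leaf 805 6230376887431) (.leaf 628 6239101803957)) (.node (.leaf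 442 6250205982420) (.leaf 247 6266058307353))) (.node (.node (.leaf 1018 6295553234729) (.leaf 2357 6353053897850)) (.node (.leaf 2264 6355841647012) (.leaf 2175 6358672413821)))) (.node (.node (.node (.leaf 2088 6361547520809) (.leaf 2002 6364473935533)) (.node (.leaf 1918 6367457947727) (.leaf 1837 6370505068040))) (.node (.node (.leaf 1756 6373624473253) (.leaf 1675 6376824912902)) (.node (.leaf 1594 6380117970743) (.leaf 1513 6383518020250))))))
def ht3 : BT := (.node (.node (.node (.node (.node (.leaf 1430 6387043597438) (.leaf 1346 6390712945187)) (.node (.leaf 1259 6394552529661) (.leaf 1169 6398601619435))) (.node (.node (.leaf 1075 6402906806020) (.leaf 976 6407533356380)) (.node (.leaf 873 6412567318339) (.leaf 764 6418147622316)))) (.node (.node (.node (.leaf 648 6424477881638) (.leaf 526 6431880105551)) (.node (.leaf 399 6440941022874) (.leaf 267 6452884786890))) (.node (.node (.leaf 131 6470929688468) (.leaf 1447 6510868733158)) (.node (.leaf 1969 6545828875863) (.leaf 1902 6548117565929))))) (.node (.node (.node (.node (.leaf 1838 6550440642491) (.leaf 1775 6552800822579)) (.node (.leaf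 1715 6555198473581) (.leaf 1653 6557640941002))) (.node (.node (.leaf 1594 6560129213405) (.leaf 1536 6562669570536)) (.node (.leaf 1477 6565268270568) (.leaf 1420 6567927462214)))) (.node (.node (.node (.leaf 1362 6570654559778) (.leaf 1303 6573462070254)) (.node (.leaf 1244 6576357154270) (.leaf 1183 6579352832112))) (.node (.node (.leaf 1123 6582461499792) (.leaf 1059 6585707386211)) (.node (.leaf 995 6589104865428) (.leaf 928 6592689296065))))))
def ht4 : BT := (.node (.node (.node (.node (.node (.leaf 858 6596497465488) (.leaf 786 6600576972317)) (.node (.leaf 710 6604999976238) (.leaf 630 6609859848212))) (.node (.node (.leaf 548 6615288262471) (.leaf 461 6621513378971)) (.node (.leaf 371 6628869026036) (.leaf 278 6637981722962)))) (.node (.node (.node (.leaf 183 6650149505590) (.leaf 85 6668961138859)) (.node (.leaf 1432 6712954812624) (.leaf 1694 6736003724130))) (.node (.node (.leaf 1645 6737903909108) (.leaf 1596 6739833561628)) (.node (.leaf 1548 6741793363308) (.leaf 1501 6743784418339))))) (.node (.node (.node (.node (.leaf 1456 6745809612477) (.leaf 1410 6747869818755)) (.node (.leaf 1365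 6749968548025) (.leaf 1321 6752108884640))) (.node (.node (.leaf 1278 6754294651463) (.leaf 1233 6756531724206)) (.node (.leaf 1189 6758821021249) (.leaf 1146 6761166684042)))) (.node (.node (.node (.leaf 1102 6763578281656) (.leaf 1056 6766062800911)) (.node (.leaf 1012 6768625898430) (.leaf 965 6771282925110))) (.node (.node (.leaf 917 6774041758373) (.leaf 870 6776915489284)) (.node (.leaf 819 6779929239338) (.leaf 769 6783096010777))))))
def ht5 : BT := (.node (.node (.node (.node (.node (.leaf 716 6786454958258) (.leaf 660 6790037805951)) (.node (.leaf 604 6793887538071) (.leaf 545 6798080667739))) (.node (.node (.leaf 484 6802704204286) (.leaf 420 6807892742602)) (.node (.leaf 355 6813835140908) (.leaf 287 6820868969709)))) (.node (.node (.node (.leaf 217 6829541089436) (.leaf 147 6840948224871)) (.node (.leaf 76 6858044344488) (.leaf 1055 6894778259582))) (.node (.node (.leaf 1500 6923462507907) (.leaf 1461 6925056310006)) (.node (.leaf 1422 6926671472007) (.leaf 1384 6928311339843))))) (.node (.node (.node (.node (.leaf 1346 6929977213821) (.leaf 1310 6931669214126)) (.node (.leaf 1273 6933390940083)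 (.leaf 1239 6935141390046))) (.node (.node (.leaf 1204 6936922306522) (.leaf 1169 6938737929665)) (.node (.leaf 1133 6940590468234) (.leaf 1099 6942480578802)))) (.node (.node (.node (.leaf 1064 6944413703667) (.leaf 1029 6946392063739)) (.node (.leaf 995 6948418688928) (.leaf 960 6950499223435))) (.node (.node (.leaf 925 6952639041980) (.leaf 889 6954844534228)) (.node (.leaf 852 6957121993453) (.leaf 816 6959477001839))))))
def ht6 : BT := (.node (.node (.node (.node (.node (.leaf 777 6961925562650) (.leaf 740 6964471792386)) (.node (.leaf 699 6967139169119) (.leaf 660 6969935117237))) (.node (.node (.leaf 617 6972893128858) (.leaf 575 6976028254915)) (.node (.leaf 529 6979388839069) (.leaf 484 6983006157407)))) (.node (.node (.node (.leaf 436 6986958422061) (.leaf 388 6991319523804)) (.node (.leaf 336 6996229900150) (.leaf 285 7001837848141))) (.node (.node (.leaf 232 7008470441639) (.leaf 177 7016628954170)) (.node (.leaf 122 7027258698300) (.leaf 67 7042776839746))))) (.node (.node (.node (.node (.leaf 793 7073100417040) (.leaf 1346 7105244235785)) (.node (.leaf 1312 7106600164944) (.leaf 1282 7107974934428)))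 (.node (.node (.leaf 1249 7109371469177) (.leaf 1218 7110788369968)) (.node (.leaf 1188 7112227813360) (.leaf 1158 7113691898539)))) (.node (.node (.node (.leaf 1128 7115179852034) (.leaf 1100 7116693617338)) (.node (.leaf 1071 7118235647002) (.leaf 1043 7119803783279))) (.node (.node (.leaf 1014 7121403587115) (.leaf 985 7123035444640)) (.node (.leaf 957 7124700392001) (.leaf 930 7126402810780))))))
def ht7 : BT := (.node (.node (.node (.node (.node (.leaf 900 7128146908684) (.leaf 873 7129930226057)) (.node (.leaf 844 7131762340040) (.leaf 816 7133641837199))) (.node (.node (.leaf 786 7135576991138) (.leaf 757 7137569320083)) (.node (.leaf 728 7139628203341) (.leaf 697 7141761168454)))) (.node (.node (.node (.leaf 666 7143972645431) (.leaf 635 7146273399587)) (.node (.leaf 603 7148677535703) (.leaf 570 7151198020497))) (.node (.node (.leaf 537 7153851121047) (.leaf 502 7156661352915)) (.node (.leaf 467 7159649070557) (.leaf 430 7162854493053))))) (.node (.node (.node (.node (.leaf 393 7166315014159) (.leaf 355 7170096674636)) (.node (.leaf 315 7174281238226) (.leaf 275 7178968654941))) (.node (.node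 (.leaf 233 7184338042932) (.leaf 192 7190620233558)) (.node (.leaf 149 7198304327826) (.leaf 106 7208179439932)))) (.node (.node (.node (.leaf 62 7222186376938) (.leaf 477 7246379068044)) (.node (.leaf 1236 7284512157455) (.leaf 1207 7285669678690))) (.node (.node (.leaf 1179 7286844507351) (.leaf 1153 7288037978446)) (.node (.leaf 1126 7289248508039) (.leaf 1099 7290478343809))))))
def ht8 : BT := (.node (.node (.node (.node (.node (.leaf 1073 7291727488266) (.leaf 1047 7292998848639)) (.node (.leaf 1022 7294291477682) (.leaf 996 7295606993060))) (.node (.node (.leaf 972 7296946029785) (.leaf 948 7298309488911)) (.node (.leaf 924 7299699855959) (.leaf 899 7301117957016)))) (.node (.node (.node (.leaf 875 7302564314656) (.leaf 851 7304041823033)) (.node (.leaf 826 7305552408715) (.leaf 803 7307095948868))) (.node (.node (.leaf 779 7308678952117) (.leaf 756 7310302124560)) (.node (.leaf 730 7311968647715) (.leaf 707 7313678262971))))) (.node (.node (.node (.node (.leaf 681 7315442604143) (.leaf 657 7317259242521)) (.node (.leaf 631 7319140199829) (.leaf 605 7321086228223))) (.node (.node (.leaf 579 7323105448080)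 (.leaf 553 7325208503016)) (.node (.leaf 525 7327407550316) (.leaf 497 7329708006778)))) (.node (.node (.node (.leaf 470 7332126922405) (.leaf 440 7334690722820)) (.node (.leaf 410 7337407897741) (.leaf 381 7340309476506))) (.node (.node (.leaf 349 7343445337147) (.leaf 317 7346842732239)) (.node (.leaf 285 7350567574739) (.leaf 252 7354713003865))))))
def ht9 : BT := (.node (.node (.node (.node (.node (.leaf 218 7359396715506) (.leaf 184 7364790390856)) (.node (.leaf 149 7371194415456) (.leaf 114 7379087019191))) (.node (.node (.leaf 78 7389471076577) (.leaf 43 7404619965243)) (.node (.leaf 745 7434835062741) (.leaf 1139 7458202034300)))) (.node (.node (.node (.leaf 1112 7459208018357) (.leaf 1088 7460229515357)) (.node (.leaf 1063 7461268073966) (.leaf 1040 7462321331680))) (.node (.node (.leaf 1016 7463392657187) (.leaf 992 7464482385435)) (.node (.leaf 969 7465589924628) (.leaf 947 7466717062387))))) (.node (.node (.node (.node (.leaf 924 7467865281744) (.leaf 903 7469032992402)) (.node (.leaf 881 7470223631506) (.leaf 860 7471434654146))) (.node (.node (.leaf 838 7472670422824) (.leaf 817 7473930370314))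 (.node (.leaf 796 7475216865046) (.leaf 774 7476531861577)))) (.node (.node (.node (.leaf 754 7477874350165) (.leaf 732 7479249518758)) (.node (.leaf 712 7480655721879) (.leaf 691 7482098597603))) (.node (.node (.leaf 669 7483578532662) (.leaf 649 7485096296445)) (.node (.leaf 627 7486660579755) (.leaf 605 7488270552558))))))
def ht10 : BT := (.node (.node (.node (.node (.node (.leaf 584 7489929455840) (.leaf 562 7491646361149)) (.node (.leaf 539 7493424044990) (.leaf 517 7495266184792))) (.node (.node (.leaf 494 7497184087567) (.leaf 471 7499183728749)) (.node (.leaf 447 7501277201929) (.leaf 424 7503473179352)))) (.node (.node (.node (.leaf 398 7505793869909) (.leaf 374 7508241548166)) (.node (.leaf 348 7510852856533) (.leaf 322 7513645108604))) (.node (.node (.leaf 296 7516655603116) (.leaf 269 7519934453013)) (.node (.leaf 241 7523535803150) (.leaf 213 7527531419398))))) (.node (.node (.node (.node (.leaf 185 7532037447321) (.leaf 157 7537231042221)) (.node (.leaf 127 7543401134360) (.leaf 99 7550923144631))) (.node (.node (.leaf 68 7560844620789) (.leaf 39 7574879474947)) (.node (.leaf 601 7600491936516)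 (.leaf 1080 7627028687312)))) (.node (.node (.node (.leaf 1056 7627897238418) (.leaf 1031 7628781772474)) (.node (.leaf 1009 7629680894349) (.leaf 986 7630595420331))) (.node (.node (.leaf 963 7631525533506) (.leaf 941 7632471673994)) (.node (.leaf 920 7633435180937) (.leaf 897 7634416474782))))))
def ht11 : BT := (.node (.node (.node (.node (.node (.leaf 877 7635414682786) (.leaf 856 7636432914599)) (.node (.leaf 837 7637470098776) (.leaf 816 7638527496093))) (.node (.node (.leaf 797 7639605387444) (.leaf 776 7640705550170)) (.node (.leaf 758 7641826344721) (.leaf 738 7642973717303)))) (.node (.node (.node (.leaf 719 7644144907756) (.leaf 699 7645342661500)) (.node (.leaf 681 7646566870908) (.leaf 662 7647821787364))) (.node (.node (.leaf 643 7649107193844) (.leaf 625 7650424004055)) (.node (.leaf 605 7651778773222) (.leaf 586 7653168978484))))) (.node (.node (.node (.node (.leaf 567 7654599904551) (.leaf 547 7656075323715)) (.node (.leaf 528 7657596138104) (.leaf 509 7659169563515))) (.node (.node (.leaf 488 7660801156813) (.leaf 469 7662490644507)) (.node (.leaf 448 7664251638586) (.leaf 427 7666084559632))))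 (.node (.node (.node (.leaf 407 7667999002494) (.leaf 386 7670011031041)) (.node (.leaf 364 7672128129327) (.leaf 342 7674363034960))) (.node (.node (.leaf 320 7676734393011) (.leaf 298 7679266381334)) (.node (.leaf 274 7681990197414) (.leaf 252 7684924217306))))))
def ht12 : BT := (.node (.node (.node (.node (.node (.leaf 227 7688139579363) (.leaf 204 7691660918676)) (.node (.leaf 180 7695604327311) (.leaf 155 7700080771885))) (.node (.node (.leaf 131 7705244133043) (.leaf 105 7711422572132)) (.node (.leaf 81 7719000358600) (.leaf 55 7729121859716)))) (.node (.node (.node (.leaf 30 7743980036613) (.leaf 759 7774640260161)) (.node (.leaf 1038 7789686364318) (.leaf 1013 7790441278643))) (.node (.node (.leaf 989 7791211079968) (.leaf 966 7791995468258)) (.node (.leaf 944 7792794223878) (.leaf 920 7793608635211))))) (.node (.node (.node (.node (.leaf 900 7794438220730) (.leaf 877 7795284552997)) (.node (.leaf 857 7796146670817) (.leaf 837 7797025952708))) (.node (.node (.leaf 817 7797922918743) (.leaf 798 7798836919450)) (.node (.leaf 779 7799768629915) (.leaf 760 7800719582646)))) (.node (.node (.node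 (.leaf 741 7801691033201) (.leaf 722 7802683213416)) (.node (.leaf 704 7803696199013) (.leaf 686 7804732712605))) (.node (.node (.leaf 668 7805792802235) (.leaf 650 7806877768994)) (.node (.leaf 633 7807988377455) (.leaf 615 7809125908457))))))
def ht13 : BT := (.node (.node (.node (.node (.node (.leaf 597 7810292156612) (.leaf 579 7811489043098)) (.node (.leaf 562 7812717820669) (.leaf 544 7813983392782))) (.node (.node (.leaf 526 7815285880565) (.leaf 509 7816627497675)) (.node (.leaf 490 7818015289077) (.leaf 473 7819446244708)))) (.node (.node (.node (.leaf 454 7820931469897) (.leaf 436 7822469228983)) (.node (.leaf 418 7824068481483) (.leaf 399 7825737195759))) (.node (.node (.leaf 380 7827477371507) (.leaf 362 7829299066471)) (.node (.leaf 341 7831220106387) (.leaf 322 7833236133283))))) (.node (.node (.node (.node (.leaf 303 7835373879263) (.leaf 282 7837654752420)) (.node (.leaf 262 7840086765104) (.leaf 241 7842707050536))) (.node (.node (.leaf 221 7845542629425) (.leaf 199 7848655042958)) (.node (.leaf 178 7852079791162) (.leaf 156 7855918490896)))) (.node (.node (.node (.leaf 135 7860271178455)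 (.leaf 112 7865354531697)) (.node (.leaf 91 7871374371397) (.leaf 68 7878955523774))) (.node (.node (.leaf 46 7888948497796) (.leaf 24 7904024150144)) (.node (.leaf 889 7937438704728) (.leaf 1011 7944186361086))))))
def ht14 : BT := (.node (.node (.node (.node (.node (.leaf 985 7944845927640) (.leaf 960 7945519966932)) (.node (.leaf 936 7946207887219) (.leaf 912 7946910998972))) (.node (.node (.leaf 889 7947629081656) (.leaf 867 7948362211298)) (.node (.leaf 845 7949111290865) (.leaf 825 7949875378229)))) (.node (.node (.node (.leaf 804 7950657191190) (.leaf 786 7951453674010)) (.node (.leaf 765 7952268364549) (.leaf 747 7953099396248))) (.node (.node (.leaf 727 7953949819272) (.leaf 709 7954817971116)) (.node (.leaf 691 7955706503722) (.leaf 673 7956615181275))))) (.node (.node (.node (.node (.leaf 656 7957544857885) (.leaf 638 7958497882837)) (.node (.leaf 621 7959472148902) (.leaf 605 7960469313456))) (.node (.node (.leaf 587 7961493854716) (.leaf 570 7962543368852)) (.node (.leaf 554 7963620851102) (.leaf 537 7964729738847)))) (.node (.node (.node (.leaf 520 7965869062984) (.leaf 504 7967041035902))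 (.node (.leaf 487 7968250298479) (.leaf 470 7969496757962))) (.node (.node (.leaf 454 7970783317745) (.leaf 437 7972116066630)) (.node (.leaf 421 7973495542394) (.leaf 403 7974928872386))))))
def ht15 : BT := (.node (.node (.node (.node (.node (.leaf 387 7976414547038) (.leaf 370 7977965907971)) (.node (.leaf 352 7979587112031) (.leaf 335 7981280269976))) (.node (.node (.leaf 318 7983059182362) (.leaf 300 7984936406688)) (.node (.leaf 282 7986918497092) (.leaf 264 7989020849770)))) (.node (.node (.node (.leaf 247 7991262370679) (.leaf 227 7993677690182)) (.node (.leaf 210 7996265641775) (.leaf 190 7999098548022))) (.node (.node (.leaf 172 8002184472966) (.leaf 153 8005620171763)) (.node (.leaf 134 8009479802156) (.leaf 114 8013895432432))))) (.node (.node (.node (.node (.leaf 95 8019018777248) (.leaf 76 8025197116766)) (.node (.leaf 56 8033020654266) (.leaf 37 8043533611128))) (.node (.node (.leaf 88 8060248896029) (.leaf 1047 8093327364757)) (.node (.leaf 1016 8093880136974) (.leaf 987 8094446776868)))) (.node (.node (.node (.leaf 958 8095028103103) (.leaf 930 8095624100724)) (.node (.leaf 904 8096235062210)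 (.leaf 879 8096861781616))) (.node (.node (.leaf 854 8097504155029) (.leaf 832 8098162255993)) (.node (.leaf 809 8098836421028) (.leaf 787 8099526147475))))))
def ht16 : BT := (.node (.node (.node (.node (.node (.leaf 766 8100232437749) (.leaf 745 8100955975436)) (.node (.leaf 725 8101696822672) (.leaf 706 8102455983909))) (.node (.node (.leaf 687 8103233923843) (.leaf 668 8104031446232)) (.node (.leaf 650 8104848231490) (.leaf 633 8105684269521)))) (.node (.node (.node (.leaf 615 8106542789983) (.leaf 597 8107423172206)) (.node (.leaf 580 8108326259743) (.leaf 563 8109254074434))) (.node (.node (.leaf 547 8110207670434) (.leaf 529 8111189852205)) (.node (.leaf 513 8112198138396) (.leaf 497 8113237156162))))) (.node (.node (.node (.node (.leaf 481 8114309053503) (.leaf 464 8115415918917)) (.node (.leaf 448 8116557287203) (.leaf 432 8117736967878))) (.node (.node (.leaf 416 8118959465735) (.leaf 399 8120227960839)) (.node (.leaf 383 8121543230446) (.leaf 367 8122912676214)))) (.node (.node (.node (.leaf 351 8124341619607) (.leaf 334 8125836682523)) (.node (.leaf 317 8127400550649) (.leaf 301 8129040124059)))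 (.node (.node (.leaf 285 8130770792587) (.leaf 267 8132605920202)) (.node (.leaf 251 8134545162937) (.leaf 233 8136620370661))))))
def ht17 : BT := (.node (.node (.node (.node (.node (.leaf 217 8138835517077) (.leaf 199 8141236197497)) (.node (.leaf 181 8143834901000) (.leaf 165 8146669379264))) (.node (.node (.leaf 146 8149831876572) (.leaf 129 8153342327606)) (.node (.leaf 111 8157353749182) (.leaf 93 8162003172236)))) (.node (.node (.node (.leaf 75 8167542415874) (.leaf 57 8174407346001)) (.node (.leaf 39 8183458092573) (.leaf 21 8196808563890))) (.node (.node (.leaf 877 8222919003628) (.leaf 1058 8233214731860)) (.node (.leaf 1020 8233692641524) (.leaf 983 8234187030847))))) (.node (.node (.node (.node (.leaf 950 8234697425565) (.leaf 918 8235224113445)) (.node (.leaf 889 8235766759302) (.leaf 863 8236324618748))) (.node (.node (.leaf 835 8236898398096) (.leaf 810 8237488101063)) (.node (.leaf 785 8238095626920) (.leaf 761 8238719682188)))) (.node (.node (.node (.leaf 739 8239360771166) (.leaf 717 8240020098445)) (.node (.leaf 696 8240697214533) (.leaf 677 8241392049562))) (.node (.node (.leaf 656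 8242106362941) (.leaf 637 8242839587390)) (.node (.leaf 618 8243593488405) (.leaf 599 8244368932728))))))
def ht18 : BT := (.node (.node (.node (.node (.node (.leaf 582 8245165366525) (.leaf 564 8245986240491)) (.node (.leaf 546 8246830575705) (.leaf 529 8247699210111))) (.node (.node (.leaf 513 8248593734176) (.leaf 496 8249517809177)) (.node (.leaf 479 8250469242839) (.leaf 463 8251450487494)))) (.node (.node (.node (.leaf 447 8252465160063) (.leaf 431 8253515366557)) (.node (.leaf 415 8254603121126) (.leaf 398 8255731172147))) (.node (.node (.leaf 383 8256899149536) (.leaf 367 8258116337000)) (.node (.leaf 352 8259383296125) (.leaf 335 8260708631955))))) (.node (.node (.node (.node (.leaf 320 8262089509351) (.leaf 304 8263540618079)) (.node (.leaf 288 8265065066257) (.leaf 272 8266670818780))) (.node (.node (.leaf 256 8268367959186) (.leaf 240 8270168924376)) (.node (.leaf 224 8272088135309) (.leaf 208 8274143502163)))) (.node (.node (.node (.leaf 191 8276358685421) (.leaf 175 8278749650442)) (.node (.leaf 159 8281363895158) (.leaf 143 8284251640488))) (.node (.node (.leaf 126 8287482518306) (.leaf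 109 8291125038784)) (.node (.leaf 93 8295301235817) (.leaf 76 8300256396456))))))
def ht19 : BT := (.node (.node (.node (.node (.node (.leaf 59 8306282187004) (.leaf 43 8313963595145)) (.node (.leaf 26 8324885713256) (.leaf 518 8343422228552))) (.node (.node (.leaf 1155 8364225546994) (.leaf 1097 8364616022945)) (.node (.leaf 1046 8365025160418) (.leaf 1000 8365452844355)))) (.node (.node (.node (.leaf 961 8365897734115) (.leaf 922 8366359364283)) (.node (.leaf 886 8366839066713) (.leaf 853 8367336360795))) (.node (.node (.leaf 822 8367851552819) (.leaf 793 8368384516692)) (.node (.leaf 766 8368935799134) (.leaf 740 8369504806279))))) (.node (.node (.node (.node (.leaf 716 8370090927951) (.leaf 691 8370697019514)) (.node (.leaf 669 8371321275547) (.leaf 647 8371966183230))) (.node (.node (.leaf 626 8372631471036) (.leaf 605 8373317248706)) (.node (.leaf 585 8374024302353) (.leaf 567 8374753377601)))) (.node (.node (.node (.leaf 548 8375507207265) (.leaf 530 8376283089034)) (.node (.leaf 511 8377085010975) (.leaf 495 8377911678821))) (.node (.node (.leaf 477 8378768916941) (.leaf 460 8379654113723)) (.node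 (.leaf 443 8380570037044) (.leaf 427 8381518026458))))))
def ht20 : BT := (.node (.node (.node (.node (.node (.leaf 411 8382502326282) (.leaf 395 8383524247119)) (.node (.leaf 379 8384586668819) (.leaf 363 8385692190079))) (.node (.node (.leaf 347 8386843734576) (.leaf 332 8388044501902)) (.node (.leaf 316 8389302168204) (.leaf 300 8390618106239)))) (.node (.node (.node (.leaf 286 8391997704614) (.leaf 269 8393458440491)) (.node (.leaf 255 8394992883364) (.leaf 238 8396627591512))) (.node (.node (.leaf 224 8398355641248) (.leaf 208 8400212977391)) (.node (.leaf 192 8402202697205) (.leaf 177 8404345050885))))) (.node (.node (.node (.node (.leaf 161 8406679624539) (.leaf 146 8409229505802)) (.node (.leaf 130 8412060286414) (.leaf 115 8415218837996))) (.node (.node (.leaf 99 8418826705644) (.leaf 83 8422995907956)) (.node (.leaf 68 8427931548106) (.leaf 52 8434086191069)))) (.node (.node (.node (.leaf 36 8442135857035) (.leaf 20 8453784267892)) (.node (.leaf 961 8474866503670) (.leaf 1290 8487134156776))) (.node (.node (.leaf 1201 8487448034562) (.leaf 1121 8487784128378)) (.node (.leaf 1052 8488142576744)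 (.leaf 993 8488522833423))))))
def ht21 : BT := (.node (.node (.node (.node (.node (.leaf 943 8488924045480) (.leaf 898 8489345910615)) (.node (.leaf 858 8489787539955) (.leaf 820 8490247637445))) (.node (.node (.leaf 786 8490728035838) (.leaf 752 8491229175806)) (.node (.leaf 723 8491749309534) (.leaf 695 8492290352823)))) (.node (.node (.node (.leaf 668 8492852315651) (.leaf 644 8493434964739)) (.node (.leaf 620 8494038901921) (.leaf 597 8494663780366))) (.node (.node (.leaf 575 8495311677871) (.leaf 554 8495982947214)) (.node (.leaf 534 8496678776090) (.leaf 514 8497400042862))))) (.node (.node (.node (.node (.leaf 495 8498147463618) (.leaf 476 8498922378705)) (.node (.leaf 458 8499725513529) (.leaf 441 8500559138546))) (.node (.node (.leaf 424 8501425927294) (.leaf 406 8502326732024)) (.node (.leaf 390 8503261031608) (.leaf 374 8504235613427)))) (.node (.node (.node (.leaf 357 8505252978207) (.leaf 341 8506312989968)) (.node (.leaf 326 8507421042382) (.leaf 310 8508584609954))) (.node (.node (.leaf 294 8509804418329) (.leaf 279 8511085208478)) (.node (.leaf 264 8512437328504) (.leaf 248 8513868713434))))))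
def ht22 : BT := (.node (.node (.node (.node (.node (.leaf 233 8515381674510) (.leaf 218 8516992597620)) (.node (.leaf 203 8518714358426) (.leaf 188 8520562972297))) (.node (.node (.leaf 173 8522558413727) (.leaf 158 8524725908629)) (.node (.leaf 143 8527097442059) (.leaf 128 8529715533914)))) (.node (.node (.node (.leaf 114 8532637831900) (.leaf 98 8535977606278)) (.node (.leaf 83 8539795911268) (.leaf 68 8544300770154))) (.node (.node (.leaf 53 8549793249540) (.leaf 39 8556827671449)) (.node (.leaf 23 8566996032054) (.leaf 923 8583943917974))))) (.node (.node (.node (.node (.leaf 1725 8601466566857) (.leaf 1449 8601680654032)) (.node (.leaf 1278 8601934050866) (.leaf 1162 8602219865941))) (.node (.node (.leaf 1067 8602532918911) (.leaf 990 8602872436677)) (.node (.leaf 925 8603237580332) (.leaf 870 8603626901716)))) (.node (.node (.node (.leaf 823 8604039185085) (.leaf 781 8604475094746)) (.node (.leaf 742 8604933101702) (.leaf 706 8605413713411))) (.node (.node (.leaf 674 8605917185136) (.leaf 644 8606444493068)) (.node (.leaf 615 8606995348756) (.leaf 589 8607569831453))))))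
def ht23 : BT := (.node (.node (.node (.node (.node (.leaf 564 8608169262679) (.leaf 540 8608794308975)) (.node (.leaf 519 8609444884358) (.leaf 496 8610123692066))) (.node (.node (.leaf 476 8610829115413) (.leaf 456 8611565582001)) (.node (.leaf 436 8612333614182) (.leaf 418 8613133130638)))) (.node (.node (.node (.leaf 399 8613969264740) (.leaf 382 8614841304978)) (.node (.leaf 364 8615754560012) (.leaf 347 8616708755060))) (.node (.node (.leaf 331 8617708854721) (.leaf 314 8618760608752)) (.node (.leaf 297 8619864556394) (.leaf 282 8621023593545))))) (.node (.node (.node (.node (.leaf 267 8622250424953) (.leaf 250 8623551712114)) (.node (.leaf 236 8624925762528) (.leaf 220 8626397317497))) (.node (.node (.leaf 204 8627966260630) (.leaf 190 8629643471722)) (.node (.leaf 174 8631463078399) (.leaf 160 8633426838621)))) (.node (.node (.node (.leaf 145 8635585049267) (.leaf 130 8637963094853)) (.node (.leaf 115 8640608919069) (.leaf 101 8643587497068))) (.node (.node (.leaf 85 8647029782852) (.leaf 71 8651005241727)) (.node (.leaf 57 8655834536824) (.leaf 42 8662014412688))))))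
def ht24 : BT := (.node (.node (.node (.node (.node (.leaf 27 8670426123040) (.leaf 425 8683619027004)) (.node (.leaf 3665 8705673264135) (.leaf 1805 8705751045614))) (.node (.node (.leaf 1403 8705938511669) (.leaf 1201 8706177010930)) (.node (.leaf 1072 8706454655782) (.leaf 971 8706764359081)))) (.node (.node (.node (.leaf 892 8707105135492) (.leaf 828 8707474744111)) (.node (.leaf 774 8707872376389) (.leaf 726 8708297288077))) (.node (.node (.leaf 685 8708748863519) (.leaf 648 8709225847320)) (.node (.leaf 614 8709730105863) (.leaf 582 8710261363066))))) (.node (.node (.node (.node (.leaf 554 8710819877999) (.leaf 526 8711407518886)) (.node (.leaf 501 8712023657663) (.leaf 477 8712670296601))) (.node (.node (.leaf 455 8713348307181) (.leaf 432 8714060527270)) (.node (.leaf 413 8714804711305) (.leaf 392 8715587510679)))) (.node (.node (.node (.leaf 374 8716406660353) (.leaf 355 8717269740399)) (.node (.leaf 336 8718176119046) (.leaf 320 8719127566699))) (.node (.node (.leaf 302 8720135126383) (.leaf 285 8721196097306)) (.node (.leaf 269 8722317450723) (.leaf 253 8723507792265))))))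
def ht25 : BT := (.node (.node (.node (.node (.node (.leaf 237 8724773557818) (.leaf 221 8726122472704)) (.node (.leaf 206 8727562236321) (.leaf 191 8729111419529))) (.node (.node (.leaf 175 8730785006126) (.leaf 161 8732590967550)) (.node (.leaf 146 8734573074780) (.leaf 132 8736752016187)))) (.node (.node (.node (.leaf 117 8739186938264) (.leaf 102 8741919702191)) (.node (.leaf 88 8745025811648) (.leaf 73 8748660039427))) (.node (.node (.leaf 59 8752970591032) (.leaf 45 8758344659132)) (.node (.leaf 31 8765494122351) (.leaf 16 8776290361959))))) (.node (.node (.node (.node (.leaf 1154 8796994487579) (.leaf 1490 8801147605657)) (.node (.leaf 1873 8800979120103) (.leaf 3267 8800929798623))) (.node (.node (.leaf 1647 8800987126691) (.leaf 1247 8801176677627)) (.node (.leaf 1059 8801424005597) (.leaf 932 8801713607232)))) (.node (.node (.node (.leaf 839 8802042147752) (.leaf 767 8802405984741)) (.node (.leaf 708 8802802790998) (.leaf 658 8803232415760))) (.node (.node (.leaf 614 8803693867423) (.leaf 577 8804186019423)) (.node (.leaf 542 8804711103980) (.leaf 510 8805269167318))))))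
def ht26 : BT := (.node (.node (.node (.node (.node (.leaf 480 8805860930072) (.leaf 454 8806486496165)) (.node (.leaf 429 8807149936925) (.leaf 405 8807852123367))) (.node (.node (.leaf 382 8808594420608) (.leaf 361 8809378644002)) (.node (.leaf 340 8810209335826) (.leaf 321 8811087973231)))) (.node (.node (.node (.leaf 302 8812021297478) (.leaf 283 8813011485347)) (.node (.leaf 266 8814062530195) (.leaf 249 8815186514348))) (.node (.node (.leaf 231 8816390789072) (.leaf 215 8817677138453)) (.node (.leaf 198 8819065409369) (.leaf 183 8820560942269))))) (.node (.node (.node (.node (.leaf 167 8822194880503) (.leaf 151 8823980106477)) (.node (.leaf 136 8825941197169) (.leaf 121 8828126719285))) (.node (.node (.leaf 106 8830589000126) (.leaf 91 8833402018302)) (.node (.leaf 76 8836674462558) (.leaf 62 8840573426334)))) (.node (.node (.node (.leaf 46 8845475151932) (.leaf 33 8851749118890)) (.node (.leaf 18 8861387139291) (.leaf 760 8881357078137))) (.node (.node (.leaf 997 8885002148055) (.leaf 1042 8884720721125)) (.node (.leaf 1103 8884456115527) (.leaf 1201 8884213114063))))))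
def ht27 : BT := (.node (.node (.node (.node (.node (.leaf 1365 8883999517022) (.leaf 1786 8883834854731)) (.node (.leaf 2751 8883808784455) (.leaf 1335 8883903678869))) (.node (.node (.leaf 1048 8884120544006) (.leaf 889 8884394009220)) (.node (.leaf 783 8884715723421) (.leaf 705 8885080164545)))) (.node (.node (.node (.leaf 641 8885484650606) (.leaf 590 8885926819241)) (.node (.leaf 546 8886407975027) (.leaf 508 8886927352997))) (.node (.node (.leaf 473 8887485371406) (.leaf 441 8888083320831)) (.node (.leaf 413 8888722013192) (.leaf 387 8889405236363))))) (.node (.node (.node (.node (.leaf 361 8890135887812) (.leaf 339 8890912871013)) (.node (.leaf 316 8891745412855) (.leaf 296 8892632340733))) (.node (.node (.leaf 276 8893583973951) (.leaf 256 8894604148262)) (.node (.leaf 238 8895696279446) (.leaf 220 8896874968246)))) (.node (.node (.node (.leaf 203 8898148302683) (.leaf 186 8899533070843)) (.node (.leaf 169 8901043636455) (.leaf 153 8902697408106))) (.node (.node (.leaf 137 8904529038191) (.leaf 121 8906573428700)) (.node (.leaf 106 8908876124813) (.leaf 90 8911527312584))))))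
def ht28 : BT := (.node (.node (.node (.node (.node (.leaf 76 8914603406274) (.leaf 60 8918356179214)) (.node (.leaf 45 8922991474013) (.leaf 31 8929127331398))) (.node (.node (.leaf 16 8938588091271) (.leaf 725 8959152541857)) (.node (.leaf 788 8958801657876) (.leaf 806 8958458937894)))) (.node (.node (.node (.leaf 827 8958125635026) (.leaf 851 8957802201833)) (.node (.leaf 879 8957489593585) (.leaf 918 8957190870087))) (.node (.node (.leaf 972 8956908831797) (.leaf 1048 8956648147587)) (.node (.leaf 1173 8956415458509) (.leaf 1446 8956225666734))))) (.node (.node (.node (.node (.leaf 2486 8956169992271) (.leaf 1251 8956236964684)) (.node (.leaf 938 8956455302949) (.leaf 784 8956743120424))) (.node (.node (.leaf 683 8957086788246) (.leaf 609 8957480214904)) (.node (.leaf 551 8957920654515) (.leaf 502 8958407033580)))) (.node (.node (.node (.leaf 462 8958938738818) (.leaf 426 8959517989363)) (.node (.leaf 393 8960145473508) (.leaf 364 8960823093914))) (.node (.node (.leaf 337 8961555706862) (.leaf 312 8962345944911)) (.node (.leaf 289 8963198945925) (.leaf 267 8964121276519))))))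
def ht29 : BT := (.node (.node (.node (.node (.node (.leaf 245 8965119329469) (.leaf 226 8966196395270)) (.node (.leaf 207 8967371490505) (.leaf 189 8968655015023))) (.node (.node (.leaf 170 8970066483073) (.leaf 154 8971613794961)) (.node (.leaf 136 8973348509838) (.leaf 121 8975281688390)))) (.node (.node (.node (.leaf 103 8977507170257) (.leaf 88 8980037239759)) (.node (.leaf 73 8983048259708) (.leaf 57 8986759464458))) (.node (.node (.leaf 41 8991492458219) (.leaf 26 8997953266481)) (.node (.leaf 196 9008505984689) (.leaf 656 9022925854221))))) (.node (.node (.node (.node (.leaf 664 9022530541167) (.leaf 673 9022140657827)) (.node (.leaf 682 9021757283324) (.leaf 693 9021380440343))) (.node (.node (.leaf 705 9021010586129) (.leaf 720 9020647988598)) (.node (.leaf 733 9020292754704) (.leaf 753 9019947614139)))) (.node (.node (.node (.leaf 778 9019613564522) (.leaf 809 9019293024200)) (.node (.leaf 850 9018988635457) (.leaf 908 9018703841582))) (.node (.node (.leaf 995 9018444422572) (.leaf 1179 9018224837972)) (.node (.leaf 2158 9018114537321) (.leaf 1268 9018140124600))))))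
def ht30 : BT := (.node (.node (.node (.node (.node (.leaf 866 9018347604306) (.leaf 703 9018644312661)) (.node (.leaf 604 9019007307116) (.leaf 533 9019429956650))) (.node (.node (.leaf 476 9019909247159) (.leaf 430 9020443561840)) (.node (.leaf 391 9021035075035) (.leaf 356 9021685027871)))) (.node (.node (.node (.leaf 326 9022395954946) (.leaf 298 9023175301219)) (.node (.leaf 272 9024026949963) (.leaf 248 9024956853680))) (.node (.node (.leaf 227 9025974303404) (.leaf 205 9027097827557)) (.node (.leaf 185 9028331612658) (.leaf 166 9029699018332))))) (.node (.node (.node (.node (.leaf 147 9031226530478) (.leaf 129 9032939842179)) (.node (.leaf 112 9034886779107) (.leaf 95 9037142285301))) (.node (.node (.leaf 79 9039801293697) (.leaf 62 9043060842979)) (.node (.leaf 46 9047171775103) (.leaf 29 9052817820667)))) (.node (.node (.node (.leaf 81 9061351006813) (.leaf 572 9076962282675)) (.node (.leaf 576 9076527800323) (.leaf 579 9076095357743))) (.node (.node (.leaf 584 9075666658415) (.leaf 589 9075242459962)) (.node (.leaf 594 9074823445616) (.leaf 601 9074408725665))))))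
def ht31 : BT := (.node (.node (.node (.node (.node (.leaf 608 9073999281089) (.leaf 616 9073595526902)) (.node (.leaf 625 9073197211416) (.leaf 633 9072805235003))) (.node (.node (.leaf 645 9072421316327) (.leaf 660 9072045534067)) (.node (.leaf 677 9071679432752) (.leaf 697 9071324905576)))) (.node (.node (.node (.leaf 724 9070983817453) (.leaf 758 9070658354587)) (.node (.leaf 806 9070352729235) (.leaf 885 9070074426996))) (.node (.node (.leaf 1041 9069837572263) (.leaf 1912 9069716782848)) (.node (.leaf 1101 9069742962265) (.leaf 744 9069971885802))))) (.node (.node (.node (.node (.leaf 600 9070301652671) (.leaf 512 9070708042127)) (.node (.leaf 447 9071185439637) (.leaf 396 9071731263400))) (.node (.node (.leaf 354 9072346437709) (.leaf 318 9073032679718)) (.node (.leaf 286 9073797143188) (.leaf 258 9074645733140)))) (.node (.node (.node (.leaf 231 9075590398463) (.leaf 208 9076636615784)) (.node (.leaf 185 9077809845817) (.leaf 163 9079122900499))) (.node (.node (.leaf 144 9080598351592) (.leaf 124 9082294279658)) (.node (.leaf 105 9084246428228) (.leaf 88 9086535128092))))))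
def ht32 : BT := (.node (.node (.node (.node (.node (.leaf 70 9089335724020) (.leaf 52 9092857002248)) (.node (.leaf 35 9097525001654) (.leaf 19 9104543278427))) (.node (.node (.leaf 451 9121102847781) (.leaf 509 9120630312979)) (.node (.leaf 512 9120159958699) (.leaf 513 9119692869820)))) (.node (.node (.node (.leaf 516 9119227501534) (.leaf 519 9118765064512)) (.node (.leaf 521 9118306632850) (.leaf 526 9117850395966))) (.node (.node (.leaf 529 9117398550026) (.leaf 533 9116950598406)) (.node (.leaf 538 9116506607612) (.leaf 543 9116066891558))))) (.node (.node (.node (.node (.leaf 547 9115630864386) (.leaf 553 9115200237147)) (.node (.leaf 560 9114775642963) (.leaf 569 9114356960316))) (.node (.node (.leaf 578 9113945669568) (.leaf 589 9113542519332)) (.node (.leaf 602 9113148573939) (.leaf 617 9112764369880)))) (.node (.node (.node (.leaf 636 9112391799695) (.leaf 661 9112034378979)) (.node (.leaf 698 9111694893067) (.leaf 751 9111380515916))) (.node (.node (.leaf 847 9111101324587) (.leaf 1109 9110885234067)) (.node (.leaf 1570 9110859629270) (.leaf 728 9111011541370))))))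
def ht33 : BT := (.node (.node (.node (.node (.node (.leaf 554 9111337374558) (.leaf 458 9111761756320)) (.node (.leaf 392 9112274503624) (.leaf 340 9112874976451))) (.node (.node (.leaf 298 9113564080312) (.leaf 262 9114350410542)) (.node (.leaf 231 9115243057440) (.leaf 202 9116259070077)))) (.node (.node (.node (.leaf 177 9117412128177) (.leaf 152 9118739013785)) (.node (.leaf 131 9120263245786) (.leaf 109 9122070975952))) (.node (.node (.leaf 88 9124228769203) (.leaf 68 9126877523534)) (.node (.leaf 50 9130281948009) (.leaf 30 9135200506964))))) (.node (.node (.node (.node (.leaf 167 9143390078183) (.leaf 460 9153420133234)) (.node (.leaf 461 9152917526020) (.leaf 463 9152415946560))) (.node (.node (.leaf 464 9151916491584) (.leaf 464 9151419124852)) (.node (.leaf 467 9150922563829) (.leaf 468 9150429415814)))) (.node (.node (.node (.leaf 471 9149937769241) (.leaf 472 9149449620309)) (.node (.leaf 476 9148962787225) (.leaf 477 9148480337651))) (.node (.node (.leaf 480 9148000583248) (.leaf 484 9147522892710)) (.node (.leaf 485 9147049129852) (.leaf 489 9146578740577))))))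
def ht34 : BT := (.node (.node (.node (.node (.node (.leaf 493 9146112753284) (.leaf 498 9145650855639)) (.node (.leaf 503 9145193734528) (.leaf 508 9144742678396))) (.node (.node (.leaf 516 9144296429561) (.leaf 522 9143857969649)) (.node (.leaf 530 9143425580417) (.leaf 540 9143001952777)))) (.node (.node (.node (.leaf 553 9142588132763) (.leaf 569 9142185690941)) (.node (.leaf 588 9141798234807) (.leaf 617 9141427310884))) (.node (.node (.leaf 656 9141080056140) (.leaf 721 9140763642790)) (.node (.leaf 872 9140500222270) (.leaf 1468 9140414139548))))) (.node (.node (.node (.node (.leaf 710 9140502309837) (.leaf 506 9140828092446)) (.node (.leaf 407 9141278049521) (.leaf 339 9141837568050))) (.node (.node (.leaf 289 9142505871782) (.leaf 247 9143293421628)) (.node (.leaf 212 9144209619321) (.leaf 182 9145276670653)))) (.node (.node (.node (.leaf 153 9146531031708) (.leaf 128 9148002201865)) (.node (.leaf 104 9149773878687) (.leaf 82 9151953514452))) (.node (.node (.leaf 59 9154778175202) (.leaf 39 9158597158994)) (.node (.leaf 52 9164872283469) (.leaf 420 9176398790980))))))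
def ht35 : BT := (.node (.node (.node (.node (.node (.leaf 421 9175865042508) (.leaf 422 9175332458462)) (.node (.leaf 423 9174800951051) (.leaf 424 9174269142893))) (.node (.node (.leaf 424 9173739700031) (.leaf 425 9173212061532)) (.node (.leaf 426 9172686455694) (.leaf 428 9172161561718)))) (.node (.node (.node (.leaf 429 9171638748291) (.leaf 430 9171118266741)) (.node (.leaf 431 9170600346461) (.leaf 434 9170082966272))) (.node (.node (.leaf 434 9169569564637) (.leaf 436 9169057137476)) (.node (.leaf 439 9168546354194) (.leaf 440 9168039727716))))) (.node (.node (.node (.node (.leaf 443 9167535260845) (.leaf 445 9167034832064)) (.node (.leaf 449 9166536858467) (.leaf 451 9166044237932))) (.node (.node (.leaf 456 9165554391894) (.leaf 459 9165069884509)) (.node (.leaf 463 9164589683957) (.leaf 469 9164114524189)))) (.node (.node (.node (.leaf 474 9163646921666) (.leaf 482 9163185602079)) (.node (.leaf 491 9162732673776) (.leaf 501 9162290283781))) (.node (.node (.leaf 515 9161858588479) (.leaf 531 9161441456941)) (.node (.leaf 553 9161041178884) (.leaf 587 9160663935500))))))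
def ht36 : BT := (.node (.node (.node (.node (.node (.leaf 645 9160319853620) (.leaf 778 9160033840989)) (.node (.leaf 1281 9159945117411) (.leaf 602 9160051468454))) (.node (.node (.leaf 424 9160424210021) (.leaf 334 9160947078864)) (.node (.leaf 273 9161609465378) (.leaf 226 9162419457748)))) (.node (.node (.node (.leaf 188 9163396193320) (.leaf 154 9164578148365)) (.node (.leaf 124 9166011135209) (.leaf 97 9167783533664))) (.node (.node (.leaf 72 9170060978570) (.leaf 47 9173197942669)) (.node (.leaf 23 9178010335459) (.leaf 352 9188235696931))))) (.node (.node (.node (.node (.leaf 388 9189096016218) (.leaf 389 9188531992349)) (.node (.leaf 389 9187969114170) (.leaf 389 9187406609170))) (.node (.node (.leaf 389 9186845721894) (.leaf 390 9186285166857)) (.node (.leaf 391 9185725138170) (.leaf 392 9185165955852)))) (.node (.node (.node (.leaf 392 9184608934729) (.leaf 392 9184054309895)) (.node (.leaf 394 9183499140369) (.leaf 394 9182946369348))) (.node (.node (.leaf 395 9182394140719) (.leaf 396 9181842366160)) (.node (.leaf 396 9181293559633) (.leaf 398 9180745529811))))))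
def ht37 : BT := (.node (.node (.node (.node (.node (.leaf 399 9180199581256) (.leaf 400 9179656103922)) (.node (.leaf 402 9179113703863) (.leaf 403 9178574251741))) (.node (.node (.leaf 405 9178036864752) (.leaf 406 9177503421047)) (.node (.leaf 409 9176970137117) (.leaf 410 9176440955469)))) (.node (.node (.node (.leaf 412 9175915811285) (.leaf 416 9175392809970)) (.node (.leaf 418 9174875443473) (.leaf 423 9174361220331))) (.node (.node (.leaf 426 9173853414900) (.leaf 431 9173351155258)) (.node (.leaf 437 9172855162979) (.leaf 443 9172366115093))))) (.node (.node (.node (.node (.leaf 450 9171886465270) (.leaf 461 9171416595862)) (.node (.leaf 474 9170960253204) (.leaf 492 9170520875049))) (.node (.node (.leaf 518 9170103787843) (.leaf 560 9169719310821)) (.node (.leaf 654 9169387534280) (.leaf 1109 9169239647957)))) (.node (.node (.node (.leaf 550 9169309600557) (.leaf 360 9169712847557)) (.node (.leaf 271 9170315369562) (.leaf 212 9171110934102))) (.node (.node (.leaf 166 9172132902818) (.leaf 127 9173443454287)) (.node (.leaf 93 9175153459363) (.leaf 61 9177504040186))))))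
def ht38 : BT := (.node (.node (.node (.node (.node (.leaf 33 9181024382244) (.leaf 271 9188664461161)) (.node (.leaf 362 9191127859013) (.leaf 362 9190534591931))) (.node (.node (.leaf 362 9189942121443) (.leaf 362 9189350836436)) (.node (.leaf 362 9188760661334) (.leaf 363 9188169995675)))) (.node (.node (.node (.leaf 362 9187582202129) (.leaf 364 9186992374969)) (.node (.leaf 363 9186405362791) (.leaf 364 9185817886709))) (.node (.node (.leaf 364 9185231986147) (.leaf 365 9184645102521)) (.node (.leaf 365 9184059086395) (.leaf 365 9183474862337))))) (.node (.node (.node (.node (.leaf 365 9182892562975) (.leaf 367 9182309162896)) (.node (.leaf 367 9181727966346) (.leaf 367 9181148885568))) (.node (.node (.leaf 369 9180569204463) (.leaf 369 9179991911274)) (.node (.leaf 369 9179417414528) (.leaf 371 9178841918142)))) (.node (.node (.node (.leaf 371 9178268947651) (.leaf 372 9177698152280)) (.node (.leaf 374 9177128169516) (.leaf 375 9176560899900))) (.node (.node (.leaf 376 9175996508876) (.leaf 378 9175433878639)) (.node (.leaf 380 9174873840180) (.leaf 381 9174318369575))))))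
def ht39 : BT := (.node (.node (.node (.node (.node (.leaf 384 9173765420536) (.leaf 387 9173214526431)) (.node (.leaf 388 9172670171704) (.leaf 393 9172128532166))) (.node (.node (.leaf 396 9171593732193) (.leaf 401 9171065282977)) (.node (.leaf 407 9170544326772) (.leaf 414 9170032532889)))) (.node (.node (.node (.leaf 423 9169532326639) (.leaf 435 9169046622933)) (.node (.leaf 452 9168577169004) (.leaf 477 9168133996581))) (.node (.node (.leaf 526 9167730609536) (.leaf 673 9167411694276)) (.node (.leaf 856 9167379107841) (.leaf 356 9167649148290))))) (.node (.node (.node (.node (.leaf 244 9168252959622) (.leaf 178 9169122738471)) (.node (.leaf 126 9170331664940) (.leaf 85 9172010387743))) (.node (.node (.leaf 47 9174583108480) (.leaf 182 9179533075052)) (.node (.leaf 339 9183776675911) (.leaf 339 9183155998434)))) (.node (.node (.node (.leaf 339 9182535702735) (.leaf 339 9181915656336)) (.node (.leaf 339 9181295978676) (.leaf 339 9180676863787))) (.node (.node (.leaf 340 9180056503704) (.leaf 339 9179438339175)) (.node (.leaf 339 9178820865198) (.leaf 340 9178200628063))))))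
def ht40 : BT := (.node (.node (.node (.node (.node (.leaf 339 9177582816421) (.leaf 340 9176963935745)) (.node (.leaf 339 9176347732343) (.leaf 340 9175730364828))) (.node (.node (.leaf 340 9175113903326) (.leaf 340 9174498400358)) (.node (.leaf 341 9173882031840) (.leaf 341 9173266762625)))) (.node (.node (.node (.leaf 341 9172652848876) (.leaf 341 9172039343305)) (.node (.leaf 341 9171425831236) (.leaf 341 9170813960909))) (.node (.node (.leaf 342 9170201792531) (.leaf 343 9169589390052)) (.node (.leaf 342 9168980683257) (.leaf 344 9168370476662))))) (.node (.node (.node (.node (.leaf 344 9167762621936) (.leaf 344 9167157164912)) (.node (.leaf 346 9166550795990) (.leaf 346 9165947202032))) (.node (.node (.leaf 346 9165345129194) (.leaf 348 9164743297915)) (.node (.leaf 348 9164145436659) (.leaf 350 9163548106091)))) (.node (.node (.node (.leaf 351 9162953959408) (.leaf 353 9162362026606)) (.node (.leaf 354 9161774301301) (.leaf 356 9161190178027))) (.node (.node (.leaf 359 9160609463543) (.leaf 362 9160033223458)) (.node (.leaf 365 9159461012119) (.leaf 368 9158897124448))))))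
def ht41 : BT := (.node (.node (.node (.node (.node (.leaf 374 9158340054906) (.leaf 381 9157792654809)) (.node (.leaf 390 9157258721975) (.leaf 403 9156742351317))) (.node (.node (.leaf 424 9156251373959) (.leaf 463 9155802915980)) (.node (.leaf 606 9155450853019) (.leaf 648 9155433528756)))) (.node (.node (.node (.leaf 250 9155823866032) (.leaf 152 9156678027802)) (.node (.leaf 86 9158081963775) (.leaf 74 9160575835870))) (.node (.node (.leaf 321 9165643618116) (.leaf 321 9164997001110)) (.node (.leaf 320 9164352447583) (.leaf 321 9163705559300))))) (.node (.node (.node (.node (.leaf 321 9163058544424) (.leaf 320 9162413443307)) (.node (.leaf 320 9161766588776) (.leaf 320 9161119998626))) (.node (.node (.leaf 320 9160473470357) (.leaf 320 9159827133612)) (.node (.leaf 320 9159180925262) (.leaf 320 9158534800272)))) (.node (.node (.node (.leaf 321 9157887113517) (.leaf 320 9157241635297)) (.node (.leaf 320 9156596464422) (.leaf 320 9155951437991))) (.node (.node (.leaf 320 9155306271005) (.leaf 320 9154660598107)) (.node (.leaf 320 9154015381169) (.leaf 321 9153368648713))))))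
def ht42 : BT := (.node (.node (.node (.node (.node (.leaf 320 9152724569845) (.leaf 320 9152081236260)) (.node (.leaf 321 9151436607152) (.leaf 321 9150792720635))) (.node (.node (.leaf 321 9150149706475) (.leaf 321 9149507347241)) (.node (.leaf 321 9148866283427) (.leaf 321 9148224681073)))) (.node (.node (.node (.leaf 322 9147581932263) (.leaf 321 9146942452450)) (.node (.leaf 322 9146302494432) (.leaf 323 9145662327918))) (.node (.node (.leaf 323 9145024028305) (.leaf 323 9144387841915)) (.node (.leaf 324 9143752184328) (.leaf 325 9143117110053))))) (.node (.node (.node (.node (.leaf 325 9142484930525) (.leaf 326 9141853402769)) (.node (.leaf 327 9141222758029) (.leaf 327 9140596331305))) (.node (.node (.leaf 329 9139971044633) (.leaf 331 9139347656324)) (.node (.leaf 332 9138729157820) (.leaf 334 9138114914548)))) (.node (.node (.node (.leaf 337 9137504209247) (.leaf 340 9136899370714)) (.node (.leaf 344 9136301699914) (.leaf 349 9135712836216))) (.node (.node (.leaf 355 9135136216155) (.leaf 367 9134573700407)) (.node (.leaf 383 9134038371985) (.leaf 418 9133546928946))))))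
def ht43 : BT := (.node (.node (.node (.node (.node (.leaf 642 9133194507795) (.leaf 382 9133201722733)) (.node (.leaf 159 9133810270234) (.leaf 70 9135150699680))) (.node (.node (.leaf 237 9138628916286) (.leaf 304 9139341431768)) (.node (.leaf 303 9138667002335) (.leaf 303 9137992323545)))) (.node (.node (.node (.leaf 303 9137317162535) (.leaf 303 9136641432634)) (.node (.leaf 303 9135965452252) (.leaf 303 9135289332835))) (.node (.node (.leaf 303 9134612785304) (.leaf 302 9133938127167)) (.node (.leaf 303 9133260334411) (.leaf 302 9132584384710))))) (.node (.node (.node (.node (.leaf 302 9131906927561) (.leaf 302 9131228418161)) (.node (.leaf 301 9130552033195) (.leaf 302 9129873016469))) (.node (.node (.leaf 301 9129195993173) (.leaf 301 9128518700598)) (.node (.leaf 302 9127838686278) (.leaf 301 9127160572775)))) (.node (.node (.node (.leaf 301 9126481900506) (.leaf 301 9125802970235)) (.node (.leaf 301 9125124044399) (.leaf 300 9124445632474))) (.node (.node (.leaf 300 9123766684943) (.leaf 301 9123085225318)) (.node (.leaf 300 9122405890985) (.leaf 300 9121726477358))))))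
def ht44 : BT := (.node (.node (.node (.node (.node (.leaf 300 9121046938333) (.leaf 300 9120367219238)) (.node (.leaf 300 9119687576151) (.leaf 300 9119007826875))) (.node (.node (.leaf 300 9118328010130) (.leaf 300 9117648477450)) (.node (.leaf 300 9116967371064) (.leaf 299 9116288660962)))) (.node (.node (.node (.leaf 300 9115608067620) (.leaf 300 9114927783137)) (.node (.leaf 300 9114248059868) (.leaf 300 9113568850057))) (.node (.node (.leaf 300 9112890369666) (.leaf 300 9112212855681)) (.node (.leaf 301 9111534173299) (.leaf 300 9110859203485))))) (.node (.node (.node (.node (.leaf 301 9110183015177) (.leaf 302 9109505547060)) (.node (.leaf 301 9108832810424) (.leaf 303 9108158036207))) (.node (.node (.leaf 303 9107486795740) (.leaf 304 9106817839164)) (.node (.leaf 305 9106152357328) (.leaf 307 9105489656701)))) (.node (.node (.node (.leaf 309 9104831886296) (.leaf 312 9104180861717)) (.node (.leaf 317 9103539407574) (.leaf 325 9102912455186))) (.node (.node (.leaf 342 9102316530547) (.leaf 437 9101832610443)) (.node (.leaf 243 9101831273142) (.leaf 257 9103275017786))))))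
def ht45 : BT := (.node (.node (.node (.node (.node (.leaf 289 9102672232728) (.leaf 290 9101968915069)) (.node (.leaf 289 9101267246594) (.leaf 289 9100565017806))) (.node (.node (.leaf 289 9099862014393) (.leaf 288 9099159579757)) (.node (.leaf 288 9098455460833) (.leaf 288 9097750792614)))) (.node (.node (.node (.leaf 288 9097045136746) (.leaf 288 9096338780028)) (.node (.leaf 287 9095634063037) (.leaf 287 9094928400650))) (.node (.node (.leaf 287 9094222065494) (.leaf 287 9093514939526)) (.node (.leaf 287 9092807041711) (.leaf 286 9092100719346))))) (.node (.node (.node (.node (.leaf 286 9091392440804) (.leaf 286 9090682351736)) (.node (.leaf 286 9089971421790) (.leaf 285 9089262285478))) (.node (.node (.leaf 285 9088552497386) (.leaf 285 9087841666287)) (.node (.leaf 285 9087129886159) (.leaf 285 9086417108216)))) (.node (.node (.node (.leaf 284 9085705982017) (.leaf 284 9084993750033)) (.node (.leaf 284 9084280676065) (.leaf 284 9083565737503))) (.node (.node (.leaf 283 9082851674254) (.leaf 283 9082136535758)) (.node (.leaf 283 9081420576388) (.leaf 282 9080706146881))))))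
def ht46 : BT := (.node (.node (.node (.node (.node (.leaf 283 9079987789516) (.leaf 282 9079270765695)) (.node (.leaf 282 9078552900116) (.leaf 282 9077834105585))) (.node (.node (.leaf 281 9077116609040) (.leaf 281 9076398091554)) (.node (.leaf 281 9075677433928) (.leaf 281 9074955080738)))) (.node (.node (.node (.leaf 280 9074233930084) (.leaf 280 9073511479657)) (.node (.leaf 279 9072790131864) (.leaf 280 9072064719660))) (.node (.node (.leaf 279 9071340421418) (.leaf 278 9070617112606)) (.node (.leaf 279 9069889392023) (.leaf 278 9069162613195))))) (.node (.node (.node (.node (.leaf 277 9068436388882) (.leaf 277 9067706444799)) (.node (.leaf 277 9066973402335) (.leaf 275 9066242830481))) (.node (.node (.leaf 275 9065508778039) (.leaf 275 9064770823398)) (.node (.leaf 273 9064032984527) (.leaf 272 9063291483738)))) (.node (.node (.node (.leaf 271 9062544001037) (.leaf 268 9061791328498)) (.node (.leaf 264 9061025992262) (.leaf 255 9060233668806))) (.node (.node (.leaf 221 9059320040068) (.leaf 221 9058149061671)) (.node (.leaf 277 9057421750393) (.leaf 277 9056693490655))))))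
def ht47 : BT := (.node (.node (.node (.node (.node (.leaf 277 9055964473950) (.leaf 277 9055234368019)) (.node (.leaf 276 9054505892830) (.leaf 276 9053776300740))) (.node (.node (.leaf 276 9053045661039) (.leaf 276 9052313802735)) (.node (.leaf 276 9051581019440) (.leaf 275 9050849428756)))) (.node (.node (.node (.leaf 275 9050115099666) (.leaf 275 9049379465873)) (.node (.leaf 274 9048645423677) (.leaf 274 9047910544229))) (.node (.node (.leaf 274 9047174290882) (.leaf 274 9046436763827)) (.node (.leaf 273 9045700814633) (.leaf 273 9044963611990))))) (.node (.node (.node (.node (.leaf 273 9044224972148) (.leaf 273 9043485024034)) (.node (.leaf 272 9042746069145) (.leaf 272 9042004552403))) (.node (.node (.leaf 272 9041261403906) (.leaf 271 9040519634685)) (.node (.leaf 271 9039776451596) (.leaf 271 9039031842233)))) (.node (.node (.node (.leaf 271 9038285952210) (.leaf 270 9037541159732)) (.node (.leaf 270 9036794766717) (.leaf 269 9036049572223))) (.node (.node (.leaf 270 9035299592436) (.leaf 269 9034550032925)) (.node (.leaf 268 9033800376616) (.leaf 268 9033048980968))))))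
def ht48 : BT := (.node (.node (.node (.node (.node (.leaf 268 9032295648617) (.leaf 267 9031543264398)) (.node (.leaf 267 9030788810624) (.leaf 266 9030035027521))) (.node (.node (.leaf 266 9029278711091) (.leaf 266 9028519959135)) (.node (.leaf 265 9027761435632) (.leaf 265 9027000428288)))) (.node (.node (.node (.leaf 264 9026238700251) (.leaf 263 9025475310832)) (.node (.leaf 263 9024708861667) (.leaf 262 9023941636555))) (.node (.node (.leaf 262 9023170480593) (.leaf 261 9022398200599)) (.node (.leaf 259 9021627044545) (.leaf 260 9020847944456))))) (.node (.node (.node (.node (.leaf 258 9020069148852) (.leaf 257 9019286429718)) (.node (.leaf 255 9018502220453) (.leaf 255 9017708919544))) (.node (.node (.leaf 252 9016912600955) (.leaf 250 9016109317891)) (.node (.leaf 248 9015295565670) (.leaf 244 9014472936413)))) (.node (.node (.node (.leaf 240 9013633841094) (.leaf 233 9012775510049)) (.node (.leaf 225 9011876251277) (.leaf 209 9010914145959))) (.node (.node (.leaf 181 9009800501013) (.leaf 123 9008131429273)) (.node (.leaf 169 9005700643287) (.leaf 266 9004944470492))))))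
def ht49 : BT := (.node (.node (.node (.node (.node (.leaf 266 9004186835865) (.leaf 265 9003428986258)) (.node (.leaf 265 9002669854423) (.leaf 265 9001909160412))) (.node (.node (.leaf 265 9001147189982) (.leaf 264 9000386715872)) (.node (.leaf 264 8999624812100) (.leaf 263 8998864362065)))) (.node (.node (.node (.leaf 264 8998099696827) (.leaf 263 8997336036768)) (.node (.leaf 263 8996570580596) (.leaf 262 8995806011399))) (.node (.node (.leaf 262 8995038535200) (.leaf 262 8994269672214)) (.node (.leaf 261 8993502146059) (.leaf 262 8992729890652))))) (.node (.node (.node (.node (.leaf 260 8991961758371) (.leaf 261 8991188826762)) (.node (.leaf 260 8990416980917) (.leaf 260 8989643252502))) (.node (.node (.leaf 259 8988870390760) (.leaf 260 8988092434612)) (.node (.leaf 258 8987318029728) (.leaf 258 8986540269074)))) (.node (.node (.node (.leaf 258 8985760546668) (.leaf 258 8984978591592)) (.node (.leaf 257 8984197549023) (.leaf 257 8983413751901))) (.node (.node (.leaf 256 8982630476528) (.leaf 256 8981844792929)) (.node (.leaf 255 8981059416410) (.leaf 255 8980271051320))))))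
def ht50 : BT := (.node (.node (.node (.node (.node (.leaf 254 8979483099579) (.leaf 254 8978691966450)) (.node (.leaf 254 8977896309019) (.leaf 252 8977103388649))) (.node (.node (.leaf 252 8976307162781) (.leaf 252 8975507503052)) (.node (.leaf 251 8974706960958) (.leaf 250 8973905537603)))) (.node (.node (.node (.leaf 250 8973099710986) (.leaf 249 8972292456915)) (.node (.leaf 248 8971483408421) (.leaf 247 8970672184920))) (.node (.node (.leaf 246 8969858484648) (.leaf 245 8969039786726)) (.node (.leaf 245 8968214371232) (.leaf 243 8967388442957))))) (.node (.node (.node (.node (.leaf 241 8966561006860) (.leaf 241 8965724144663)) (.node (.leaf 239 8964883904802) (.leaf 237 8964038685683))) (.node (.node (.leaf 235 8963187002384) (.leaf 234 8962323414341)) (.node (.leaf 230 8961456433541) (.leaf 228 8960575068666)))) (.node (.node (.node (.leaf 225 8959678142788) (.leaf 220 8958766934827)) (.node (.leaf 215 8957834276046) (.leaf 209 8956871956032))) (.node (.node (.leaf 201 8955870192276) (.leaf 190 8954813847175)) (.node (.leaf 175 8953673751170) (.leaf 156 8952375340151))))))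
def ht51 : BT := (.node (.node (.node (.node (.node (.leaf 127 8950783149150) (.leaf 87 8948428044042)) (.node (.leaf 71 8943267725201) (.leaf 256 8942487347349))) (.node (.node (.leaf 257 8941702370328) (.leaf 256 8940918810959)) (.node (.leaf 256 8940133529811) (.leaf 256 8939345190214)))) (.node (.node (.node (.leaf 255 8938557908747) (.leaf 255 8937769159404)) (.node (.leaf 254 8936981854869) (.leaf 255 8936189603995))) (.node (.node (.leaf 254 8935398406592) (.leaf 253 8934608826374)) (.node (.leaf 254 8933814220897) (.leaf 253 8933020742582))))) (.node (.node (.node (.node (.leaf 253 8932225403717) (.leaf 252 8931430993490)) (.node (.leaf 252 8930632759112) (.leaf 251 8929835656763))) (.node (.node (.leaf 252 8929033155613) (.leaf 250 8928234882670)) (.node (.leaf 251 8927431340305) (.leaf 250 8926628834009)))) (.node (.node (.node (.leaf 250 8925824113860) (.leaf 249 8925020060218)) (.node (.leaf 249 8924213340094) (.leaf 249 8923404126021))) (.node (.node (.leaf 248 8922595127345) (.leaf 248 8921782511404)) (.node (.leaf 247 8920970431142) (.leaf 247 8920155476386))))))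
def ht52 : BT := (.node (.node (.node (.node (.node (.leaf 246 8919340870459) (.leaf 246 8918522919739)) (.node (.leaf 245 8917705333765) (.leaf 245 8916884605540))) (.node (.node (.leaf 244 8916063437080) (.leaf 244 8915238600392)) (.node (.leaf 243 8914413739360) (.leaf 243 8913584069699)))) (.node (.node (.node (.leaf 241 8912755860601) (.leaf 242 8911920021832)) (.node (.leaf 240 8911086698352) (.leaf 240 8910248263165))) (.node (.node (.leaf 239 8909407973250) (.leaf 238 8908565903868)) (.node (.leaf 238 8907718029761) (.leaf 236 8906871113322))))) (.node (.node (.node (.node (.leaf 236 8906017430544) (.leaf 234 8905163731295)) (.node (.leaf 234 8904302265214) (.leaf 232 8903438191671))) (.node (.node (.leaf 231 8902568286358) (.leaf 230 8901691840615)) (.node (.leaf 228 8900811178045) (.leaf 226 8899925463531)))) (.node (.node (.node (.leaf 225 8899029210910) (.leaf 222 8898128439320)) (.node (.leaf 220 8897216810274) (.leaf 218 8896291210909))) (.node (.node (.leaf 214 8895356576743) (.leaf 211 8894403426901)) (.node (.leaf 207 8893429562557) (.leaf 201 8892435255505))))))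
def ht53 : BT := (.node (.node (.node (.node (.node (.leaf 196 8891404881094) (.leaf 188 8890336685762)) (.node (.leaf 178 8889216948665) (.leaf 167 8888011225884))) (.node (.node (.leaf 152 8886677300000) (.leaf 131 8885143462610)) (.node (.leaf 105 8883207843029) (.leaf 71 8880324275746)))) (.node (.node (.node (.leaf 52 8873829814650) (.leaf 248 8873019584228)) (.node (.leaf 248 8872207623911) (.leaf 248 8871393665364))) (.node (.node (.leaf 247 8870581023234) (.leaf 247 8869766277631)) (.node (.leaf 246 8868951836069) (.leaf 247 8868132061083))))) (.node (.node (.node (.node (.leaf 246 8867313373437) (.leaf 245 8866496023570)) (.node (.leaf 245 8865676539908) (.leaf 245 8864855143700))) (.node (.node (.leaf 245 8864031835908) (.leaf 244 8863209499275)) (.node (.leaf 244 8862384940259) (.leaf 244 8861558140225)))) (.node (.node (.node (.leaf 243 8860730891895) (.leaf 243 8859900541414)) (.node (.leaf 242 8859071028434) (.leaf 242 8858239191983))) (.node (.node (.leaf 242 8857404913449) (.leaf 241 8856571539341)) (.node (.leaf 241 8855735248557) (.leaf 240 8854899758337))))))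
def ht54 : BT := (.node (.node (.node (.node (.node (.leaf 240 8854061395974) (.leaf 240 8853220028604)) (.node (.leaf 239 8852379293171) (.leaf 238 8851536952668))) (.node (.node (.leaf 238 8850691216892) (.leaf 238 8849841987109)) (.node (.leaf 237 8848993119812) (.leaf 236 8848144284951)))) (.node (.node (.node (.leaf 236 8847291789290) (.leaf 236 8846435827724)) (.node (.leaf 235 8845578922067) (.leaf 234 8844721440069))) (.node (.node (.leaf 234 8843859507124) (.leaf 233 8842996787888)) (.node (.leaf 232 8842131337433) (.leaf 232 8841260880935))))) (.node (.node (.node (.node (.leaf 231 8840388965291) (.leaf 230 8839515378545)) (.node (.leaf 229 8838639266683) (.leaf 229 8837757007208))) (.node (.node (.leaf 228 8836871909103) (.leaf 226 8835987393024)) (.node (.leaf 226 8835094760813) (.leaf 225 8834197712350)))) (.node (.node (.node (.leaf 224 8833295732639) (.leaf 222 8832390365698)) (.node (.leaf 221 8831478223282) (.leaf 219 8830562654525))) (.node (.node (.leaf 218 8829638532553) (.leaf 216 8828708292568)) (.node (.leaf 214 8827770605435) (.leaf 213 8826819114296))))))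
def ht55 : BT := (.node (.node (.node (.node (.node (.leaf 210 8825860235169) (.leaf 207 8824891494590)) (.node (.leaf 205 8823904341018) (.leaf 201 8822904182875))) (.node (.node (.leaf 197 8821885248323) (.leaf 193 8820838781789)) (.node (.leaf 187 8819767002755) (.leaf 182 8818650337783)))) (.node (.node (.node (.leaf 173 8817494393597) (.leaf 165 8816264671755)) (.node (.leaf 153 8814947480597) (.leaf 138 8813504284864))) (.node (.node (.leaf 121 8811840771119) (.leaf 99 8809801134920)) (.node (.leaf 72 8806986989423) (.leaf 41 8801693506803))))) (.node (.node (.node (.node (.leaf 167 8797145184215) (.leaf 240 8796304195700)) (.node (.leaf 239 8795464460054) (.leaf 240 8794618977095))) (.node (.node (.leaf 239 8793773766831) (.leaf 238 8792929147162)) (.node (.leaf 238 8792082300532) (.leaf 238 8791233039699)))) (.node (.node (.node (.leaf 238 8790381704180) (.leaf 237 8789531404098)) (.node (.leaf 237 8788678919539) (.leaf 237 8787823932271))) (.node (.node (.leaf 236 8786969731181) (.leaf 236 8786112751345)) (.node (.leaf 235 8785257037656) (.leaf 235 8784397251974))))))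
def ht56 : BT := (.node (.node (.node (.node (.node (.leaf 234 8783538230600) (.leaf 235 8782672817638)) (.node (.leaf 233 8781811875030) (.leaf 234 8780944302182))) (.node (.node (.leaf 233 8780077246745) (.leaf 232 8779210839431)) (.node (.leaf 232 8778341229818) (.leaf 232 8777468345526)))) (.node (.node (.node (.leaf 231 8776595758467) (.leaf 231 8775718744244)) (.node (.leaf 230 8774840661490) (.leaf 230 8773958936317))) (.node (.node (.leaf 229 8773077352399) (.leaf 228 8772195482000)) (.node (.leaf 228 8771309831632) (.leaf 228 8770419612280))))) (.node (.node (.node (.node (.leaf 226 8769532689347) (.leaf 227 8768636988402)) (.node (.leaf 225 8767744219289) (.leaf 225 8766846468848))) (.node (.node (.leaf 225 8765942404528) (.leaf 223 8765040036410)) (.node (.leaf 223 8764131667632) (.leaf 222 8763221353601)))) (.node (.node (.node (.leaf 221 8762308645672) (.leaf 220 8761393318906)) (.node (.leaf 220 8760470607523) (.leaf 219 8759544408333))) (.node (.node (.leaf 217 8758618152267) (.leaf 217 8757682983732)) (.node (.leaf 215 8756746923711) (.leaf 214 8755804129919))))))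
def ht57 : BT := (.node (.node (.node (.node (.node (.leaf 213 8754854256087) (.leaf 212 8753896808723)) (.node (.leaf 210 8752935260904) (.leaf 209 8751964017149))) (.node (.node (.leaf 206 8750991408041) (.leaf 205 8750005534260)) (.node (.leaf 204 8749005062890) (.leaf 200 8748002260103)))) (.node (.node (.node (.leaf 199 8746979566880) (.leaf 195 8745949317992)) (.node (.leaf 193 8744897040210) (.leaf 189 8743827237390))) (.node (.node (.leaf 185 8742734859032) (.leaf 181 8741612475138)) (.node (.leaf 175 8740462174984) (.leaf 170 8739263585310))))) (.node (.node (.node (.node (.leaf 162 8738019026688) (.leaf 154 8736703271169)) (.node (.leaf 144 8735295128589) (.leaf 132 8733757882944))) (.node (.node (.leaf 117 8732040042713) (.leaf 100 8730023764713)) (.node (.leaf 80 8727480153977) (.leaf 56 8723901659128)))) (.node (.node (.node (.leaf 31 8716671240326) (.leaf 187 8712652399922)) (.node (.leaf 233 8711782383890) (.leaf 233 8710909163439))) (.node (.node (.leaf 232 8710036554802) (.leaf 232 8709161681480)) (.node (.leaf 231 8708287928337) (.leaf 232 8707407432736))))))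
def ht58 : BT := (.node (.node (.node (.node (.node (.leaf 231 8706528297220) (.leaf 230 8705650486577)) (.node (.leaf 230 8704769910009) (.leaf 230 8703886805026))) (.node (.node (.leaf 230 8703001017070) (.leaf 229 8702115710079)) (.node (.leaf 229 8701225913031) (.leaf 228 8700337165537)))) (.node (.node (.node (.leaf 228 8699445310633) (.leaf 227 8698554228971)) (.node (.leaf 227 8697660020431) (.leaf 227 8696762458742))) (.node (.node (.leaf 226 8695865773502) (.leaf 226 8694965564970)) (.node (.leaf 225 8694065551087) (.leaf 225 8693162003405))))) (.node (.node (.node (.node (.leaf 224 8692257224145) (.leaf 224 8691348228039)) (.node (.leaf 223 8690439422427) (.leaf 223 8689526660110))) (.node (.node (.leaf 222 8688613695572) (.leaf 222 8687696146455)) (.node (.leaf 221 8686778124037) (.leaf 221 8685855411161)))) (.node (.node (.node (.leaf 220 8684931991560) (.leaf 219 8684007826758)) (.node (.leaf 219 8683077917742) (.leaf 218 8682145212967))) (.node (.node (.leaf 217 8681211157388) (.leaf 217 8680270976429)) (.node (.leaf 216 8679328603543) (.leaf 215 8678384071563))))))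
def ht59 : BT := (.node (.node (.node (.node (.node (.leaf 214 8677437035365) (.leaf 214 8676482735899)) (.node (.leaf 212 8675529250032) (.leaf 212 8674567417296))) (.node (.node (.leaf 211 8673601462628) (.leaf 209 8672634165910)) (.node (.leaf 209 8671655911909) (.leaf 207 8670676406554)))) (.node (.node (.node (.leaf 206 8669690026486) (.leaf 205 8668695864868)) (.node (.leaf 203 8667697748470) (.leaf 202 8666689891444))) (.node (.node (.leaf 200 8665676087682) (.leaf 199 8664649668932)) (.node (.leaf 197 8663613526486) (.leaf 194 8662571711889))))) (.node (.node (.node (.node (.leaf 193 8661510606557) (.leaf 189 8660442508907)) (.node (.leaf 187 8659354488387) (.leaf 184 8658248151268))) (.node (.node (.leaf 181 8657118016595) (.leaf 177 8655963678749)) (.node (.leaf 172 8654784130351) (.leaf 167 8653569341550)))) (.node (.node (.node (.leaf 162 8652305186418) (.leaf 155 8650988882429)) (.node (.leaf 147 8649604808843) (.leaf 138 8648128242055))) (.node (.node (.leaf 127 8646531096147) (.leaf 115 8644748852371)) (.node (.leaf 100 8642703468835) (.leaf 82 8640256474633))))))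
def ht60 : BT := (.node (.node (.node (.node (.node (.leaf 63 8637022468430) (.leaf 41 8632073871637)) (.node (.leaf 59 8622415512573) (.leaf 226 8621518051712))) (.node (.node (.leaf 227 8620614015836) (.leaf 226 8619711650112)) (.node (.leaf 226 8618806334313) (.leaf 225 8617902078472)))) (.node (.node (.node (.leaf 226 8616991277414) (.leaf 224 8616085704603)) (.node (.leaf 225 8615173479839) (.leaf 224 8614262085856))) (.node (.node (.leaf 224 8613345976309) (.leaf 223 8612430539177)) (.node (.leaf 223 8611512066746) (.leaf 222 8610594574919))))) (.node (.node (.node (.node (.leaf 222 8609673651476) (.leaf 222 8608749179078)) (.node (.leaf 221 8607825613255) (.leaf 221 8606898779361))) (.node (.node (.leaf 220 8605972419302) (.leaf 220 8605042719468)) (.node (.leaf 220 8604107667873) (.leaf 218 8603176805279)))) (.node (.node (.node (.leaf 219 8602237486778) (.leaf 218 8601298243787)) (.node (.leaf 217 8600359008128) (.leaf 217 8599415674483))) (.node (.node (.leaf 217 8598467935856) (.leaf 216 8597519751732)) (.node (.leaf 215 8596571331562) (.leaf 215 8595617937090))))))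
def ht61 : BT := (.node (.node (.node (.node (.node (.leaf 214 8594663067271) (.leaf 213 8593705802349)) (.node (.leaf 213 8592743068741) (.leaf 212 8591779304731))) (.node (.node (.leaf 212 8590809330781) (.leaf 211 8589837981510)) (.node (.leaf 210 8588864598972) (.leaf 209 8587888964149)))) (.node (.node (.node (.leaf 209 8586905693669) (.leaf 208 8585919781583)) (.node (.leaf 207 8584930029132) (.leaf 206 8583934991656))) (.node (.node (.leaf 205 8582935856459) (.leaf 204 8581932081787)) (.node (.leaf 203 8580923097478) (.leaf 202 8579908111160))))) (.node (.node (.node (.node (.leaf 201 8578886775660) (.leaf 199 8577863225982)) (.node (.leaf 199 8576826165672) (.leaf 197 8575785377866))) (.node (.node (.leaf 195 8574739357481) (.leaf 194 8573681624550)) (.node (.leaf 192 8572614587586) (.leaf 190 8571537934479)))) (.node (.node (.node (.leaf 189 8570444388960) (.leaf 186 8569343081214)) (.node (.leaf 184 8568225068041) (.leaf 181 8567093295934))) (.node (.node (.leaf 178 8565944098791) (.leaf 175 8564772509026)) (.node (.leaf 171 8563579474056) (.leaf 168 8562350554498))))))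
def ht62 : BT := (.node (.node (.node (.node (.node (.leaf 163 8561091284064) (.leaf 158 8559789544143)) (.node (.leaf 152 8558437699866) (.leaf 145 8557025816162))) (.node (.node (.leaf 137 8555537834765) (.leaf 129 8553934869173)) (.node (.leaf 118 8552199115504) (.leaf 106 8550266659703)))) (.node (.node (.node (.leaf 93 8548019380992) (.leaf 76 8545336395392)) (.node (.leaf 58 8541858034262) (.leaf 39 8536577644571))) (.node (.node (.leaf 39 8525461210814) (.leaf 221 8524530447948)) (.node (.leaf 221 8523596717010) (.leaf 221 8522660250553))))) (.node (.node (.node (.node (.leaf 220 8521724815065) (.leaf 220 8520786344218)) (.node (.leaf 219 8519847563989) (.leaf 219 8518905651815))) (.node (.node (.leaf 219 8517960449420) (.leaf 218 8517016383446)) (.node (.leaf 218 8516069285096) (.leaf 217 8515123111865)))) (.node (.node (.node (.leaf 217 8514173231200) (.leaf 217 8513219814652)) (.node (.leaf 216 8512267393702) (.leaf 216 8511310751243))) (.node (.node (.leaf 215 8510353166586) (.leaf 215 8509391686970)) (.node (.leaf 214 8508430586506) (.leaf 214 8507465460777))))))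
def ht63 : BT := (.node (.node (.node (.node (.node (.leaf 214 8506496217913) (.leaf 213 8505527527106)) (.node (.leaf 212 8504558503557) (.leaf 212 8503584848152))) (.node (.node (.leaf 212 8502606508849) (.leaf 211 8501627638795)) (.node (.leaf 210 8500646903556) (.leaf 210 8499660866120)))) (.node (.node (.node (.leaf 209 8498674084860) (.leaf 209 8497681914680)) (.node (.leaf 208 8496688658481) (.leaf 207 8495694172781))) (.node (.node (.leaf 207 8494693556890) (.leaf 206 8493691240321)) (.node (.leaf 205 8492686968825) (.leaf 205 8491675876831))))) (.node (.node (.node (.node (.leaf 204 8490660528488) (.leaf 203 8489642497583)) (.node (.leaf 202 8488621504773) (.leaf 201 8487596885246))) (.node (.node (.leaf 201 8486563445188) (.leaf 199 8485530953227)) (.node (.leaf 199 8484488417796) (.leaf 198 8483440404579)))) (.node (.node (.node (.leaf 196 8482391786658) (.leaf 196 8481331153714)) (.node (.leaf 194 8480267057670) (.leaf 193 8479193703890))) (.node (.node (.leaf 191 8478116795972) (.leaf 191 8477024130279)) (.node (.leaf 188 8475931231553) (.leaf 187 8474825234527))))))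
def ht64 : BT := (.node (.node (.node (.node (.node (.leaf 186 8473704302307) (.leaf 183 8472578572481)) (.node (.leaf 182 8471433645687) (.leaf 179 8470279008871))) (.node (.node (.leaf 176 8469112668921) (.leaf 175 8467917014207)) (.node (.leaf 171 8466707678444) (.leaf 168 8465473826669)))) (.node (.node (.node (.leaf 164 8464216483075) (.leaf 160 8462928326806)) (.node (.leaf 156 8461599547741) (.leaf 151 8460226323563))) (.node (.node (.leaf 146 8458792228487) (.leaf 138 8457307409049)) (.node (.leaf 132 8455722773727) (.leaf 123 8454035111398))))) (.node (.node (.node (.node (.leaf 113 8452207873737) (.leaf 102 8450181020879)) (.node (.leaf 90 8447848903076) (.leaf 75 8445091601695))) (.node (.node (.leaf 59 8441594814295) (.leaf 42 8436556175176)) (.node (.leaf 23 8427299585299) (.leaf 168 8421653033799)))) (.node (.node (.node (.leaf 215 8420690565295) (.leaf 216 8419720488747)) (.node (.leaf 215 8418751548833) (.leaf 214 8417783988632))) (.node (.node (.leaf 215 8416808454894) (.leaf 213 8415838290827)) (.node (.leaf 214 8414860398888) (.leaf 213 8413883585775))))))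
def ht65 : BT := (.node (.node (.node (.node (.node (.leaf 213 8412902252332) (.leaf 212 8411920677233)) (.node (.leaf 212 8410935487387) (.leaf 211 8409951271698))) (.node (.node (.leaf 211 8408962779247) (.leaf 210 8407974891989)) (.node (.leaf 211 8406978263376) (.leaf 209 8405986706472)))) (.node (.node (.node (.leaf 209 8404990965828) (.leaf 209 8403990847996)) (.node (.leaf 208 8402989080482) (.leaf 208 8401982328634))) (.node (.node (.leaf 207 8400975787192) (.leaf 207 8399964170148)) (.node (.leaf 206 8398952065292) (.leaf 205 8397939579014))))) (.node (.node (.node (.node (.leaf 205 8396921475212) (.leaf 205 8395897764355)) (.node (.leaf 203 8394878363638) (.leaf 204 8393847794795))) (.node (.node (.leaf 202 8392818909368) (.leaf 202 8391783776767)) (.node (.leaf 201 8390746808018) (.leaf 201 8389702593906)))) (.node (.node (.node (.leaf 200 8388656340928) (.leaf 199 8387607471526)) (.node (.leaf 198 8386555828392) (.leaf 197 8385501027933))) (.node (.node (.leaf 197 8384437242596) (.leaf 196 8383369497346)) (.node (.leaf 195 8382295744903) (.leaf 194 8381216932461))))))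
def ht66 : BT := (.node (.node (.node (.node (.node (.leaf 193 8380132595804) (.leaf 191 8379047979088)) (.node (.leaf 191 8377950971119) (.leaf 190 8376846439599))) (.node (.node (.leaf 188 8375739228619) (.leaf 188 8374617050924)) (.node (.leaf 185 8373496472099) (.leaf 185 8372358124078)))) (.node (.node (.node (.leaf 183 8371211832319) (.leaf 181 8370056749272)) (.node (.leaf 179 8368891930854) (.leaf 177 8367714994110))) (.node (.node (.leaf 176 8366517057116) (.leaf 173 8365308831199)) (.node (.leaf 171 8364080735565) (.leaf 168 8362835647957))))) (.node (.node (.node (.node (.leaf 165 8361569572904) (.leaf 162 8360277262594)) (.node (.leaf 158 8358959956593) (.leaf 155 8357600974769))) (.node (.node (.leaf 150 8356206720134) (.leaf 145 8354766842679)) (.node (.leaf 140 8353265134658) (.leaf 134 8351690674530)))) (.node (.node (.node (.leaf 126 8350041553524) (.leaf 119 8348267449738)) (.node (.leaf 109 8346363066788) (.leaf 100 8344235088069))) (.node (.node (.leaf 87 8341861298739) (.leaf 75 8339040201385)) (.node (.leaf 60 8335571900028) (.leaf 45 8330781786997))))))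
def ht67 : BT := (.node (.node (.node (.node (.node (.leaf 27 8323376050770) (.leaf 95 8312860956655)) (.node (.leaf 212 8311860854612) (.leaf 211 8310861863570))) (.node (.node (.leaf 210 8309863291152) (.leaf 210 8308860549970)) (.node (.leaf 210 8307854200588) (.leaf 209 8306848892150)))) (.node (.node (.node (.leaf 209 8305839792106) (.leaf 209 8304827067687)) (.node (.leaf 208 8303815132011) (.leaf 208 8302799207513))) (.node (.node (.leaf 207 8301784131077) (.leaf 207 8300764215214)) (.node (.leaf 206 8299743904603) (.leaf 206 8298719470500))))) (.node (.node (.node (.node (.leaf 206 8297689952339) (.leaf 205 8296660996505)) (.node (.leaf 204 8295632723515) (.leaf 204 8294599139040))) (.node (.node (.leaf 204 8293561054194) (.leaf 203 8292522683612)) (.node (.leaf 203 8291479206064) (.leaf 202 8290433191092)))) (.node (.node (.node (.leaf 201 8289387012561) (.leaf 201 8288334962760)) (.node (.leaf 200 8287281832984) (.leaf 200 8286222722990))) (.node (.node (.leaf 199 8285162708074) (.leaf 199 8284096237399)) (.node (.leaf 198 8283028175637) (.leaf 197 8281958376873))))))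
def ht68 : BT := (.node (.node (.node (.node (.node (.leaf 197 8280880394734) (.leaf 195 8279804620880)) (.node (.leaf 195 8278720727271) (.leaf 195 8277628587056))) (.node (.node (.leaf 193 8276539004043) (.leaf 193 8275440009306)) (.node (.leaf 192 8274337276692) (.leaf 191 8273230178178)))) (.node (.node (.node (.leaf 190 8272118007494) (.leaf 189 8271000798252)) (.node (.leaf 188 8269876103579) (.leaf 187 8268744092427))) (.node (.node (.leaf 186 8267604561072) (.leaf 185 8266456787811)) (.node (.leaf 183 8265306370650) (.leaf 182 8264145528156))))) (.node (.node (.node (.node (.leaf 181 8262973651918) (.leaf 180 8261788857894)) (.node (.leaf 177 8260603032873) (.leaf 177 8259394403319))) (.node (.node (.leaf 174 8258180744724) (.leaf 172 8256952891502)) (.node (.leaf 170 8255709013799) (.leaf 168 8254446759994)))) (.node (.node (.node (.leaf 166 8253161687605) (.leaf 163 8251858312115)) (.node (.leaf 160 8250531476428) (.leaf 156 8249183435141))) (.node (.node (.leaf 153 8247799233704) (.leaf 150 8246368807295)) (.node (.leaf 144 8244910417361) (.leaf 140 8243390911948))))))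
def ht69 : BT := (.node (.node (.node (.node (.node (.leaf 134 8241812889500) (.leaf 128 8240155146125)) (.node (.leaf 121 8238400500885) (.leaf 113 8236523182578))) (.node (.node (.leaf 104 8234483850553) (.leaf 94 8232220206328)) (.node (.leaf 83 8229626721368) (.leaf 70 8226559837483)))) (.node (.node (.node (.leaf 55 8222784831424) (.leaf 41 8217434888835)) (.node (.leaf 24 8208644245942) (.leaf 118 8199335042633))) (.node (.node (.leaf 207 8198301389767) (.leaf 206 8197269532321)) (.node (.leaf 206 8196233882963) (.leaf 206 8195193955149))))) (.node (.node (.node (.node (.leaf 205 8194152970472) (.leaf 205 8193107832463)) (.node (.leaf 204 8192063884939) (.leaf 204 8191015904555))) (.node (.node (.leaf 203 8189969122298) (.leaf 204 8188912650257)) (.node (.leaf 202 8187862187277) (.leaf 202 8186806663166)))) (.node (.node (.node (.leaf 202 8185745969477) (.leaf 201 8184684434310)) (.node (.leaf 201 8183618342332) (.leaf 200 8182552199743))) (.node (.node (.leaf 200 8181481004255) (.leaf 200 8180404689966)) (.node (.leaf 198 8179333417168) (.leaf 199 8178251140594))))))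
def ht70 : BT := (.node (.node (.node (.node (.node (.leaf 197 8177173511903) (.leaf 198 8176084327515)) (.node (.leaf 196 8174998143431) (.leaf 196 8173905728089))) (.node (.node (.leaf 196 8172806734457) (.leaf 194 8171712009227)) (.node (.leaf 194 8170610255340) (.leaf 194 8169501273068)))) (.node (.node (.node (.leaf 193 8168390230271) (.leaf 192 8167276987113)) (.node (.leaf 192 8166155316949) (.leaf 190 8165034965915))) (.node (.node (.leaf 190 8163905669539) (.leaf 189 8162772895843)) (.node (.leaf 188 8161636136010) (.leaf 188 8160488928356))))) (.node (.node (.node (.node (.leaf 186 8159343174570) (.leaf 186 8158185885840)) (.node (.leaf 185 8157023034984) (.leaf 183 8155859760373))) (.node (.node (.leaf 183 8154682117339) (.leaf 181 8153501917688)) (.node (.leaf 181 8152305999600) (.leaf 179 8151107106379)))) (.node (.node (.node (.leaf 177 8149904176475) (.leaf 177 8148682450049)) (.node (.leaf 175 8147453829102) (.leaf 173 8146217359373))) (.node (.node (.leaf 172 8144964179608) (.leaf 169 8143706625905)) (.node (.leaf 168 8142427472461) (.leaf 166 8141130847034))))))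
def ht71 : BT := (.node (.node (.node (.node (.node (.leaf 164 8139814759013) (.leaf 161 8138483815794)) (.node (.leaf 159 8137125481678) (.leaf 156 8135743396589))) (.node (.node (.leaf 152 8134341137673) (.leaf 149 8132902471740)) (.node (.leaf 146 8131417698734) (.leaf 141 8129897126464)))) (.node (.node (.node (.leaf 137 8128316433604) (.leaf 131 8126682345072)) (.node (.leaf 125 8124974016497) (.leaf 119 8123163773546))) (.node (.node (.leaf 112 8121227755430) (.leaf 103 8119151372206)) (.node (.leaf 94 8116866051754) (.leaf 84 8114286822164))))) (.node (.node (.node (.node (.leaf 72 8111316105715) (.leaf 60 8107672419536)) (.node (.leaf 46 8102926528304) (.leaf 31 8095941913574))) (.node (.node (.leaf 17 8080799669225) (.leaf 203 8079733919971)) (.node (.leaf 202 8078669189849) (.leaf 203 8077595228936)))) (.node (.node (.node (.leaf 202 8076522622493) (.leaf 201 8075449759948)) (.node (.leaf 201 8074371392768) (.leaf 201 8073288810394))) (.node (.node (.leaf 200 8072207453335) (.leaf 200 8071121645891)) (.node (.leaf 199 8070036388513) (.leaf 199 8068945947687))))))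
def ht72 : BT := (.node (.node (.node (.node (.node (.leaf 198 8067856282564) (.leaf 198 8066761703435)) (.node (.leaf 198 8065660054161) (.leaf 197 8064558548549))) (.node (.node (.leaf 196 8063457540372) (.leaf 196 8062350433175)) (.node (.leaf 196 8061237476587) (.leaf 195 8060124827260)))) (.node (.node (.node (.leaf 194 8059011627406) (.leaf 194 8057892384007)) (.node (.leaf 194 8056766019542) (.leaf 192 8055643039354))) (.node (.node (.leaf 192 8054513123680) (.leaf 192 8053376314464)) (.node (.leaf 191 8052237982290) (.leaf 190 8051098131023))))) (.node (.node (.node (.node (.leaf 190 8049950181626) (.leaf 189 8048800122082)) (.node (.leaf 188 8047647620465) (.leaf 188 8046485633286))) (.node (.node (.leaf 186 8045325006004) (.leaf 186 8044155273890)) (.node (.leaf 185 8042981639115) (.leaf 185 8041797116898)))) (.node (.node (.node (.leaf 183 8040614563674) (.leaf 183 8039419812249)) (.node (.leaf 181 8038225823134) (.leaf 181 8037018926791))) (.node (.node (.leaf 180 8035804845730) (.leaf 178 8034587696630)) (.node (.leaf 177 8033362025721) (.leaf 177 8032119602716))))))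
def ht73 : BT := (.node (.node (.node (.node (.node (.leaf 175 8030873387118) (.leaf 173 8029622447840)) (.node (.leaf 172 8028358035860) (.leaf 171 8027078630094))) (.node (.node (.leaf 169 8025790373676) (.leaf 167 8024491510021)) (.node (.leaf 166 8023171272055) (.leaf 163 8021842090026)))) (.node (.node (.node (.leaf 162 8020486478583) (.leaf 159 8019117682424)) (.node (.leaf 157 8017723270024) (.leaf 154 8016307349513))) (.node (.node (.leaf 151 8014864639424) (.leaf 148 8013388888631)) (.node (.leaf 144 8011882662988) (.leaf 141 8010325109366))))) (.node (.node (.node (.node (.leaf 136 8008726238551) (.leaf 132 8007059323499)) (.node (.leaf 126 8005330070368) (.leaf 120 8003516774743))) (.node (.node (.leaf 114 8001586317953) (.leaf 106 7999529924325)) (.node (.leaf 98 7997290439454) (.leaf 88 7994833674394)))) (.node (.node (.node (.leaf 79 7991999986294) (.leaf 66 7988744029635)) (.node (.leaf 54 7984706087117) (.leaf 41 7979222157626))) (.node (.node (.leaf 26 7970783590794) (.leaf 64 7957461403908)) (.node (.leaf 200 7956354214288) (.leaf 199 7955248540608))))))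
def ht74 : BT := (.node (.node (.node (.node (.node (.leaf 198 7954143986629) (.leaf 198 7953033094711)) (.node (.leaf 198 7951916983619) (.leaf 197 7950802071996))) (.node (.node (.leaf 197 7949682615511) (.leaf 196 7948563681045)) (.node (.leaf 196 7947439985247) (.leaf 195 7946316775304)))) (.node (.node (.node (.leaf 196 7945182796083) (.leaf 194 7944053491954)) (.node (.leaf 194 7942917809397) (.leaf 194 7941776322460))) (.node (.node (.leaf 193 7940635060700) (.leaf 192 7939493919970)) (.node (.leaf 192 7938346413001) (.leaf 192 7937192806174))))) (.node (.node (.node (.node (.leaf 191 7936039214104) (.leaf 190 7934883986249)) (.node (.leaf 190 7933720252414) (.leaf 189 7932555578122))) (.node (.node (.leaf 189 7931383992123) (.leaf 188 7930210999314)) (.node (.leaf 187 7929036014549) (.leaf 187 7927853114814)))) (.node (.node (.node (.leaf 186 7926667872590) (.leaf 186 7925474043046)) (.node (.leaf 184 7924283041171) (.leaf 184 7923081317945))) (.node (.node (.leaf 183 7921876521186) (.leaf 183 7920661216557)) (.node (.leaf 181 7919448422037) (.leaf 181 7918224091316))))))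
def ht75 : BT := (.node (.node (.node (.node (.node (.leaf 180 7916994435790) (.leaf 179 7915759546983)) (.node (.leaf 178 7914518266011) (.leaf 177 7913268030930))) (.node (.node (.leaf 176 7912009628698) (.leaf 175 7910742245969)) (.node (.leaf 173 7909473013516) (.leaf 173 7908186239838)))) (.node (.node (.node (.leaf 171 7906894938442) (.leaf 170 7905590731698)) (.node (.leaf 168 7904279988962) (.leaf 167 7902953384001))) (.node (.node (.leaf 166 7901607068439) (.leaf 163 7900256441414)) (.node (.leaf 162 7898883451502) (.leaf 159 7897502186098))))) (.node (.node (.node (.node (.leaf 158 7896092382499) (.leaf 155 7894667804229)) (.node (.leaf 153 7893215520956) (.leaf 150 7891739795964))) (.node (.node (.leaf 147 7890234891107) (.leaf 144 7888693601435)) (.node (.leaf 141 7887106082296) (.leaf 136 7885484834659)))) (.node (.node (.node (.leaf 132 7883806374998) (.leaf 128 7882052903715)) (.node (.leaf 122 7880231401804) (.leaf 116 7878316271452))) (.node (.node (.leaf 109 7876290118172) (.leaf 102 7874105368488)) (.node (.leaf 93 7871742790071) (.leaf 85 7869078597512))))))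
def ht76 : BT := (.node (.node (.node (.node (.node (.leaf 74 7866060898664) (.leaf 62 7862532865064)) (.node (.leaf 50 7858123416522) (.leaf 37 7852097058210))) (.node (.node (.leaf 23 7842348056112) (.leaf 95 7830329165576)) (.node (.leaf 195 7829192315572) (.leaf 196 7828043406352)))) (.node (.node (.node (.leaf 195 7826895252002) (.leaf 194 7825748436734)) (.node (.leaf 194 7824596507915) (.leaf 194 7823439466817))) (.node (.node (.leaf 193 7822283629837) (.leaf 193 7821122391801)) (.node (.leaf 193 7819954682255) (.leaf 191 7818792104936))))) (.node (.node (.node (.node (.leaf 192 7817617676350) (.leaf 191 7816443446305)) (.node (.leaf 190 7815269488057) (.leaf 190 7814089488878))) (.node (.node (.leaf 189 7812909587667) (.leaf 189 7811723378153)) (.node (.leaf 189 7810529112359) (.leaf 187 7809338952908)))) (.node (.node (.node (.leaf 188 7808135780156) (.leaf 186 7806937763436)) (.node (.leaf 186 7805732715338) (.leaf 186 7804519772005))) (.node (.node (.leaf 185 7803305123389) (.leaf 184 7802088747951)) (.node (.leaf 183 7800869762442) (.leaf 183 7799640098840))))))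
def ht77 : BT := (.node (.node (.node (.node (.node (.leaf 182 7798407831550) (.leaf 182 7797165646950)) (.node (.leaf 180 7795927087386) (.leaf 180 7794678000684))) (.node (.node (.leaf 179 7793425158133) (.leaf 179 7792160576377)) (.node (.leaf 177 7790897810200) (.leaf 177 7789619989453)))) (.node (.node (.node (.leaf 175 7788343129349) (.leaf 175 7787052441220)) (.node (.leaf 173 7785761491428) (.leaf 173 7784454673702))) (.node (.node (.leaf 172 7783138687321) (.leaf 170 7781819882479)) (.node (.leaf 169 7780489795851) (.leaf 168 7779146509271))))) (.node (.node (.node (.node (.leaf 166 7777795362896) (.leaf 165 7776429284048)) (.node (.leaf 163 7775054213217) (.leaf 162 7773659830075))) (.node (.node (.leaf 160 7772252109842) (.leaf 158 7770829090256)) (.node (.leaf 157 7769378144624) (.leaf 154 7767914747155)))) (.node (.node (.node (.leaf 151 7766435562526) (.leaf 150 7764913897847)) (.node (.leaf 146 7763376169432) (.leaf 143 7761806865747))) (.node (.node (.leaf 140 7760197685146) (.leaf 137 7758538661791)) (.node (.leaf 132 7756842961378) (.leaf 129 7755070115466))))))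
def ht78 : BT := (.node (.node (.node (.node (.node (.leaf 123 7753242690430) (.leaf 118 7751325170747)) (.node (.leaf 112 7749302750736) (.leaf 105 7747155360971))) (.node (.node (.leaf 98 7744828589628) (.leaf 89 7742298256936)) (.node (.leaf 80 7739462100488) (.leaf 69 7736241778961)))) (.node (.node (.node (.leaf 59 7732316769065) (.leaf 46 7727401131290)) (.node (.leaf 33 7720514182693) (.leaf 19 7709026102706))) (.node (.node (.leaf 131 7699422606627) (.leaf 193 7698238725254)) (.node (.leaf 192 7697055809704) (.leaf 192 7695867964771))))) (.node (.node (.node (.node (.leaf 192 7694675045063) (.leaf 190 7693487646282)) (.node (.leaf 191 7692287444475) (.leaf 190 7691088149723))) (.node (.node (.leaf 189 7689889302657) (.leaf 189 7688684941242)) (.node (.leaf 189 7687474180235) (.leaf 188 7686263845774)))) (.node (.node (.node (.leaf 188 7685047090436) (.leaf 187 7683828521661)) (.node (.leaf 187 7682603007825) (.leaf 186 7681377067100))) (.node (.node (.leaf 185 7680150687185) (.leaf 185 7678917039163)) (.node (.leaf 185 7677676014061) (.leaf 184 7676433915733))))))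
def ht79 : BT := (.node (.node (.node (.node (.node (.leaf 183 7675190437078) (.leaf 182 7673943257229)) (.node (.leaf 182 7672687479487) (.leaf 182 7671422775830))) (.node (.node (.leaf 180 7670162940116) (.leaf 180 7668893533196)) (.node (.leaf 180 7667614194354) (.leaf 178 7666338819106)))) (.node (.node (.node (.leaf 178 7665052785729) (.leaf 177 7663760487666)) (.node (.leaf 176 7662463796496) (.leaf 176 7661154562139))) (.node (.node (.leaf 174 7659847795187) (.leaf 174 7658527651183)) (.node (.leaf 173 7657200486509) (.leaf 172 7655865877998))))) (.node (.node (.node (.node (.leaf 170 7654530685252) (.leaf 170 7653176481648)) (.node (.leaf 168 7651820599552) (.leaf 168 7650445300114))) (.node (.node (.leaf 166 7649065910667) (.leaf 165 7647672966597)) (.node (.leaf 163 7646273240559) (.leaf 162 7644857243921)))) (.node (.node (.node (.leaf 160 7643430662841) (.leaf 159 7641982320046)) (.node (.leaf 157 7640518502561) (.leaf 155 7639037554117))) (.node (.node (.leaf 153 7637536085024) (.leaf 151 7636010394450)) (.node (.leaf 148 7634466534258) (.leaf 146 7632888675190))))))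
def ht80 : BT := (.node (.node (.node (.node (.node (.leaf 143 7631281151221) (.leaf 140 7629637028599)) (.node (.leaf 136 7627958975225) (.leaf 133 7626222543416))) (.node (.node (.leaf 128 7624442766838) (.leaf 125 7622574241455)) (.node (.leaf 119 7620639251010) (.leaf 113 7618614135755)))) (.node (.node (.node (.leaf 107 7616462883137) (.leaf 100 7614157322969)) (.node (.leaf 92 7611656603151) (.leaf 83 7608899265254))) (.node (.node (.leaf 74 7605742811008) (.leaf 62 7602116254952)) (.node (.leaf 51 7597617331637) (.leaf 39 7591515260118))))) (.node (.node (.node (.node (.leaf 25 7582185173406) (.leaf 56 7567150204769)) (.node (.leaf 190 7565924485365) (.leaf 189 7564699223464))) (.node (.node (.leaf 189 7563468565782) (.leaf 188 7562238473795)) (.node (.leaf 188 7561002627643) (.leaf 187 7559767440521)))) (.node (.node (.node (.leaf 187 7558526648962) (.leaf 187 7557278339837)) (.node (.leaf 186 7556029104978) (.leaf 185 7554780361340))) (.node (.node (.leaf 185 7553524782520) (.leaf 185 7552262004191)) (.node (.leaf 184 7550999278882) (.leaf 183 7549736522079))))))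
def ht81 : BT := (.node (.node (.node (.node (.node (.leaf 183 7548466110253) (.leaf 182 7547193158314)) (.node (.leaf 182 7545912150148) (.leaf 181 7544630183354))) (.node (.node (.leaf 181 7543339587833) (.leaf 180 7542047728533)) (.node (.leaf 180 7540747138777) (.leaf 178 7539451297983)))) (.node (.node (.node (.leaf 178 7538144860126) (.leaf 178 7536827467574)) (.node (.leaf 177 7535506896988) (.leaf 175 7534190618783))) (.node (.node (.leaf 176 7532855564039) (.leaf 174 7531523878299)) (.node (.leaf 174 7530179887960) (.leaf 173 7528831316690))))) (.node (.node (.node (.node (.leaf 172 7527474319131) (.leaf 171 7526111342084)) (.node (.leaf 170 7524741327383) (.leaf 169 7523363768308))) (.node (.node (.leaf 168 7521977763478) (.leaf 167 7520582456742)) (.node (.leaf 167 7519168347694) (.leaf 164 7517759914370)))) (.node (.node (.node (.leaf 164 7516328232949) (.leaf 162 7514891604824)) (.node (.leaf 161 7513439027081) (.leaf 160 7511969014250))) (.node (.node (.leaf 158 7510488791695) (.leaf 156 7508996965189)) (.node (.leaf 155 7507481160829) (.leaf 152 7505957824399))))))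
def ht82 : BT := (.node (.node (.node (.node (.node (.leaf 151 7504401966762) (.leaf 149 7502820992629)) (.node (.leaf 146 7501222293704) (.leaf 143 7499600536853))) (.node (.node (.leaf 141 7497938535646) (.leaf 138 7496240321376)) (.node (.leaf 135 7494496857762) (.leaf 131 7492710028680)))) (.node (.node (.node (.leaf 127 7490867551488) (.leaf 123 7488951259305)) (.node (.leaf 118 7486955397109) (.leaf 112 7484872958122))) (.node (.node (.leaf 106 7482670976334) (.leaf 100 7480300872990)) (.node (.leaf 92 7477745973792) (.leaf 83 7474954327445))))) (.node (.node (.node (.node (.leaf 75 7471754843673) (.leaf 63 7468133578722)) (.node (.leaf 53 7463655592661) (.leaf 41 7457777499480))) (.node (.node (.leaf 27 7449495835101) (.leaf 15 7431065233041)) (.node (.leaf 187 7429798690230) (.leaf 187 7428526292380)))) (.node (.node (.node (.leaf 186 7427252150130) (.leaf 185 7425978941914)) (.node (.leaf 185 7424699342097) (.leaf 184 7423420410088))) (.node (.node (.leaf 184 7422135280965) (.leaf 184 7420843457476)) (.node (.leaf 183 7419551582572) (.leaf 183 7418250194688))))))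
def ht83 : BT := (.node (.node (.node (.node (.node (.leaf 182 7416949151823) (.leaf 181 7415647708231)) (.node (.leaf 181 7414338603891) (.leaf 181 7413021856874))) (.node (.node (.leaf 180 7411704114169) (.leaf 179 7410385606504)) (.node (.leaf 179 7409056037420) (.leaf 178 7407724950862)))) (.node (.node (.node (.leaf 177 7406392373318) (.leaf 177 7405050235282)) (.node (.leaf 177 7403698040109) (.leaf 175 7402351667133))) (.node (.node (.leaf 175 7400994506456) (.leaf 174 7399632311299)) (.node (.leaf 174 7398258541141) (.leaf 173 7396880774803))))) (.node (.node (.node (.node (.leaf 172 7395498043358) (.leaf 171 7394110843764)) (.node (.leaf 170 7392718596044) (.leaf 170 7391312035296))) (.node (.node (.leaf 168 7389905823520) (.leaf 168 7388482783410)) (.node (.leaf 166 7387059984052) (.leaf 166 7385619754563)))) (.node (.node (.node (.leaf 165 7384169757075) (.leaf 163 7382718007743)) (.node (.leaf 163 7381245184695) (.leaf 161 7379768068894))) (.node (.node (.leaf 159 7378282947074) (.leaf 159 7376772287336)) (.node (.leaf 157 7375252848762) (.leaf 155 7373722642219))))))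
def ht84 : BT := (.node (.node (.node (.node (.node (.leaf 154 7372170073656) (.leaf 152 7370602409599)) (.node (.leaf 150 7369016815876) (.leaf 149 7367398469932))) (.node (.node (.leaf 146 7365763025420) (.leaf 143 7364108969912)) (.node (.leaf 141 7362419317218) (.leaf 139 7360687248180)))) (.node (.node (.node (.leaf 135 7358929423388) (.leaf 132 7357124522488)) (.node (.leaf 129 7355260397372) (.leaf 125 7353337028490))) (.node (.node (.leaf 120 7351353002178) (.leaf 115 7349286548720)) (.node (.leaf 110 7347111553517) (.leaf 104 7344809667765))))) (.node (.node (.node (.node (.leaf 98 7342330355628) (.leaf 90 7339656081110)) (.node (.leaf 81 7336733348109) (.leaf 72 7333435487802))) (.node (.node (.leaf 63 7329525459140) (.leaf 51 7324827504386)) (.node (.leaf 39 7318715635652) (.leaf 26 7309945641358)))) (.node (.node (.node (.leaf 22 7291185671887) (.leaf 184 7289877223344)) (.node (.leaf 184 7288562224490) (.leaf 183 7287245465608))) (.node (.node (.leaf 183 7285921892444) (.leaf 182 7284598943147)) (.node (.leaf 182 7283269646468) (.leaf 182 7281933342186))))))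
def ht85 : BT := (.node (.node (.node (.node (.node (.leaf 181 7280597143982) (.leaf 180 7279259381410)) (.node (.leaf 180 7277912672116) (.leaf 179 7276565664796))) (.node (.node (.leaf 179 7275211147288) (.leaf 178 7273855791303)) (.node (.leaf 178 7272491884704) (.leaf 177 7271127180556)))) (.node (.node (.node (.leaf 176 7269758889829) (.leaf 176 7268380680779)) (.node (.leaf 176 7266993021113) (.leaf 174 7265611042041))) (.node (.node (.leaf 174 7264219202222) (.leaf 174 7262816667860)) (.node (.leaf 172 7261418958708) (.leaf 172 7260007143172))))) (.node (.node (.node (.node (.leaf 171 7258591356756) (.leaf 171 7257163214468)) (.node (.leaf 169 7255739082475) (.leaf 169 7254301103341))) (.node (.node (.leaf 168 7252857283088) (.leaf 168 7251398292087)) (.node (.leaf 166 7249938489324) (.leaf 165 7248470648969)))) (.node (.node (.node (.leaf 164 7246994688640) (.leaf 164 7245499850166)) (.node (.leaf 162 7244003640756) (.leaf 161 7242495567143))) (.node (.node (.leaf 160 7240974814927) (.leaf 159 7239436955100)) (.node (.leaf 157 7237892743944) (.leaf 156 7236331046779))))))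
def ht86 : BT := (.node (.node (.node (.node (.node (.leaf 154 7234759514716) (.leaf 153 7233165790841)) (.node (.leaf 151 7231558013517) (.leaf 150 7229922392799))) (.node (.node (.leaf 147 7228276963579) (.leaf 146 7226594407085)) (.node (.leaf 143 7224894831443) (.leaf 141 7223161066177)))) (.node (.node (.node (.leaf 138 7221399626418) (.leaf 135 7219603519663)) (.node (.leaf 133 7217750040960) (.leaf 129 7215854958530))) (.node (.node (.leaf 125 7213906529635) (.leaf 121 7211886626523)) (.node (.leaf 116 7209794621921) (.leaf 112 7207583871021))))) (.node (.node (.node (.node (.leaf 105 7205281068322) (.leaf 99 7202823750561)) (.node (.leaf 92 7200175498180) (.leaf 85 7197245283901))) (.node (.node (.leaf 75 7194020261278) (.leaf 66 7190278951314)) (.node (.leaf 55 7185830578192) (.leaf 43 7180270434488)))) (.node (.node (.node (.leaf 32 7172115980316) (.leaf 18 7158076332294)) (.node (.leaf 129 7148720339813) (.leaf 181 7147361285215))) (.node (.node (.leaf 181 7145995383562) (.leaf 180 7144630447394)) (.node (.leaf 180 7143258540794) (.leaf 179 7141886943032))))))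
def ht87 : BT := (.node (.node (.node (.node (.node (.leaf 179 7140508122473) (.leaf 179 7139118625734)) (.node (.leaf 178 7137728647621) (.leaf 177 7136338477137))) (.node (.node (.leaf 177 7134940212295) (.leaf 176 7133541066375)) (.node (.leaf 176 7132133248160) (.leaf 175 7130723079711)))) (.node (.node (.node (.leaf 175 7129301752134) (.leaf 173 7127887308146)) (.node (.leaf 174 7126454422016) (.leaf 173 7125019455143))) (.node (.node (.leaf 172 7123582286182) (.leaf 171 7122142480759)) (.node (.leaf 171 7120688142747) (.leaf 170 7119230437520))))) (.node (.node (.node (.node (.leaf 169 7117768867407) (.leaf 169 7116294622730)) (.node (.leaf 167 7114823883237) (.leaf 167 7113339272799))) (.node (.node (.leaf 166 7111847198273) (.leaf 166 7110337707033)) (.node (.leaf 164 7108830530302) (.leaf 163 7107315123915)))) (.node (.node (.node (.leaf 163 7105781164594) (.leaf 161 7104246867434)) (.node (.leaf 161 7102692027317) (.leaf 159 7101132691362))) (.node (.node (.leaf 158 7099559074090) (.leaf 156 7097980807543)) (.node (.leaf 156 7096375864112) (.leaf 154 7094762565970))))))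
def ht88 : BT := (.node (.node (.node (.node (.node (.leaf 153 7093128739861) (.leaf 151 7091482389972)) (.node (.leaf 149 7089819626909) (.leaf 148 7088127166294))) (.node (.node (.leaf 145 7086425004359) (.leaf 144 7084686026143)) (.node (.leaf 141 7082929142855) (.leaf 139 7081136582946)))) (.node (.node (.node (.leaf 137 7079301001167) (.leaf 133 7077442257914)) (.node (.leaf 131 7075520065519) (.leaf 127 7073554207258))) (.node (.node (.leaf 123 7071531484907) (.leaf 119 7069434485310)) (.node (.leaf 114 7067259084049) (.leaf 109 7064977690731))))) (.node (.node (.node (.node (.leaf 104 7062550030663) (.leaf 97 7059972322119)) (.node (.leaf 90 7057179512596) (.leaf 81 7054146150835))) (.node (.node (.leaf 73 7050697479234) (.leaf 63 7046703788406)) (.node (.leaf 52 7041877974126) (.leaf 40 7035674139434)))) (.node (.node (.node (.leaf 28 7026427380160) (.leaf 14 7010152728158)) (.node (.leaf 173 7004999899832) (.leaf 179 7003586461180))) (.node (.node (.leaf 178 7002173442575) (.leaf 178 7000753335160)) (.node (.leaf 177 6999331022164) (.leaf 177 6997900106813))))))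
def ht89 : BT := (.node (.node (.node (.node (.node (.leaf 176 6996469331539) (.leaf 176 6995029704309)) (.node (.leaf 175 6993589947680) (.leaf 175 6992141457158))) (.node (.node (.leaf 174 6990690207857) (.leaf 173 6989237116261)) (.node (.leaf 173 6987774177026) (.leaf 172 6986309759239)))) (.node (.node (.node (.leaf 172 6984835049680) (.leaf 171 6983358663106)) (.node (.leaf 171 6981868967956) (.leaf 170 6980375418104))) (.node (.node (.leaf 169 6978878452465) (.leaf 168 6977378666815)) (.node (.leaf 168 6975865757025) (.leaf 167 6974348639458))))) (.node (.node (.node (.node (.leaf 166 6972824894301) (.leaf 165 6971294335340)) (.node (.leaf 165 6969748572608) (.leaf 163 6968206126788))) (.node (.node (.leaf 163 6966646278421) (.leaf 162 6965078250406)) (.node (.leaf 161 6963500827135) (.leaf 160 6961911433282)))) (.node (.node (.node (.leaf 159 6960310887492) (.leaf 158 6958698334609)) (.node (.leaf 156 6957082136571) (.leaf 156 6955440778196))) (.node (.node (.leaf 154 6953793383935) (.leaf 152 6952136381997)) (.node (.leaf 152 6950446597037) (.leaf 149 6948756372427))))))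
def ht90 : BT := (.node (.node (.node (.node (.node (.leaf 149 6947028814877) (.leaf 146 6945295283744)) (.node (.leaf 145 6943528937615) (.leaf 142 6941749852669))) (.node (.node (.leaf 141 6939926058023) (.leaf 138 6938079478122)) (.node (.leaf 135 6936204471967) (.leaf 133 6934279106437)))) (.node (.node (.node (.leaf 129 6932323094104) (.leaf 127 6930293796994)) (.node (.leaf 123 6928208064394) (.leaf 118 6926066348039))) (.node (.node (.leaf 114 6923828000292) (.leaf 109 6921484721724)) (.node (.leaf 104 6918996935485) (.leaf 97 6916362875025))))) (.node (.node (.node (.node (.leaf 90 6913518016048) (.leaf 82 6910400461861)) (.node (.leaf 73 6906915100925) (.leaf 63 6902910296655))) (.node (.node (.leaf 53 6898021647489) (.leaf 41 6891757109668)) (.node (.leaf 28 6882957592060) (.leaf 16 6865277576624)))) (.node (.node (.node (.leaf 161 6860077726205) (.leaf 176 6858616041987)) (.node (.leaf 176 6857146219213) (.leaf 175 6855676026180))) (.node (.node (.leaf 175 6854198246633) (.leaf 174 6852720436085)) (.node (.leaf 174 6851231333690) (.leaf 173 6849740961238))))))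
def ht91 : BT := (.node (.node (.node (.node (.node (.leaf 173 6848241381912) (.leaf 172 6846740899671)) (.node (.leaf 171 6845239039929) (.leaf 171 6843727293520))) (.node (.node (.leaf 171 6842201887847) (.leaf 169 6840683301001)) (.node (.leaf 169 6839153493081) (.leaf 169 6837611967541)))) (.node (.node (.node (.leaf 168 6836067557939) (.leaf 167 6834519227539)) (.node (.leaf 166 6832965082780) (.leaf 166 6831397255008))) (.node (.node (.leaf 165 6829824558541) (.leaf 164 6828246589151)) (.node (.leaf 163 6826663286092) (.leaf 163 6825062536947))))) (.node (.node (.node (.node (.leaf 162 6823452970389) (.leaf 160 6821845311033)) (.node (.leaf 160 6820218548599) (.leaf 159 6818582637325))) (.node (.node (.leaf 158 6816935542935) (.leaf 157 6815275884032)) (.node (.leaf 155 6813611994000) (.leaf 155 6811922073082)))) (.node (.node (.node (.leaf 153 6810226783670) (.leaf 152 6808514031116)) (.node (.leaf 150 6806792755728) (.leaf 150 6805036825302))) (.node (.node (.leaf 147 6803276915117) (.leaf 146 6801488376526)) (.node (.leaf 144 6799680444369) (.leaf 142 6797849711794))))))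
def ht92 : BT := (.node (.node (.node (.node (.node (.leaf 140 6795991120804) (.leaf 138 6794099457686)) (.node (.leaf 136 6792165726878) (.leaf 132 6790212690922))) (.node (.node (.leaf 130 6788203575231) (.leaf 127 6786141104881)) (.node (.leaf 123 6784028989271) (.leaf 120 6781833007412)))) (.node (.node (.node (.leaf 115 6779568546841) (.leaf 111 6777188640395)) (.node (.leaf 105 6774699851976) (.leaf 99 6772061136255))) (.node (.node (.leaf 92 6769240477789) (.leaf 85 6766151640065)) (.node (.leaf 76 6762749166741) (.leaf 68 6758787938129))))) (.node (.node (.node (.node (.leaf 56 6754218503988) (.leaf 46 6748336175795)) (.node (.leaf 33 6740348989247) (.leaf 20 6727120033653))) (.node (.node (.leaf 100 6714069749386) (.leaf 175 6712547397498)) (.node (.leaf 173 6711031038565) (.leaf 173 6709506241838)))) (.node (.node (.node (.leaf 173 6707972662018) (.leaf 172 6706438559556)) (.node (.leaf 172 6704895682476) (.leaf 171 6703349011184))) (.node (.node (.leaf 170 6701800704863) (.leaf 170 6700242321607)) (.node (.leaf 170 6698673597521) (.leaf 168 6697112731474))))))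
def ht93 : BT := (.node (.node (.node (.node (.node (.leaf 169 6695528940320) (.leaf 167 6693950976748)) (.node (.leaf 167 6692360814752) (.leaf 166 6690767608577))) (.node (.node (.leaf 166 6689161432820) (.leaf 165 6687551637643)) (.node (.leaf 164 6685934352180) (.leaf 163 6684312122213)))) (.node (.node (.node (.leaf 162 6682684752435) (.leaf 162 6681041456891)) (.node (.leaf 161 6679392036887) (.leaf 160 6677733218341))) (.node (.node (.leaf 160 6676054552856) (.leaf 158 6674376743514)) (.node (.leaf 157 6672689756548) (.leaf 156 6670991744157))))) (.node (.node (.node (.node (.leaf 156 6669270573317) (.leaf 154 6667543751878)) (.node (.leaf 153 6665801277491) (.leaf 151 6664053925914))) (.node (.node (.leaf 151 6662276200404) (.leaf 149 6660489218915)) (.node (.leaf 148 6658679030826) (.leaf 146 6656851986226)))) (.node (.node (.node (.leaf 144 6655007751421) (.leaf 142 6653143664843)) (.node (.leaf 141 6651241734839) (.leaf 139 6649310043334))) (.node (.node (.leaf 136 6647357408771) (.leaf 134 6645359789002)) (.node (.leaf 131 6643326061195) (.leaf 129 6641230879438))))))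
def ht94 : BT := (.node (.node (.node (.node (.node (.leaf 125 6639094061019) (.leaf 121 6636902611487)) (.node (.leaf 118 6634619103598) (.leaf 113 6632257550008))) (.node (.node (.leaf 108 6629787630481) (.leaf 103 6627169562902)) (.node (.leaf 96 6624402253449) (.leaf 90 6621381355169)))) (.node (.node (.node (.leaf 81 6618105623453) (.leaf 73 6614381200779)) (.node (.leaf 62 6610132026892) (.leaf 52 6604880383967))) (.node (.node (.leaf 39 6598193046257) (.leaf 27 6588006897200)) (.node (.leaf 28 6568188290373) (.leaf 172 6566613937737))))) (.node (.node (.node (.node (.leaf 171 6565036591070) (.leaf 171 6563449613479)) (.node (.leaf 170 6561862860855) (.leaf 170 6560266756880))) (.node (.node (.leaf 170 6558659437366) (.leaf 168 6557057263647)) (.node (.leaf 168 6555445098744) (.leaf 168 6553821524615)))) (.node (.node (.node (.leaf 167 6552196804462) (.leaf 166 6550569078641)) (.node (.leaf 166 6548926108867) (.leaf 165 6547280121073))) (.node (.node (.leaf 164 6545631664037) (.leaf 164 6543969847543)) (.node (.leaf 163 6542303253377) (.leaf 162 6540628992605))))))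
def ht95 : BT := (.node (.node (.node (.node (.node (.leaf 161 6538950102693) (.leaf 161 6537254763048)) (.node (.leaf 160 6535553885197) (.leaf 159 6533846034940))) (.node (.node (.leaf 158 6532126738111) (.leaf 158 6530387724594)) (.node (.leaf 156 6528650475657) (.leaf 156 6526892101383)))) (.node (.node (.node (.leaf 154 6525132801224) (.leaf 153 6523359201109)) (.node (.leaf 153 6521557933485) (.leaf 151 6519752847082))) (.node (.node (.leaf 150 6517930163554) (.leaf 148 6516100111435)) (.node (.leaf 147 6514247940396) (.leaf 146 6512368162542))))) (.node (.node (.node (.node (.leaf 144 6510473467324) (.leaf 143 6508548041693)) (.node (.leaf 140 6506614694704) (.leaf 139 6504641834628))) (.node (.node (.leaf 137 6502636838437) (.leaf 134 6500606976994)) (.node (.leaf 132 6498532687858) (.leaf 130 6496405011538)))) (.node (.node (.node (.leaf 126 6494245766684) (.leaf 123 6492026427277)) (.node (.leaf 120 6489730041033) (.leaf 116 6487352012832))) (.node (.node (.leaf 111 6484891972774) (.leaf 106 6482319704767)) (.node (.leaf 101 6479591077066) (.leaf 95 6476672381640))))))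
def ht96 : BT := (.node (.node (.node (.node (.node (.leaf 87 6473551507574) (.leaf 80 6470080673274)) (.node (.leaf 71 6466169348321) (.leaf 60 6461697918969))) (.node (.node (.leaf 50 6456156782269) (.leaf 38 6448847318031)) (.node (.leaf 25 6437843041801) (.leaf 43 6418537994392)))) (.node (.node (.node (.leaf 170 6416900889310) (.leaf 169 6415264208432)) (.node (.leaf 169 6413617771184) (.leaf 168 6411969226043))) (.node (.node (.leaf 167 6410316823596) (.leaf 167 6408654153205)) (.node (.leaf 167 6406980550200) (.leaf 166 6405305322142))))) (.node (.node (.node (.node (.leaf 165 6403625819535) (.leaf 165 6401932182921)) (.node (.leaf 164 6400236996922) (.leaf 163 6398538280134))) (.node (.node (.leaf 163 6396826525137) (.leaf 162 6395107612705)) (.node (.leaf 162 6393373070484) (.leaf 160 6391644535470)))) (.node (.node (.node (.leaf 160 6389900510423) (.leaf 159 6388150727068)) (.node (.leaf 159 6386378819164) (.leaf 157 6384610612493))) (.node (.node (.leaf 157 6382823145504) (.leaf 155 6381038532659)) (.node (.leaf 155 6379232206413) (.leaf 154 6377410892627))))))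
def ht97 : BT := (.node (.node (.node (.node (.node (.leaf 153 6375576882029) (.leaf 151 6373741630282)) (.node (.leaf 151 6371879366268) (.leaf 149 6370011786763))) (.node (.node (.leaf 148 6368121352565) (.leaf 147 6366209847853)) (.node (.leaf 146 6364274403743) (.leaf 143 6362338963901)))) (.node (.node (.node (.leaf 143 6360359547321) (.leaf 140 6358370359967)) (.node (.leaf 139 6356341727574) (.leaf 136 6354298145877))) (.node (.node (.leaf 135 6352203793462) (.leaf 132 6350081747154)) (.node (.leaf 130 6347905983534) (.leaf 126 6345698394048))))) (.node (.node (.node (.node (.leaf 124 6343414266592) (.leaf 120 6341072452208)) (.node (.leaf 116 6338654978506) (.leaf 112 6336134294393))) (.node (.node (.leaf 107 6333498728439) (.leaf 101 6330728184207)) (.node (.leaf 95 6327766711218) (.leaf 88 6324560028245)))) (.node (.node (.node (.leaf 80 6321022423773) (.leaf 71 6317012461222)) (.node (.leaf 60 6312369996501) (.leaf 49 6306603112718))) (.node (.node (.leaf 37 6298674295320) (.leaf 23 6285941674292)) (.node (.leaf 75 6270274901099) (.leaf 167 6268574097775))))))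
def ht98 : BT := (.node (.node (.node (.node (.node (.leaf 167 6266861049523) (.leaf 166 6265147448183)) (.node (.leaf 165 6263433240849) (.leaf 166 6261696104318))) (.node (.node (.leaf 164 6259964763089) (.leaf 164 6258221069505)) (.node (.leaf 163 6256475657195) (.leaf 162 6254727918143)))) (.node (.node (.node (.leaf 162 6252963161088) (.leaf 162 6251183415473)) (.node (.leaf 160 6249410887833) (.leaf 160 6247623617260))) (.node (.node (.leaf 159 6245830545995) (.leaf 159 6244017668955)) (.node (.leaf 157 6242210694583) (.leaf 157 6240385447764))))) (.node (.node (.node (.node (.leaf 156 6238553427394) (.leaf 156 6236698523568)) (.node (.leaf 154 6234844686957) (.leaf 153 6232981169572))) (.node (.node (.leaf 153 6231094791992) (.leaf 151 6229208124199)) (.node (.leaf 150 6227303232492) (.leaf 150 6225370964496)))) (.node (.node (.node (.leaf 148 6223434030387) (.leaf 147 6221478305436)) (.node (.leaf 145 6219513658179) (.leaf 144 6217522341845))) (.node (.node (.leaf 143 6215503936660) (.leaf 141 6213469765173)) (.node (.leaf 140 6211400936387) (.leaf 138 6209306577439))))))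
def ht99 : BT := (.node (.node (.node (.node (.node (.leaf 135 6207196063593) (.leaf 134 6205034378993)) (.node (.leaf 131 6202846384304) (.leaf 129 6200606718667))) (.node (.node (.leaf 126 6198322212878) (.leaf 123 6195976415566)) (.node (.leaf 120 6193555706935) (.leaf 116 6191059603818)))) (.node (.node (.node (.leaf 111 6188486737932) (.leaf 107 6185779836968)) (.node (.leaf 101 6182945402111) (.leaf 96 6179889807353))) (.node (.node (.leaf 88 6176627308741) (.leaf 81 6172999889249)) (.node (.leaf 71 6168964593680) (.leaf 61 6164256429432))))) (.node (.node (.node (.node (.leaf 50 6158442382094) (.leaf 38 6150518101340)) (.node (.leaf 23 6138943126099) (.leaf 66 6121024490076))) (.node (.node (.leaf 165 6119250894762) (.leaf 164 6117472911722)) (.node (.leaf 164 6115683581222) (.leaf 163 6113893248025)))) (.node (.node (.node (.leaf 162 6112101007351) (.leaf 162 6110291383528)) (.node (.leaf 162 6108468313842) (.leaf 160 6106654430340))) (.node (.node (.leaf 161 6104814850672) (.leaf 159 6102978690598)) (.node (.leaf 159 6101126788834) (.leaf 158 6099270769285))))))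
def ht100 : BT := (.node (.node (.node (.node (.node (.leaf 157 6097410111600) (.leaf 156 6095539987920)) (.node (.leaf 156 6093650824092) (.leaf 155 6091754605825))) (.node (.node (.leaf 154 6089850656044) (.leaf 153 6087935974721)) (.node (.leaf 153 6085996550111) (.leaf 151 6084059243733)))) (.node (.node (.node (.leaf 151 6082097015537) (.leaf 149 6080134080631)) (.node (.leaf 149 6078138760290) (.leaf 147 6076140178382))) (.node (.node (.leaf 146 6074123505894) (.leaf 145 6072085984458)) (.node (.leaf 143 6070036226747) (.leaf 142 6067959329909))))) (.node (.node (.node (.node (.leaf 141 6065852864603) (.leaf 139 6063727633508)) (.node (.leaf 137 6061579804423) (.leaf 135 6059401671990))) (.node (.node (.leaf 134 6057173371443) (.leaf 131 6054921562988)) (.node (.leaf 129 6052621067624) (.leaf 126 6050278941462)))) (.node (.node (.node (.leaf 123 6047880331526) (.leaf 120 6045413254798)) (.node (.leaf 117 6042857568503) (.leaf 112 6040232790709))) (.node (.node (.leaf 108 6037485700767) (.leaf 103 6034595939319)) (.node (.leaf 97 6031537066127) (.leaf 90 6028268541000))))))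
def ht101 : BT := (.node (.node (.node (.node (.node (.leaf 83 6024680253593) (.leaf 75 6020636125950)) (.node (.leaf 64 6016056470906) (.leaf 54 6010432769901))) (.node (.node (.leaf 41 6003250546925) (.leaf 28 5992596073091)) (.node (.leaf 23 5970962304080) (.leaf 163 5969115549049)))) (.node (.node (.node (.leaf 162 5967267840235) (.leaf 162 5965407694299)) (.node (.leaf 161 5963545809160) (.leaf 161 5961665629460))) (.node (.node (.leaf 160 5959783811335) (.leaf 159 5957899119174)) (.node (.leaf 159 5955999174809) (.leaf 158 5954091804365))))) (.node (.node (.node (.node (.leaf 157 5952180550015) (.leaf 157 5950252460946)) (.node (.leaf 156 5948318902770) (.leaf 155 5946375355037))) (.node (.node (.leaf 154 5944425911472) (.leaf 154 5942456220279)) (.node (.leaf 152 5940491092097) (.leaf 152 5938499968112)))) (.node (.node (.node (.leaf 151 5936499297736) (.leaf 150 5934487674757)) (.node (.leaf 150 5932449236169) (.leaf 148 5930406692106))) (.node (.node (.leaf 147 5928348722466) (.leaf 146 5926273817735)) (.node (.leaf 144 5924193852867) (.leaf 144 5922073510007))))))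
def ht102 : BT := (.node (.node (.node (.node (.node (.leaf 142 5919943255741) (.leaf 141 5917786265000)) (.node (.leaf 139 5915613459201) (.leaf 138 5913402074521))) (.node (.node (.leaf 136 5911165524240) (.leaf 134 5908900448102)) (.node (.leaf 132 5906599357135) (.leaf 129 5904270931282)))) (.node (.node (.node (.leaf 128 5901868665397) (.leaf 124 5899440136739)) (.node (.leaf 122 5896931512788) (.leaf 118 5894366535316))) (.node (.node (.leaf 115 5891698394254) (.leaf 110 5888945133337)) (.node (.leaf 106 5886045348877) (.leaf 100 5883001304318))))) (.node (.node (.node (.node (.leaf 94 5879743410958) (.leaf 86 5876245161886)) (.node (.leaf 79 5872309873186) (.leaf 69 5867843625279))) (.node (.node (.leaf 57 5862648312796) (.leaf 46 5855927373924)) (.node (.leaf 32 5846542002685) (.leaf 18 5829164331958)))) (.node (.node (.node (.leaf 137 5820508558743) (.leaf 160 5818577413003)) (.node (.leaf 159 5816640010672) (.leaf 158 5814701011484))) (.node (.node (.leaf 159 5812735267887) (.leaf 157 5810776945687)) (.node (.leaf 157 5808800289667) (.leaf 156 5806819912734))))))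
def ht103 : BT := (.node (.node (.node (.node (.node (.leaf 155 5804835311727) (.leaf 155 5802829796906)) (.node (.leaf 154 5800817731672) (.leaf 153 5798799576485))) (.node (.node (.leaf 153 5796761259410) (.leaf 151 5794724060872)) (.node (.leaf 151 5792664817219) (.leaf 150 5790596322198)))) (.node (.node (.node (.leaf 149 5788515836584) (.leaf 148 5786420242476)) (.node (.leaf 148 5784297359622) (.leaf 146 5782174324678))) (.node (.node (.leaf 145 5780032127130) (.leaf 144 5777869228734)) (.node (.leaf 143 5775686366435) (.leaf 141 5773495474873))))) (.node (.node (.node (.node (.leaf 140 5771275667868) (.leaf 139 5769025432128)) (.node (.leaf 137 5766758406143) (.leaf 136 5764453149608))) (.node (.node (.leaf 134 5762118748009) (.leaf 132 5759750748843)) (.node (.leaf 130 5757343927782) (.leaf 127 5754907692524)))) (.node (.node (.node (.leaf 125 5752411622651) (.leaf 123 5749840971957)) (.node (.leaf 119 5747223645483) (.leaf 116 5744518162093))) (.node (.node (.leaf 112 5741721504284) (.leaf 108 5738795025604)) (.node (.leaf 102 5735753712821) (.leaf 97 5732507927920))))))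
def ht104 : BT := (.node (.node (.node (.node (.node (.leaf 90 5729036258318) (.leaf 83 5725212182048)) (.node (.leaf 73 5720996218701) (.leaf 64 5716027452115))) (.node (.node (.leaf 52 5709996610752) (.leaf 39 5702009725425)) (.node (.leaf 25 5689566088648) (.leaf 65 5671203486516)))) (.node (.node (.node (.leaf 158 5669188824886) (.leaf 157 5667171177619)) (.node (.leaf 157 5665134011241) (.leaf 156 5663094553382))) (.node (.node (.leaf 155 5661051975116) (.leaf 154 5659001185316)) (.node (.leaf 154 5656932507258) (.leaf 154 5654845573967))))) (.node (.node (.node (.node (.leaf 152 5652764612314) (.leaf 152 5650660939445)) (.node (.leaf 151 5648550691537) (.leaf 150 5646432950377))) (.node (.node (.leaf 150 5644287113752) (.leaf 148 5642146349581)) (.node (.leaf 148 5639980675191) (.leaf 147 5637799843938)))) (.node (.node (.node (.leaf 145 5635618511188) (.leaf 145 5633407426623)) (.node (.leaf 144 5631179403327) (.leaf 142 5628942871799))) (.node (.node (.leaf 142 5626670326383) (.leaf 140 5624390169907)) (.node (.leaf 139 5622080303040) (.leaf 137 5619754864821))))))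
def ht105 : BT := (.node (.node (.node (.node (.node (.leaf 136 5617395668929) (.leaf 135 5614997190886)) (.node (.leaf 132 5612585231644) (.leaf 131 5610121845690))) (.node (.node (.leaf 129 5607616930579) (.leaf 126 5605082032303)) (.node (.leaf 124 5602481207196) (.leaf 121 5599825816858)))) (.node (.node (.node (.leaf 118 5597098489018) (.leaf 115 5594276230866)) (.node (.leaf 110 5591377082694) (.leaf 106 5588342138877))) (.node (.node (.leaf 101 5585147568440) (.leaf 95 5581755336819)) (.node (.leaf 89 5578057730972) (.leaf 80 5574029360865))))) (.node (.node (.node (.node (.leaf 71 5569451547312) (.leaf 60 5564073570081)) (.node (.leaf 48 5557276718200) (.leaf 34 5547807533484))) (.node (.node (.leaf 19 5531473677753) (.leaf 122 5520387247992)) (.node (.leaf 156 5518267623148) (.leaf 154 5516157690667)))) (.node (.node (.node (.leaf 154 5514030895207) (.leaf 153 5511898289223)) (.node (.leaf 153 5509744781673) (.leaf 152 5507586778543))) (.node (.node (.leaf 151 5505422024448) (.leaf 150 5503247541590)) (.node (.leaf 150 5501052689351) (.leaf 149 5498848806706))))))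
def ht106 : BT := (.node (.node (.node (.node (.node (.leaf 148 5496632091950) (.leaf 147 5494406386889)) (.node (.leaf 147 5492154998525) (.leaf 145 5489901696315))) (.node (.node (.leaf 145 5487620032695) (.leaf 143 5485339168717)) (.node (.leaf 143 5483021696836) (.leaf 141 5480700832596)))) (.node (.node (.node (.leaf 140 5478359088594) (.leaf 140 5475974557707)) (.node (.leaf 137 5473594831449) (.leaf 137 5471167461086))) (.node (.node (.leaf 135 5468722913091) (.leaf 133 5466252832424)) (.node (.leaf 132 5463738103129) (.leaf 130 5461190018791))))) (.node (.node (.node (.node (.leaf 128 5458598009385) (.leaf 125 5455974994831)) (.node (.leaf 123 5453289930701) (.leaf 121 5450526985499))) (.node (.node (.leaf 117 5447708947039) (.leaf 114 5444793401789)) (.node (.leaf 110 5441773796725) (.leaf 105 5438638911790)))) (.node (.node (.node (.leaf 101 5435294578508) (.leaf 94 5431763178775)) (.node (.leaf 87 5427934317640) (.leaf 78 5423732224177))) (.node (.node (.leaf 69 5418878266125) (.leaf 57 5413108480108)) (.node (.leaf 45 5405406999169) (.leaf 29 5394194961665))))))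
def ht107 : BT := (.node (.node (.node (.node (.node (.leaf 39 5373304525009) (.leaf 152 5371111398694)) (.node (.leaf 153 5368886733536) (.leaf 151 5366667504261))) (.node (.node (.leaf 151 5364429672951) (.leaf 150 5362187125258)) (.node (.leaf 149 5359933888732) (.leaf 149 5357660511544)))) (.node (.node (.node (.leaf 148 5355378803063) (.leaf 147 5353085280111)) (.node (.leaf 146 5350783429531) (.leaf 146 5348454968452))) (.node (.node (.leaf 145 5346111332251) (.leaf 143 5343772393890)) (.node (.leaf 143 5341402264809) (.leaf 142 5339012941484))))) (.node (.node (.node (.node (.leaf 141 5336607369677) (.leaf 140 5334180777312)) (.node (.leaf 139 5331729087916) (.leaf 137 5329271294324))) (.node (.node (.leaf 136 5326785668121) (.leaf 135 5324264776558)) (.node (.leaf 134 5321709048280) (.leaf 132 5319131880783)))) (.node (.node (.node (.leaf 130 5316523553425) (.leaf 128 5313882631683)) (.node (.leaf 127 5311180882108) (.leaf 124 5308444528164))) (.node (.node (.leaf 122 5305644878801) (.leaf 119 5302790639237)) (.node (.leaf 117 5299834322216) (.leaf 112 5296827926972))))))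
def ht108 : BT := (.node (.node (.node (.node (.node (.leaf 109 5293691750242) (.leaf 105 5290406541409)) (.node (.leaf 99 5286973982674) (.leaf 94 5283277130895))) (.node (.node (.leaf 86 5279313484805) (.leaf 78 5274903697000)) (.node (.leaf 68 5269860752494) (.leaf 56 5263845083903)))) (.node (.node (.node (.leaf 44 5255731486014) (.leaf 28 5243559550917)) (.node (.leaf 50 5223545025049) (.leaf 150 5221237469440))) (.node (.node (.leaf 149 5218923229064) (.leaf 149 5216586163866)) (.node (.leaf 148 5214245036164) (.leaf 148 5211877126133))))) (.node (.node (.node (.node (.leaf 146 5209518126703) (.leaf 146 5207136256662)) (.node (.leaf 146 5204723483624) (.leaf 144 5202319397728))) (.node (.node (.leaf 144 5199885927969) (.leaf 142 5197454365170)) (.node (.leaf 142 5194994149334) (.leaf 141 5192514547614)))) (.node (.node (.node (.leaf 140 5190017755068) (.leaf 139 5187503249516)) (.node (.leaf 137 5184980717585) (.leaf 137 5182417332461))) (.node (.node (.leaf 136 5179827049894) (.leaf 134 5177220791490)) (.node (.leaf 133 5174581742168) (.leaf 131 5171923040314))))))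
def ht109 : BT := (.node (.node (.node (.node (.node (.leaf 130 5169215978747) (.leaf 128 5166479576101)) (.node (.leaf 126 5163703875098) (.leaf 124 5160877629446))) (.node (.node (.leaf 122 5157992908823) (.leaf 120 5155031789550)) (.node (.leaf 116 5152023918426) (.leaf 113 5148925348787)))) (.node (.node (.node (.leaf 110 5145702941798) (.leaf 105 5142367469389)) (.node (.leaf 101 5138834007896) (.leaf 94 5135127157730))) (.node (.node (.leaf 88 5131086561929) (.leaf 79 5126665817077)) (.node (.leaf 70 5121564682867) (.leaf 58 5115459714712))))) (.node (.node (.node (.node (.leaf 44 5107562015933) (.leaf 29 5095320368782)) (.node (.leaf 55 5075527527111) (.leaf 147 5073099899434))) (.node (.node (.leaf 146 5070669059237) (.leaf 146 5068212914416)) (.node (.leaf 145 5065747882874) (.leaf 145 5063259787722)))) (.node (.node (.node (.leaf 143 5060774543286) (.leaf 143 5058264607014)) (.node (.leaf 143 5055723565669) (.leaf 141 5053187051027))) (.node (.node (.leaf 140 5050638765667) (.leaf 140 5048052060793)) (.node (.leaf 138 5045469731991) (.leaf 138 5042847802630))))))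
def ht110 : BT := (.node (.node (.node (.node (.node (.leaf 137 5040203614302) (.leaf 135 5037557862559)) (.node (.leaf 135 5034860856259) (.leaf 133 5032156568270))) (.node (.node (.leaf 132 5029417836735) (.leaf 130 5026660038250)) (.node (.leaf 129 5023861315530) (.leaf 128 5021008517106)))) (.node (.node (.node (.leaf 125 5018144437663) (.leaf 124 5015214305375)) (.node (.leaf 122 5012224392243) (.leaf 119 5009191833695))) (.node (.node (.leaf 116 5006100223370) (.leaf 114 5002895357704)) (.node (.leaf 110 4999609063350) (.leaf 107 4996168773883))))) (.node (.node (.node (.node (.leaf 101 4992616546587) (.leaf 97 4988809785513)) (.node (.leaf 90 4984748564920) (.leaf 82 4980312099530))) (.node (.node (.leaf 72 4975360018247) (.leaf 62 4969409193468)) (.node (.leaf 48 4961924808298) (.leaf 33 4950901278064)))) (.node (.node (.node (.leaf 29 4928230103204) (.leaf 144 4925681307559)) (.node (.leaf 144 4923108779928) (.leaf 143 4920526601910))) (.node (.node (.leaf 142 4917934823402) (.leaf 142 4915315715870)) (.node (.leaf 141 4912682606526) (.leaf 140 4910040911870))))))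
def ht111 : BT := (.node (.node (.node (.node (.node (.leaf 139 4907380334752) (.leaf 138 4904708947512)) (.node (.leaf 138 4901998526414) (.leaf 136 4899291079539))) (.node (.node (.leaf 136 4896542834944) (.leaf 134 4893790817370)) (.node (.leaf 134 4890995989584) (.leaf 132 4888189284106)))) (.node (.node (.node (.leaf 131 4885354043047) (.leaf 130 4882480727744)) (.node (.leaf 128 4879589724986) (.leaf 127 4876653233672))) (.node (.node (.leaf 126 4873659970353) (.leaf 123 4870655923425)) (.node (.leaf 122 4867576013689) (.leaf 120 4864437204075))))) (.node (.node (.node (.node (.leaf 117 4861249531300) (.leaf 114 4857992448228)) (.node (.leaf 112 4854615648458) (.leaf 108 4851138962648))) (.node (.node (.leaf 103 4847556152937) (.leaf 100 4843731396457)) (.node (.leaf 93 4839717599937) (.leaf 86 4835391763499)))) (.node (.node (.node (.leaf 78 4830585638947) (.leaf 68 4825047948625)) (.node (.leaf 56 4818231275688) (.leaf 41 4809012068604))) (.node (.node (.leaf 24 4793604520816) (.leaf 96 4779119316674)) (.node (.leaf 141 4776418763604) (.leaf 141 4773688272558))))))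
def ht112 : BT := (.node (.node (.node (.node (.node (.leaf 139 4770967744420) (.leaf 139 4768214598457)) (.node (.leaf 138 4765450453548) (.leaf 137 4762670375841))) (.node (.node (.leaf 137 4759856823061) (.leaf 135 4757044131132)) (.node (.leaf 135 4754195098324) (.leaf 134 4751321288457)))) (.node (.node (.node (.leaf 133 4748428397985) (.leaf 131 4745527737785)) (.node (.leaf 131 4742579412765) (.leaf 129 4739618718739))) (.node (.node (.leaf 128 4736623863419) (.leaf 127 4733585993250)) (.node (.leaf 126 4730501105286) (.leaf 123 4727411466332))))) (.node (.node (.node (.node (.leaf 123 4724231521398) (.leaf 120 4721032000623)) (.node (.leaf 118 4717768858727) (.leaf 116 4714432553337))) (.node (.node (.leaf 113 4711024107522) (.leaf 110 4707523410438)) (.node (.leaf 107 4703890105594) (.leaf 103 4700105177989)))) (.node (.node (.node (.leaf 98 4696138286273) (.leaf 92 4691920616875)) (.node (.leaf 85 4687341375900) (.leaf 76 4682249864501))) (.node (.node (.leaf 65 4676337079454) (.leaf 53 4668711331342)) (.node (.leaf 36 4657846105948) (.leaf 22 4634614303511))))))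
def ht113 : BT := (.node (.node (.node (.node (.node (.leaf 138 4631772220134) (.leaf 137 4628915910439)) (.node (.leaf 137 4626030363090) (.leaf 136 4623128290298))) (.node (.node (.leaf 135 4620214837735) (.leaf 135 4617262181006)) (.node (.leaf 133 4614315585377) (.leaf 133 4611327314047)))) (.node (.node (.node (.leaf 132 4608317593653) (.leaf 130 4605308540281)) (.node (.leaf 130 4602249826996) (.leaf 129 4599163099747))) (.node (.node (.leaf 127 4596066959845) (.leaf 127 4592911300176)) (.node (.leaf 125 4589737426705) (.leaf 124 4586517971542))))) (.node (.node (.node (.node (.leaf 122 4583268730890) (.leaf 121 4579958153445)) (.node (.leaf 118 4576628166704) (.leaf 117 4573213510085))) (.node (.node (.leaf 115 4569723199796) (.leaf 112 4566168968685)) (.node (.leaf 110 4562491107144) (.leaf 106 4558717955252)))) (.node (.node (.node (.leaf 102 4554805890877) (.leaf 97 4550719032187)) (.node (.leaf 92 4546357573612) (.leaf 85 4541645078589))) (.node (.node (.leaf 77 4536361413878) (.leaf 66 4530225160845)) (.node (.leaf 52 4522622264294) (.leaf 37 4511165823385))))))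
def ht114 : BT := (.node (.node (.node (.node (.node (.leaf 27 4488288634978) (.leaf 135 4485267126845)) (.node (.leaf 134 4482229815656) (.leaf 133 4479182701773))) (.node (.node (.leaf 133 4476093253143) (.leaf 131 4473012992956)) (.node (.leaf 131 4469890151146) (.leaf 130 4466746391377)))) (.node (.node (.node (.leaf 129 4463583021657) (.leaf 129 4460366083593)) (.node (.leaf 127 4457150187462) (.leaf 126 4453900309004))) (.node (.node (.leaf 125 4450617792067) (.leaf 124 4447295349441)) (.node (.leaf 122 4443955637081) (.leaf 121 4440566506490))))) (.node (.node (.node (.node (.leaf 120 4437116442584) (.leaf 118 4433629792199)) (.node (.leaf 116 4430089284148) (.leaf 115 4426456094640))) (.node (.node (.leaf 112 4422766647574) (.leaf 109 4419006700996)) (.node (.leaf 107 4415100626706) (.leaf 103 4411082091831)))) (.node (.node (.node (.leaf 99 4406881567862) (.leaf 93 4402502720354)) (.node (.leaf 88 4397745107402) (.leaf 80 4392528089528))) (.node (.node (.leaf 70 4386566049302) (.leaf 57 4379323198311)) (.node (.leaf 42 4369032708752) (.leaf 22 4350371109699))))))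
def ht115 : BT := (.node (.node (.node (.node (.node (.leaf 115 4340812593260) (.leaf 131 4337574988065)) (.node (.leaf 130 4334319176401) (.leaf 129 4331047990460))) (.node (.node (.leaf 128 4327755994299) (.leaf 127 4324442456045)) (.node (.leaf 127 4321081631179) (.leaf 125 4317717969492)))) (.node (.node (.node (.leaf 125 4314299965270) (.leaf 123 4310878429972)) (.node (.leaf 123 4307388934487) (.leaf 121 4303890092430))) (.node (.node (.leaf 120 4300343196580) (.leaf 118 4296772394262)) (.node (.leaf 118 4293112487428) (.leaf 115 4289438882179))))) (.node (.node (.node (.node (.leaf 114 4285683566552) (.leaf 112 4281859943016)) (.node (.leaf 109 4277983316434) (.leaf 108 4273957490707))) (.node (.node (.leaf 104 4269850602269) (.leaf 101 4265582978419)) (.node (.leaf 96 4261161276963) (.leaf 92 4256435739945)))) (.node (.node (.node (.leaf 85 4251376556785) (.leaf 77 4245764005930)) (.node (.leaf 66 4239287948781) (.leaf 53 4231014303982))) (.node (.node (.leaf 35 4218894925813) (.leaf 45 4197506420113)) (.node (.leaf 127 4194082183816) (.leaf 126 4190640585631))))))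
def ht116 : BT := (.node (.node (.node (.node (.node (.leaf 126 4187153691111) (.leaf 125 4183643968078)) (.node (.leaf 124 4180108615275) (.leaf 123 4176548784705))) (.node (.node (.leaf 122 4172961014935) (.leaf 121 4169337277628)) (.node (.leaf 120 4165679197458) (.leaf 119 4161982237423)))) (.node (.node (.node (.leaf 118 4158235295881) (.leaf 117 4154435933675)) (.node (.leaf 115 4150610269030) (.leaf 113 4146746285899))) (.node (.node (.leaf 112 4142800188585) (.leaf 111 4138756017856)) (.node (.leaf 108 4134663470781) (.leaf 106 4130463521324))))) (.node (.node (.node (.node (.leaf 103 4126162018909) (.leaf 100 4121705089414)) (.node (.leaf 96 4117074545237) (.leaf 91 4112213055374))) (.node (.node (.leaf 85 4107013738412) (.leaf 78 4101250829218)) (.node (.leaf 68 4094606773080) (.leaf 54 4086436261139)))) (.node (.node (.node (.leaf 37 4074573004851) (.leaf 40 4052070511293)) (.node (.leaf 123 4048413874494) (.leaf 123 4044706152263))) (.node (.node (.leaf 121 4041006824193) (.leaf 121 4037252298994)) (.node (.leaf 121 4033437572852) (.leaf 119 4029621212794))))))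
def ht117 : BT := (.node (.node (.node (.node (.node (.leaf 118 4025771541516) (.leaf 117 4021884417711)) (.node (.leaf 116 4017955386907) (.leaf 115 4013974227590))) (.node (.node (.leaf 113 4009973157356) (.leaf 113 4005872816790)) (.node (.leaf 111 4001734445726) (.leaf 109 3997543880101)))) (.node (.node (.node (.leaf 107 3993287033733) (.leaf 106 3988903161889)) (.node (.leaf 103 3984445770434) (.leaf 100 3979873693770))) (.node (.node (.leaf 97 3975135815058) (.leaf 94 3970144106021)) (.node (.leaf 88 3964925178322) (.leaf 82 3959276609774))))) (.node (.node (.node (.node (.leaf 74 3952940323045) (.leaf 62 3945513203201)) (.node (.leaf 47 3935611929708) (.leaf 27 3918564978202))) (.node (.node (.leaf 93 3905023161988) (.leaf 119 3901054159266)) (.node (.leaf 118 3897058472768) (.leaf 117 3893033931732)))) (.node (.node (.node (.leaf 116 3888977270303) (.leaf 115 3884883204998)) (.node (.leaf 114 3880750422659) (.leaf 114 3876536609870))) (.node (.node (.leaf 112 3872310118550) (.leaf 110 3868066118768)) (.node (.leaf 110 3863719195692) (.leaf 108 3859336742833))))))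
def ht118 : BT := (.node (.node (.node (.node (.node (.leaf 107 3854863620342) (.leaf 105 3850327954824)) (.node (.leaf 103 3845709763546) (.leaf 101 3840981166797))) (.node (.node (.leaf 99 3836101136721) (.leaf 95 3831114310330)) (.node (.leaf 92 3825886679041) (.leaf 88 3820339614546)))) (.node (.node (.node (.leaf 81 3814455411951) (.leaf 73 3807939735346)) (.node (.leaf 63 3800173427963) (.leaf 47 3790088999002))) (.node (.node (.leaf 28 3771163723052) (.leaf 92 3759024434374)) (.node (.leaf 115 3754719994649) (.leaf 113 3750420702921))))) (.node (.node (.node (.node (.leaf 113 3746047849037) (.leaf 111 3741675402241)) (.node (.leaf 111 3737220588953) (.leaf 110 3732716642748))) (.node (.node (.leaf 108 3728200370431) (.leaf 108 3723580310521)) (.node (.leaf 106 3718932463916) (.leaf 105 3714203018640)))) (.node (.node (.node (.leaf 103 3709423724545) (.leaf 102 3704529906698)) (.node (.leaf 99 3699595577524) (.leaf 98 3694489579519))) (.node (.node (.leaf 95 3689269918829) (.leaf 92 3683873139645)) (.node (.leaf 89 3678197539608) (.leaf 84 3672206775534))))))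
def ht119 : BT := (.node (.node (.node (.node (.node (.leaf 77 3665782628376) (.leaf 69 3658483425467)) (.node (.leaf 57 3649514801332) (.leaf 39 3636630194180))) (.node (.node (.leaf 43 3614480702503) (.leaf 111 3609826142717)) (.node (.leaf 109 3605177053795) (.leaf 108 3600488185587)))) (.node (.node (.node (.leaf 108 3595711700268) (.leaf 107 3590885830800)) (.node (.leaf 105 3586050852950) (.leaf 104 3581154009507))) (.node (.node (.leaf 104 3576138612720) (.leaf 102 3571090971903)) (.node (.leaf 100 3566001123045) (.leaf 100 3560748516368))))) (.node (.node (.node (.node (.leaf 97 3555468488557) (.leaf 96 3550024250884)) (.node (.leaf 93 3544487572779) (.leaf 91 3538740051223))) (.node (.node (.leaf 87 3532818930784) (.leaf 83 3526585192313)) (.node (.leaf 78 3519853822611) (.leaf 70 3512395296632)))) (.node (.node (.node (.leaf 59 3503452478847) (.leaf 42 3490986523450)) (.node (.leaf 38 3467722091153) (.leaf 105 3462688943055))) (.node (.node (.leaf 104 3457611059130) (.leaf 104 3452436386227)) (.node (.leaf 102 3447258911294) (.leaf 102 3441967741578))))))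
def ht120 : BT := (.node (.node (.node (.node (.node (.leaf 100 3436661979530) (.leaf 100 3431227302464)) (.node (.leaf 98 3425761360067) (.leaf 97 3420192262411))) (.node (.node (.leaf 95 3414562979050) (.leaf 94 3408792429980)) (.node (.leaf 92 3402910054984) (.leaf 90 3396869495094)))) (.node (.node (.node (.leaf 87 3390676509897) (.leaf 84 3384238500599)) (.node (.leaf 80 3377472500555) (.leaf 75 3370174609018))) (.node (.node (.leaf 67 3362080185192) (.leaf 56 3352250925834)) (.node (.leaf 39 3337534001391) (.leaf 50 3316268254061))))) (.node (.node (.node (.node (.leaf 100 3310712416484) (.leaf 100 3305039159548)) (.node (.leaf 98 3299363810497) (.leaf 97 3293619204364))) (.node (.node (.leaf 96 3287800335173) (.leaf 95 3281897048539)) (.node (.leaf 94 3275895012873) (.leaf 92 3269848994921)))) (.node (.node (.node (.leaf 92 3263599645853) (.leaf 89 3257333278345)) (.node (.leaf 88 3250868998356) (.leaf 86 3244231603311))) (.node (.node (.leaf 83 3237424956641) (.leaf 80 3230331014350)) (.node (.leaf 76 3222840417388) (.leaf 71 3214654045800))))))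
def ht121 : BT := (.node (.node (.node (.node (.node (.leaf 62 3205407591074) (.leaf 49 3193527029984)) (.node (.leaf 28 3172003593357) (.leaf 84 3159964544984))) (.node (.node (.leaf 94 3153771533628) (.leaf 93 3147508468635)) (.node (.leaf 93 3141094241760) (.leaf 91 3134659973971)))) (.node (.node (.node (.leaf 90 3128128593350) (.leaf 89 3121483322529)) (.node (.leaf 87 3114783406966) (.leaf 87 3107853076607))) (.node (.node (.leaf 84 3100899763236) (.leaf 83 3093717600106)) (.node (.leaf 81 3086329983729) (.leaf 79 3078630454082))))) (.node (.node (.node (.node (.leaf 75 3070656486162) (.leaf 70 3062248347463)) (.node (.leaf 65 3052777263208) (.leaf 54 3041595588301))) (.node (.node (.leaf 37 3024836097506) (.leaf 56 3004290306283)) (.node (.leaf 88 2997394571990) (.leaf 88 2990329315751)))) (.node (.node (.node (.leaf 86 2983246845834) (.leaf 86 2975972091273)) (.node (.leaf 84 2968661362131) (.leaf 84 2961122579277))) (.node (.node (.leaf 82 2953512903009) (.leaf 80 2945811642802)) (.node (.leaf 79 2937884265669) (.leaf 78 2929667127534))))))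
def ht122 : BT := (.node (.node (.node (.node (.node (.leaf 75 2921288886978) (.leaf 72 2912628446202)) (.node (.leaf 69 2903447848479) (.leaf 64 2893543803123))) (.node (.node (.leaf 57 2882091556239) (.leaf 43 2867151934128)) (.node (.leaf 35 2840614846048) (.leaf 82 2832799287383)))) (.node (.node (.node (.leaf 82 2824774558360) (.leaf 81 2816618007044)) (.node (.leaf 79 2808429390956) (.leaf 79 2799981688733))) (.node (.node (.leaf 77 2791467533630) (.leaf 76 2782758925746)) (.node (.leaf 75 2773810079052) (.leaf 73 2764702065823))))) (.node (.node (.node (.node (.leaf 71 2755367331099) (.leaf 69 2745701218444)) (.node (.leaf 67 2735513953964) (.leaf 63 2724758583167))) (.node (.node (.leaf 57 2713095493762) (.leaf 49 2698963514789)) (.node (.leaf 32 2677295794727) (.leaf 59 2657101159958)))) (.node (.node (.node (.leaf 75 2647894745467) (.leaf 75 2638398081763)) (.node (.leaf 73 2628850099832) (.leaf 72 2619107177839))) (.node (.node (.leaf 71 2609146599694) (.leaf 70 2598936679743)) (.node (.leaf 68 2588591349734) (.leaf 67 2577908372752))))))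
def ht123 : BT := (.node (.node (.node (.node (.node (.leaf 65 2566972693945) (.leaf 64 2555488119476)) (.node (.leaf 61 2543608870669) (.leaf 58 2530963858757))) (.node (.node (.leaf 53 2517160711891) (.leaf 45 2500657973597)) (.node (.leaf 29 2474286132432) (.leaf 57 2454652682025)))) (.node (.node (.node (.leaf 68 2443385499791) (.leaf 66 2432044015420)) (.node (.leaf 66 2420261767935) (.leaf 64 2408370511379))) (.node (.node (.leaf 63 2396162873303) (.leaf 62 2383597081273)) (.node (.leaf 60 2370835000614) (.leaf 59 2357602117665))))) (.node (.node (.node (.node (.leaf 57 2344029091214) (.leaf 56 2329719422591)) (.node (.leaf 53 2314932161095) (.leaf 51 2298888925299))) (.node (.node (.leaf 46 2281419297775) (.leaf 39 2259959627825)) (.node (.leaf 23 2224694349502) (.leaf 57 2205491378064)))) (.node (.node (.node (.leaf 58 2191082363232) (.leaf 57 2176252705416)) (.node (.leaf 56 2160960294072) (.leaf 55 2145167545800))) (.node (.node (.leaf 53 2129128702608) (.leaf 53 2112171919392)) (.node (.leaf 50 2095210613208) (.leaf 50 2077147273992))))))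
def ht124 : BT := (.node (.node (.node (.node (.node (.leaf 48 2058569798832) (.leaf 46 2039360712312)) (.node (.leaf 45 2018836017000) (.leaf 43 1996994990712))) (.node (.node (.leaf 40 1973582999400) (.leaf 36 1947590741616)) (.node (.leaf 30 1915843179024) (.leaf 19 1862402805984)))) (.node (.node (.node (.leaf 45 1833324491592) (.leaf 46 1811713146768)) (.node (.leaf 45 1789022828520) (.leaf 44 1765118991816))) (.node (.node (.leaf 42 1740457558296) (.leaf 41 1714352162328)) (.node (.leaf 40 1686592664136) (.leaf 38 1657722854376))))) (.node (.node (.node (.node (.leaf 37 1626796699992) (.leaf 35 1594424223360)) (.node (.leaf 34 1559403050904) (.leaf 32 1522422827136))) (.node (.node (.leaf 31 1481878570104) (.leaf 29 1438505884944)) (.node (.leaf 27 1391881127112) (.leaf 26 1339277659488)))) (.node (.node (.node (.leaf 24 1281349512648) (.leaf 22 1216783690560)) (.node (.leaf 21 1139526473256) (.leaf 19 1048080005424))) (.node (.node (.leaf 16 942720410160) (.leaf 15 795459768912)) (.node (.leaf 12 590305763448) (.leaf 11 0))))))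
def htg0 : BT := (.node (.node (.node (.node (.node ht0 ht1) (.node ht2 ht3)) (.node (.node ht4 ht5) (.node ht6 ht7))) (.node (.node (.node ht8 ht9) (.node ht10 ht11)) (.node (.node ht12 ht13) (.node ht14 ht15)))) (.node (.node (.node (.node ht16 ht17) (.node ht18 ht19)) (.node (.node ht20 ht21) (.node ht22 ht23))) (.node (.node (.node ht24 ht25) (.node ht26 ht27)) (.node (.node ht28 ht29) (.node ht30 ht31)))))
def htg1 : BT := (.node (.node (.node (.node (.node ht32 ht33) (.node ht34 ht35)) (.node (.node ht36 ht37) (.node ht38 ht39))) (.node (.node (.node ht40 ht41) (.node ht42 ht43)) (.node (.node ht44 ht45) (.node ht46 ht47)))) (.node (.node (.node (.node ht48 ht49) (.node ht50 ht51)) (.node (.node ht52 ht53) (.node ht54 ht55))) (.node (.node (.node ht56 ht57) (.node ht58 ht59)) (.node (.node ht60 ht61) (.node ht62 ht63)))))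
def htg2 : BT := (.node (.node (.node (.node (.node ht64 ht65) (.node ht66 ht67)) (.node (.node ht68 ht69) (.node ht70 ht71))) (.node (.node (.node ht72 ht73) (.node ht74 ht75)) (.node (.node ht76 ht77) (.node ht78 ht79)))) (.node (.node (.node (.node ht80 ht81) (.node ht82 ht83)) (.node (.node ht84 ht85) (.node ht86 ht87))) (.node (.node (.node ht88 ht89) (.node ht90 ht91)) (.node (.node ht92 ht93) (.node ht94 ht95)))))
def htg3 : BT := (.node (.node (.node (.node (.node ht96 ht97) (.node ht98 ht99)) (.node (.node ht100 ht101) (.node ht102 ht103))) (.node (.node (.node ht104 ht105) (.node ht106 ht107)) (.node (.node ht108 ht109) ht110))) (.node (.node (.node (.node ht111 ht112) (.node ht113 ht114)) (.node (.node ht115 ht116) ht117)) (.node (.node (.node ht118 ht119) (.node ht120 ht121)) (.node (.node ht122 ht123) ht124))))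
def ht : BT := (.node (.node htg0 htg1) (.node htg2 htg3))

def ops : List Bool := [false, true, false, false, false, false, false, false, false, false, false, false, false, false, false, false, false, false]

/-- lower bound for the numerator -/
def NB : ℕ := 515526835440664463031763136173438463061290

end Pool.Agent.J6H58.D4.DatF
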