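import Mathlib
import Pool.Agent.J6H58.D3.Main
import Pool.Agent.J6H58.D4.Snd4

/-! From the certificate to `m + 1` primes among `K` admissible linear forms (after `J6H58.D3.Main`). -/

set_option autoImplicit false

open Finset Filter

namespace Pool.Agent.J6H58.D4

open Pool.Agent.H358R5 Pool.Agent.H95R2.BG Pool.Agent.H95R2.BG.LF
open Pool.Agent.Y826.ZG (S_P2L)
open Pool.Agent.J6H58.D3

/-- the certificate gives `m + 1` primes -/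
theorem crit_cert4 (hP2 : S_P2L) (h nm w2 : ℕ) (t ph ht : BT) (L : List Bool)
    (m K0 N1 y1 Y1 y2 Y2 cap D1 D2 b1 b2 NB : ℕ) (hh : 0 < h) (hw2 : 0 < w2)
    (hN1 : 0 < N1) (hN : t.len ≤ 2 * N1) (hN0 : 1 ≤ t.len) (hrad : 20000 * (t.len - 1) ≤ 20474 * N1)
    (hcap : 2 * cap ≤ N1) (hy1 : 10000 * y1 ≤ 2 * N1) (hY1 : 6 * N1 ≤ 100 * Y1)
    (hy2 : 100 * y2 ≤ 2 * N1) (hY2 : 406 * N1 ≤ 1000 * Y2) (hz : zf t cap = true)
    (hH : chkH w2 t ph ht = true)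
    (hchk : chk4 h nm t ph ht L (4 * m * N1 * 2 ^ 16) ((K0 + 1) * (2 ^ 16 - 1)) NB (K0 + 1) = true)
    (hc1 : chkW t ph y1 (Y1 + y1) D1 b1 K0 NB (exA h L 0) 17 = true)
    (hc2 : chkW t ph y2 (Y2 + y2) D2 b2 K0 NB (exA h L 0) 17 = true) :
    ∀ (a b : Fin (K0 + 1) → ℕ), AdmissibleL a b →
    ∀ᶠ X : ℝ in atTop, X / Real.log X ^ CC (K0 + 1) ≤ ((gdM m a b (3 * X)).card : ℝ) := by
  obtain ⟨s1, s2⟩ := chk4_sound h nm w2 t ph ht L _ _ NB K0 hh hw2 hH hchk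
  set An : ℕ := ∑ s ∈ range (t.len + 1), AG t.G (K0 + 1) s * ph.val (t.len - s) ^ 2 with hAn
  set Bn : ℕ := ∑ s ∈ range (t.len + 1), AG t.G K0 s * HV t ph (t.len - s) ^ 2 with hBn
  have hbad : ∀ y Y D b : ℕ, chkW t ph y Y D b K0 NB (exA h L 0) 17 = true →
      2 ^ 17 * ∑ c ∈ (Box K0 t.len).filter (fun c => SN y c < Y),
      ((∏ j, (t.G (c j + 1) : ℝ)) * ((∑ i ∈ range (t.len - ∑ j, (c j + 1)),
        t.G (i + 1) * ph.val (t.len - ∑ j, (c j + 1) - 1 - i) : ℕ) : ℝ)) ^ 2 ≤ (Bn : ℝ) := by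
    intro y Y D b hc
    have := chkW_sound t ph y Y D b K0 NB (exA h L 0) 17 hc
      (fun c => ((∑ i ∈ range (t.len - ∑ j, (c j + 1)),
        t.G (i + 1) * ph.val (t.len - ∑ j, (c j + 1) - 1 - i) : ℕ) : ℝ)) (fun c => rfl)
    refine le_trans this ?_
    exact_mod_cast s2
  refine critT hP2 m K0 N1 t.len y1 Y1 y2 Y2 cap t.G ph.val hN1 hN hN0 hrad hcap hy1 hY1 hy2 hY2
    ?_ (An : ℝ) (Bn : ℝ) (le_of_eq ?_) (le_of_eq ?_) (hbad y1 _ D1 b1 hc1) (hbad y2 _ D2 b2 hc2) ?_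
  · intro k hk
    unfold BT.G
    exact zf_sound t cap hz (k - 1) (by omega)
  · rw [hAn]
    push_cast
    rfl
  · rw [hBn]
    push_cast
    simp only [HV]
    push_cast
    rfl
  · have h3 : ((4 * m * N1 * 2 ^ 16 * An : ℕ) : ℝ) < (((K0 + 1) * (2 ^ 16 - 1) * Bn : ℕ) : ℝ) := by
      exact_mod_cast s1
    push_cast at h3
    norm_num at h3 ⊢
    linarith

end Pool.Agent.J6H58.D4
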