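import Mathlib
import Pool.Agent.Y826.ZG.Main
import Pool.Agent.Y826.ZG.P2L
import Pool.Agent.J6H58.D4.Main4
import Pool.Agent.J6H58.D4.Cert
import Pool.Agent.J6H58.D4.CertH

/-! Four of any `196609` admissible linear forms are simultaneously prime, at least `x / (log x) ^ C` times. -/

set_option autoImplicit false

namespace Pool.Agent.J6H58.D4

open Pool.Agent.Y876.FF (LH)
open Pool.Agent.J6H58.D3

theorem lh196609 : LH 3 196609 (CC 196609) := by
  refine lh_of_gdM 3 196609 (CC 196609) ?_
  exact crit_cert4 (Pool.Agent.Y826.ZG.p2l Pool.Agent.Y826.ZG.s_zz) 54 4956815 56 DatF.bt DatF.ph DatF.ht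
    DatF.ops 3 196608 4650000 930 279000 23250 1887900 1395000 512 1024 30 30 DatF.NB (by norm_num)
    (by norm_num) (by norm_num) (by rw [len_eq]; norm_num) (by rw [len_eq]; norm_num)
    (by rw [len_eq]) (by norm_num) (by norm_num) (by norm_num) (by norm_num) (by norm_num)
    cap_check prof_check cert_check bad1_check bad2_check

end Pool.Agent.J6H58.D4
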