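import Mathlib
import Pool.Agent.J6H58.D3.Pat
import Pool.Agent.J6H58.D4.PIF
import Pool.Agent.J6H58.D4.Fin

/-! Four primes in a window of `1383148` consecutive odd integers. -/

set_option autoImplicit false

open Finset Filter

namespace Pool.Agent.J6H58.D4

open Pool.Agent.J6H58.D3

/-- an admissible set of `196609` even shifts between `0` and `2766294` -/
theorem shifts : ∃ S : Finset ℤ, S.card = 196609 ∧ (∀ p : ℕ, p.Prime → ∃ r : ℤ, ∀ s ∈ S, ¬ (p : ℤ) ∣ r + s) ∧
    ∀ s ∈ S, 0 ≤ s ∧ s ≤ 2766294 ∧ (2 : ℤ) ∣ s := by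
  classical
  obtain ⟨T, hT, hTc⟩ := Finset.exists_subset_card_eq pif
  have hmem : ∀ p ∈ T, 196613 ≤ p ∧ p ≤ 2962907 ∧ p.Prime := by
    intro p hp
    have h := hT hp
    rw [Finset.mem_filter, Finset.mem_Icc] at h
    exact ⟨h.1.1, h.1.2, h.2⟩
  have hinj : Set.InjOn (fun p : ℕ => (p : ℤ) - 196613) T := by
    intro a _ b _ hab
    simp only at hab
    have : (a : ℤ) = b := by linarith
    exact_mod_cast this
  refine ⟨T.image (fun p : ℕ => (p : ℤ) - 196613), ?_, ?_, ?_⟩
  · rw [card_image_of_injOn hinj, hTc]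
  · intro p hp
    rcases le_or_gt p 196609 with h | h
    · refine ⟨196613, fun s hs hd => ?_⟩
      obtain ⟨q, hq, rfl⟩ := mem_image.1 hs
      obtain ⟨h1, h2, h3⟩ := hmem q hq
      have e : (196613 : ℤ) + ((q : ℤ) - 196613) = q := by ring
      rw [e] at hd
      have := (Nat.prime_dvd_prime_iff_eq hp h3).1 (by exact_mod_cast hd)
      omega
    · have : NeZero p := ⟨hp.pos.ne'⟩
      have hcard : ((T.image (fun p : ℕ => (p : ℤ) - 196613)).image fun s : ℤ => (s : ZMod p)).card <
          (univ : Finset (ZMod p)).card := by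
        refine lt_of_le_of_lt Finset.card_image_le ?_
        rw [card_image_of_injOn hinj, hTc, Finset.card_univ, ZMod.card]
        exact h
      obtain ⟨c, _, hc⟩ := Finset.exists_mem_notMem_of_card_lt_card hcard
      refine ⟨((-c).val : ℤ), fun s hs hd => hc ?_⟩
      rw [← ZMod.intCast_zmod_eq_zero_iff_dvd] at hd
      push_cast at hd
      rw [ZMod.natCast_zmod_val] at hd
      rw [Finset.mem_image]
      refine ⟨s, hs, ?_⟩
      linear_combination hd
  · intro s hs
    obtain ⟨q, hq, rfl⟩ := mem_image.1 hs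
    obtain ⟨h1, h2, h3⟩ := hmem q hq
    refine ⟨by omega, by omega, ?_⟩
    have h4 : q % 2 = 1 := by
      rcases h3.eq_two_or_odd with h | h
      · omega
      · exact h
    omega

/-- four primes in a window -/
theorem window : ∀ᶠ x : ℝ in atTop, x / Real.log x ^ (CC 196609 + 4) ≤ (Set.ncard {n : ℕ | (n : ℝ) ≤ x ∧ Odd n ∧
    4 ≤ ((range 1383148).filter fun k => (n + 2 * k).Prime).card} : ℝ) := by
  classical
  obtain ⟨S, hS, hadm, hb⟩ := shifts
  have h := (setup lh196609 S hS.ge hadm 2 1 (by norm_num) (fun s hs => by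
    obtain ⟨-, -, t, rfl⟩ := hb s hs
    refine ⟨1, -t, ?_⟩
    push_cast
    ring) 2766294 (fun s hs => by
      obtain ⟨h1, h2, -⟩ := hb s hs
      rw [abs_of_nonneg h1]
      exact h2)).1
  filter_upwards [h] with x hx
  refine hx.trans (Nat.cast_le.2 (Set.ncard_le_ncard ?_ ?_))
  · rintro n ⟨h1, h2, P, hPS, hPc, hP⟩
    have hodd : Odd n := by
      rw [Nat.odd_iff]
      have h3 : (n : ℤ) % 2 = 1 := by
        have := h2
        unfold Int.ModEq at this
        push_cast at this
        omega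
      omega
    refine ⟨h1, hodd, ?_⟩
    refine hPc.trans (Finset.card_le_card_of_injOn (fun y => (y / 2).toNat) ?_ ?_)
    · intro y hy
      have hy' := hPS (mem_coe.1 hy)
      obtain ⟨g1, g2, t, rfl⟩ := hb y hy'
      obtain ⟨p, hp, hpn⟩ := (hP (2 * t) (Or.inr hy')).2 (mem_coe.1 hy)
      rw [mem_coe, mem_filter, mem_range]
      have e1 : (2 * t) / 2 = t := by omega
      simp only [e1]
      have ht : 0 ≤ t := by omega
      refine ⟨by omega, ?_⟩
      have e2 : n + 2 * t.toNat = p := by omega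
      rw [e2]
      exact hp
    · intro y hy z hz hyz
      obtain ⟨g1, g2, t, rfl⟩ := hb y (hPS (mem_coe.1 hy))
      obtain ⟨g3, g4, u, rfl⟩ := hb z (hPS (mem_coe.1 hz))
      simp only at hyz
      omega
  · apply (Set.finite_Iic ⌊x⌋₊).subset
    rintro n ⟨hn, -⟩
    exact Nat.le_floor hn

end Pool.Agent.J6H58.D4
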